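import Pool.Agent.Lib.MP_c6e9f4_al.Bnd.AV

/-!
ROW AB (130 lines). Abstract decomposition. Proof. First (i): for disjoint finsets `J, K, U` with union `s`, `J` nonempty, and `f` with `A e f = 0` (e ∈ J), `A e f = f` (e ∈ K): `|ip (M f) f| ≤ θ * nsq f`. Induction on `U`:
`U = ∅`: Cauchy-Schwarz (abs_ip_le) and `hcontr`: `√nsq (M f) ≤ θ √nsq f`, `√a √a = a`. `U = {e} ∪ U'`: `f = f1 + f2`, `f1 := A e f`, `f2 := f - A e f`; `A e f2 = 0`, `A e f1 = f1`, and since the `A e'` commute both have the same
properties for `J`, `K` as `f` (additivity of `A e'`, write `f2 = f + (-1) • ..`; note `hadd` with `A e 0 = 0`, `A e (-f) = - A e f` follow from `hadd`). So the induction hypothesis applies to `f1` (with `K ∪ {e}`) and to `f2` (with `J ∪ {e}`).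
Cross terms vanish: `ip (M f1) f2 = ip (M (A e f1)) f2 = ip (A e (M f1)) f2 = ip (M f1) (A e f2) = 0`, likewise `ip (M f2) f1 = ip (M f2) (A e f1) = ip (A e (M f2)) f1 = ip (M (A e f2)) f1 = ip (M 0) f1 = 0`; and `ip f1 f2 = 0`, so `nsq f = nsq f1 + nsq f2`.
(ii) for disjoint `K, U` with union `s` and `A e f = f` for `e ∈ K` there is `g` as in the statement (with `f`). Induction on `U`: `U = ∅`: `g = f`. `U = {e} ∪ U'`: `f = f1 + f2` as before; take `g` for `f1` (`K ∪ {e}`), and (i) for `f2` with `J = {e}`: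
`ip (M f) f = ip (M f1) f1 + ip (M f2) f2 ≥ ip (M g) g - θ nsq f1 - θ nsq f2`. For fixed `h`: `ip g h = ip f1 h = ip (A e f) h = ip f (A e h) = ip f h`.
The theorem is (ii) with `K = ∅`, `U = s`.
-/

set_option autoImplicit false

namespace Pool.Agent.Lib.MP_c6e9f4_al.Bnd

open Pool.Agent.Lib.MP_c6e9f4_al.Exp (Bad DB LenFun)
open Pool.Agent.Lib.MP_c6e9f4_al.Nil (DU)

private theorem ab_ip_add {X : Type} [Fintype X] (f g h : X → ℝ) :
    ip (fun x => f x + g x) h = ip f h + ip g h := by
  unfold ip
  rw [← Finset.sum_add_distrib]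
  exact Finset.sum_congr rfl fun x _ => by ring

private theorem ab_ip_add' {X : Type} [Fintype X] (f g h : X → ℝ) :
    ip f (fun x => g x + h x) = ip f g + ip f h := by
  unfold ip
  rw [← Finset.sum_add_distrib]
  exact Finset.sum_congr rfl fun x _ => by ring

private theorem ab_ip_zero {X : Type} [Fintype X] (f : X → ℝ) : ip f (fun _ => (0 : ℝ)) = 0 := by
  unfold ip
  exact Finset.sum_eq_zero fun x _ => by ring

private theorem ab_ip_zero' {X : Type} [Fintype X] (f : X → ℝ) : ip (fun _ => (0 : ℝ)) f = 0 := by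
  unfold ip
  exact Finset.sum_eq_zero fun x _ => by ring

private theorem ab_nsq {X : Type} [Fintype X] (f : X → ℝ) : nsq f = ip f f := by
  unfold ip nsq
  exact Finset.sum_congr rfl fun x _ => by ring

private theorem ab_comm {X : Type} [Fintype X] (f g : X → ℝ) : ip f g = ip g f := by
  unfold ip
  exact Finset.sum_congr rfl fun x _ => by ring

private theorem ab_sub {X : Type} (B : (X → ℝ) → (X → ℝ))
    (h : ∀ f g : X → ℝ, B (fun x => f x + g x) = fun x => B f x + B g x) (f g : X → ℝ) :
    B (fun x => f x - g x) = fun x => B f x - B g x := by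
  have h1 := h (fun x => f x - g x) g
  have h2 : (fun x => f x - g x + g x) = f := by
    funext x
    ring
  simp only [h2] at h1
  funext x
  have h3 : B f x = B (fun x => f x - g x) x + B g x := congrFun h1 x
  linarith

private theorem ab_zero {X : Type} (B : (X → ℝ) → (X → ℝ))
    (h : ∀ f g : X → ℝ, B (fun x => f x + g x) = fun x => B f x + B g x) :
    B (fun _ => 0) = fun _ => 0 := by
  have h1 := h (fun _ => 0) (fun _ => 0)
  simp only [add_zero] at h1
  funext x
  have h3 : B (fun _ => 0) x = B (fun _ => 0) x + B (fun _ => 0) x := congrFun h1 x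
  linarith

theorem abstract_decomp {X E : Type} [Fintype X] [DecidableEq E] (s : Finset E)
    (A : E → (X → ℝ) → (X → ℝ)) (M : (X → ℝ) → (X → ℝ))
    (hadd : ∀ e ∈ s, ∀ f g : X → ℝ, A e (fun x => f x + g x) = fun x => A e f x + A e g x)
    (hidem : ∀ e ∈ s, ∀ f, A e (A e f) = A e f)
    (hsym : ∀ e ∈ s, ∀ f g, ip (A e f) g = ip f (A e g))
    (hcomm : ∀ e ∈ s, ∀ e' ∈ s, ∀ f, A e (A e' f) = A e' (A e f))
    (hM : ∀ f g : X → ℝ, M (fun x => f x + g x) = fun x => M f x + M g x)
    (hMA : ∀ e ∈ s, ∀ f, M (A e f) = A e (M f)) (θ : ℝ) (hθ : 0 ≤ θ)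
    (hcontr : ∀ J ⊆ s, J.Nonempty → ∀ g, (∀ e ∈ J, A e g = fun _ => 0) →
      (∀ e ∈ s, e ∉ J → A e g = g) → nsq (M g) ≤ θ ^ 2 * nsq g) (f : X → ℝ) :
    ∃ g, (∀ e ∈ s, A e g = g) ∧ (∀ h, (∀ e ∈ s, A e h = h) → ip g h = ip f h) ∧
      ip (M g) g - θ * nsq f ≤ ip (M f) f := by
  -- the splitting
  have hz : ∀ e ∈ s, A e (fun _ => 0) = fun _ => 0 := fun e he => ab_zero (A e) (hadd e he)
  have hs : ∀ e ∈ s, ∀ f g : X → ℝ, A e (fun x => f x - g x) = fun x => A e f x - A e g x :=
    fun e he => ab_sub (A e) (hadd e he)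
  have h2z : ∀ e ∈ s, ∀ f : X → ℝ, A e (fun x => f x - A e f x) = fun _ => 0 := by
    intro e he f
    rw [hs e he, hidem e he]
    funext x
    ring
  have h1zero : ∀ e ∈ s, ∀ e' ∈ s, ∀ f : X → ℝ, A e' f = (fun _ => 0) → A e' (A e f) = fun _ => 0 := by
    intro e he e' he' f h
    rw [hcomm e' he' e he, h, hz e he]
  have h2zero : ∀ e ∈ s, ∀ e' ∈ s, ∀ f : X → ℝ, A e' f = (fun _ => 0) →
      A e' (fun x => f x - A e f x) = fun _ => 0 := by
    intro e he e' he' f h
    rw [hs e' he', h, h1zero e he e' he' f h]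
    funext x
    ring
  have h1fix : ∀ e ∈ s, ∀ e' ∈ s, ∀ f : X → ℝ, A e' f = f → A e' (A e f) = A e f := by
    intro e he e' he' f h
    rw [hcomm e' he' e he, h]
  have h2fix : ∀ e ∈ s, ∀ e' ∈ s, ∀ f : X → ℝ, A e' f = f →
      A e' (fun x => f x - A e f x) = fun x => f x - A e f x := by
    intro e he e' he' f h
    rw [hs e' he', h, h1fix e he e' he' f h]
  have hsplit : ∀ e ∈ s, ∀ f : X → ℝ, ip (M f) f = ip (M (A e f)) (A e f) +
      ip (M (fun x => f x - A e f x)) (fun x => f x - A e f x) := by
    intro e he f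
    have e1 : f = fun x => A e f x + (f x - A e f x) := by
      funext x
      ring
    have c1 : ip (M (A e f)) (fun x => f x - A e f x) = 0 := by
      rw [hMA e he, hsym e he, h2z e he, ab_ip_zero]
    have c2 : ip (M (fun x => f x - A e f x)) (A e f) = 0 := by
      rw [← hsym e he, ← hMA e he, h2z e he, ab_zero M hM, ab_ip_zero']
    have e2 : ip (M f) f = ip (M (fun x => A e f x + (f x - A e f x))) (fun x => A e f x + (f x - A e f x)) := by
      rw [← e1]
    rw [e2, hM, ab_ip_add, ab_ip_add', ab_ip_add', c1, c2]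
    ring
  have hnsplit : ∀ e ∈ s, ∀ f : X → ℝ, nsq f = nsq (A e f) + nsq (fun x => f x - A e f x) := by
    intro e he f
    have e1 : f = fun x => A e f x + (f x - A e f x) := by
      funext x
      ring
    have c1 : ip (A e f) (fun x => f x - A e f x) = 0 := by
      rw [hsym e he, h2z e he, ab_ip_zero]
    have e2 : ip f f = ip (fun x => A e f x + (f x - A e f x)) (fun x => A e f x + (f x - A e f x)) := by
      rw [← e1]
    rw [ab_nsq, ab_nsq, ab_nsq, e2, ab_ip_add, ab_ip_add', ab_ip_add', c1,
      ab_comm (fun x => f x - A e f x) (A e f), c1]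
    ring
  -- part (i)
  have part1 : ∀ U : Finset E, ∀ J ⊆ s, J.Nonempty → ∀ f : X → ℝ, (∀ e ∈ J, A e f = fun _ => 0) →
      (∀ e ∈ s, e ∉ J → e ∉ U → A e f = f) → |ip (M f) f| ≤ θ * nsq f := by
    intro U
    induction U using Finset.induction_on with
    | empty =>
      intro J hJ hne f h0 h1
      have h2 := hcontr J hJ hne f h0 fun e he hn => h1 e he hn (Finset.notMem_empty e)
      refine (abs_ip_le (M f) f).trans ?_
      have h3 : Real.sqrt (nsq (M f)) ≤ θ * Real.sqrt (nsq f) := by
        rw [Real.sqrt_le_left (by positivity), mul_pow, Real.sq_sqrt (nsq_nonneg f)]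
        exact h2
      calc Real.sqrt (nsq (M f)) * Real.sqrt (nsq f) ≤ θ * Real.sqrt (nsq f) * Real.sqrt (nsq f) :=
            mul_le_mul_of_nonneg_right h3 (Real.sqrt_nonneg _)
        _ = θ * nsq f := by rw [mul_assoc, Real.mul_self_sqrt (nsq_nonneg f)]
    | insert e U _ ih =>
      intro J hJ hne f h0 h1
      by_cases he : e ∈ s ∧ e ∉ J
      · obtain ⟨he, hj⟩ := he
        have g1 := ih J hJ hne (A e f) (fun e' he' => h1zero e he e' (hJ he') f (h0 e' he')) (by
          intro e' he' hn hu
          by_cases hee : e' = e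
          · rw [hee, hidem e he]
          · exact h1fix e he e' he' f (h1 e' he' hn (by simp [hee, hu])))
        have g2 := ih (insert e J) (Finset.insert_subset he hJ) (Finset.insert_nonempty e J)
          (fun x => f x - A e f x) (by
            intro e' he'
            rcases Finset.mem_insert.1 he' with rfl | h
            · exact h2z e' he f
            · exact h2zero e he e' (hJ h) f (h0 e' h)) (by
          intro e' he' hn hu
          rw [Finset.mem_insert, not_or] at hn
          exact h2fix e he e' he' f (h1 e' he' hn.2 (by simp [hn.1, hu])))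
        rw [hsplit e he f, hnsplit e he f, mul_add]
        exact (abs_add_le _ _).trans (add_le_add g1 g2)
      · refine ih J hJ hne f h0 fun e' he' hn hu => h1 e' he' hn ?_
        rw [Finset.mem_insert, not_or]
        refine ⟨?_, hu⟩
        rintro rfl
        exact he ⟨he', hn⟩
  -- part (ii)
  have part2 : ∀ U : Finset E, ∀ f : X → ℝ, (∀ e ∈ s, e ∉ U → A e f = f) →
      ∃ g, (∀ e ∈ s, A e g = g) ∧ (∀ h, (∀ e ∈ s, A e h = h) → ip g h = ip f h) ∧
        ip (M g) g - θ * nsq f ≤ ip (M f) f := by
    intro U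
    induction U using Finset.induction_on with
    | empty =>
      intro f h1
      refine ⟨f, fun e he => h1 e he (Finset.notMem_empty e), fun h _ => rfl, ?_⟩
      have := mul_nonneg hθ (nsq_nonneg f)
      linarith
    | insert e U _ ih =>
      intro f h1
      by_cases he : e ∈ s
      · obtain ⟨g, g1, g2, g3⟩ := ih (A e f) (by
          intro e' he' hu
          by_cases hee : e' = e
          · rw [hee, hidem e he]
          · exact h1fix e he e' he' f (h1 e' he' (by simp [hee, hu])))
        have g4 := part1 U {e} (Finset.singleton_subset_iff.2 he) (Finset.singleton_nonempty e)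
          (fun x => f x - A e f x) (by
            intro e' he'
            rw [Finset.mem_singleton.1 he']
            exact h2z e he f) (by
          intro e' he' hn hu
          rw [Finset.mem_singleton] at hn
          exact h2fix e he e' he' f (h1 e' he' (by simp [hn, hu])))
        refine ⟨g, g1, fun h hh => ?_, ?_⟩
        · rw [g2 h hh, hsym e he, hh e he]
        · have g5 := (abs_le.1 g4).1
          rw [hsplit e he f, hnsplit e he f, mul_add]
          linarith
      · refine ih f fun e' he' hu => h1 e' he' ?_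
        rw [Finset.mem_insert, not_or]
        refine ⟨?_, hu⟩
        rintro rfl
        exact he he'
  exact part2 s f fun e he hn => absurd he hn

end Pool.Agent.Lib.MP_c6e9f4_al.Bnd
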