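import Pool.Agent.Lib.MP_c6e9f4_al.Bnd.AV

/-!
ROW AN (110 lines). The averaging operator over a subgroup `N`: `AN N f x = (∑ n, if n ∈ N then lt n f x else 0) / Nat.card N`, `lt n f x = f (n⁻¹ * x)`.
(`Nat.card N` = number of `n : G` with `n ∈ N`, positive.)
* AN_add, AN_smul: clear. AN_lt: reindex `n' = m * n` (bijection of `G` preserving `N`). AN_fix: all terms equal `f`. AN_idem: from AN_lt and AN_fix.
* AN_symm: `ip (lt n f) g = ip f (lt n⁻¹ g)`, reindex `n ↦ n⁻¹`. AN_conj: `lt n (lt c f) = lt c (lt (c⁻¹ n c) f)`, reindex. AN_avg: induction on the list with AN_conj, AN_add.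
* AN_comm: expand both sides (double sums), `lt n (lt n' f) = lt n' (lt n f)`.
* AN_bound: `g = g - AN N g` is the average over `n ∈ N` of `g - lt n g`, Minkowski for finite sums (induction over a finset with sqrt_nsq_add, sqrt_nsq_smul), so
  `√nsq g ≤ (1/|N|) ∑_{n ∈ N} √nsq(lt n g - g) ≤ η`.
* fix_closure: `{u | lt u g = g}` is a subgroup.
-/

set_option autoImplicit false

namespace Pool.Agent.Lib.MP_c6e9f4_al.Bnd

open Pool.Agent.Lib.MP_c6e9f4_al.Exp (Bad DB LenFun)
open Pool.Agent.Lib.MP_c6e9f4_al.Nil (DU)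

variable {G : Type} [Group G] [Fintype G]

open Classical in
private theorem AN_card (N : Subgroup G) : ((Finset.univ.filter (fun n : G => n ∈ N)).card : ℝ) = (Nat.card N : ℝ) := by
  have h : Nat.card {n : G // n ∈ N} = (Finset.univ.filter (fun n : G => n ∈ N)).card :=
    Nat.subtype_card _ (fun x => by simp)
  exact_mod_cast h.symm

private theorem AN_pos (N : Subgroup G) : (0 : ℝ) < (Nat.card N : ℝ) := by
  have : 0 < Nat.card N := Nat.card_pos
  exact_mod_cast this

private theorem AN_smul' (N : Subgroup G) (c : ℝ) (f : G → ℝ) :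
    AN N (fun x => c * f x) = fun x => c * AN N f x := by
  funext x
  unfold AN
  rw [← mul_div_assoc, Finset.mul_sum]
  congr 1
  refine Finset.sum_congr rfl fun n _ => ?_
  split_ifs
  · rfl
  · ring

theorem AN_add (N : Subgroup G) (f g : G → ℝ) :
    AN N (fun x => f x + g x) = fun x => AN N f x + AN N g x := by
  funext x
  unfold AN
  rw [← add_div, ← Finset.sum_add_distrib]
  congr 1
  refine Finset.sum_congr rfl fun n _ => ?_
  split_ifs
  · rfl
  · ring

theorem AN_lt (N : Subgroup G) (m : G) (hm : m ∈ N) (f : G → ℝ) : lt m (AN N f) = AN N f := by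
  funext x
  change AN N f (m⁻¹ * x) = AN N f x
  unfold AN
  congr 1
  refine Fintype.sum_equiv (Equiv.mulLeft m) _ _ fun n => ?_
  rw [Equiv.coe_mulLeft]
  by_cases h : n ∈ N
  · rw [if_pos h, if_pos (N.mul_mem hm h)]
    unfold lt
    rw [mul_inv_rev, mul_assoc]
  · rw [if_neg h, if_neg (fun h' => h ((N.mul_mem_cancel_left hm).1 h'))]

theorem AN_fix (N : Subgroup G) (f : G → ℝ) (h : ∀ n ∈ N, lt n f = f) : AN N f = f := by
  classical
  funext x
  unfold AN
  have e : (∑ n : G, if n ∈ N then lt n f x else 0) = (Nat.card N : ℝ) * f x := by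
    rw [← AN_card N, ← nsmul_eq_mul, ← Finset.sum_const, Finset.sum_filter]
    refine Finset.sum_congr rfl fun n _ => ?_
    split_ifs with hn
    · rw [h n hn]
    · rfl
  rw [e, mul_div_assoc, mul_comm, div_mul_cancel₀]
  exact (AN_pos N).ne'

theorem AN_idem (N : Subgroup G) (f : G → ℝ) : AN N (AN N f) = AN N f :=
  AN_fix N _ fun n hn => AN_lt N n hn f

open Classical in
private theorem AN_ip (N : Subgroup G) (f g : G → ℝ) :
    ip (AN N f) g = (∑ n : G, if n ∈ N then ip (lt n f) g else 0) / (Nat.card N : ℝ) := by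
  unfold ip AN
  have e : ∀ x : G, (∑ n : G, if n ∈ N then lt n f x else 0) / (Nat.card N : ℝ) * g x =
      (∑ n : G, if n ∈ N then lt n f x * g x else 0) / (Nat.card N : ℝ) := by
    intro x
    rw [div_mul_eq_mul_div, Finset.sum_mul]
    congr 1
    refine Finset.sum_congr rfl fun n _ => ?_
    split_ifs
    · rfl
    · ring
  rw [Finset.sum_congr rfl fun x _ => e x, ← Finset.sum_div, Finset.sum_comm]
  congr 1
  refine Finset.sum_congr rfl fun n _ => ?_
  split_ifs
  · rfl
  · simp

private theorem AN_ipcomm (f g : G → ℝ) : ip f g = ip g f := by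
  unfold ip
  exact Finset.sum_congr rfl fun x _ => mul_comm _ _

theorem AN_symm (N : Subgroup G) (f g : G → ℝ) : ip (AN N f) g = ip f (AN N g) := by
  rw [AN_ipcomm f (AN N g), AN_ip, AN_ip]
  congr 1
  refine Fintype.sum_equiv (Equiv.inv G) _ _ fun n => ?_
  rw [Equiv.inv_apply]
  by_cases h : n ∈ N
  · rw [if_pos h, if_pos (N.inv_mem h), AN_ipcomm (lt n⁻¹ g) f]
    unfold ip
    refine Fintype.sum_equiv (Equiv.mulLeft n⁻¹) _ _ fun x => ?_
    rw [Equiv.coe_mulLeft]
    unfold lt
    rw [inv_inv, mul_inv_cancel_left]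
  · rw [if_neg h, if_neg (fun h' => h (N.inv_mem_iff.1 h'))]

theorem AN_conj (N : Subgroup G) (c : G) (hc : ∀ n, n ∈ N ↔ c * n * c⁻¹ ∈ N) (f : G → ℝ) :
    AN N (lt c f) = lt c (AN N f) := by
  funext x
  change AN N (lt c f) x = AN N f (c⁻¹ * x)
  unfold AN
  congr 1
  symm
  refine Fintype.sum_equiv (MulAut.conj c).toEquiv _ _ fun n => ?_
  have e : (MulAut.conj c).toEquiv n = c * n * c⁻¹ := rfl
  rw [e]
  by_cases h : n ∈ N
  · rw [if_pos h, if_pos ((hc n).1 h)]
    unfold lt
    congr 1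
    group
  · rw [if_neg h, if_neg (fun h' => h ((hc n).2 h'))]

theorem AN_avg (N : Subgroup G) (l : List G) (hl : ∀ c ∈ l, ∀ n, n ∈ N ↔ c * n * c⁻¹ ∈ N)
    (f : G → ℝ) : AN N (Avg l f) = Avg l (AN N f) := by
  induction l with
  | nil => rfl
  | cons v l ih =>
    have ih' := ih fun c hc => hl c (List.mem_cons_of_mem _ hc)
    have e1 : Avg (v :: l) f = fun x => (1 / 2 : ℝ) * (fun x => Avg l f x + lt v (Avg l f) x) x := by
      funext x
      change (Avg l f x + lt v (Avg l f) x) / 2 = (1 / 2 : ℝ) * (Avg l f x + lt v (Avg l f) x)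
      ring
    rw [e1, AN_smul', AN_add N (Avg l f) (lt v (Avg l f)), AN_conj N v (hl v List.mem_cons_self), ih']
    funext x
    change (1 / 2 : ℝ) * (Avg l (AN N f) x + lt v (Avg l (AN N f)) x) = (Avg l (AN N f) x + lt v (Avg l (AN N f)) x) / 2
    ring

theorem AN_comm (N N' : Subgroup G) (h : ∀ n ∈ N, ∀ n' ∈ N', n * n' = n' * n) (f : G → ℝ) :
    AN N (AN N' f) = AN N' (AN N f) := by
  classical
  have key : ∀ (A B : Subgroup G) (x : G), AN A (AN B f) x =
      (∑ a : G, ∑ b : G, if a ∈ A ∧ b ∈ B then f (b⁻¹ * (a⁻¹ * x)) else 0) / (Nat.card A * Nat.card B : ℝ) := by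
    intro A B x
    have e1 : AN A (AN B f) x = (∑ a : G, if a ∈ A then (∑ b : G, if b ∈ B then f (b⁻¹ * (a⁻¹ * x)) else 0) / (Nat.card B : ℝ) else 0) / (Nat.card A : ℝ) := by
      rfl
    rw [e1, mul_comm (Nat.card A : ℝ) (Nat.card B : ℝ), ← div_div]
    congr 1
    rw [Finset.sum_div]
    refine Finset.sum_congr rfl fun a _ => ?_
    by_cases ha : a ∈ A
    · rw [if_pos ha]
      congr 1
      refine Finset.sum_congr rfl fun b _ => ?_
      simp [ha]
    · rw [if_neg ha]
      simp [ha]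
  funext x
  rw [key, key, Finset.sum_comm, mul_comm (Nat.card N : ℝ)]
  congr 1
  refine Finset.sum_congr rfl fun b _ => Finset.sum_congr rfl fun a _ => ?_
  by_cases hab : a ∈ N ∧ b ∈ N'
  · rw [if_pos hab, if_pos ⟨hab.2, hab.1⟩]
    congr 1
    have e := h a hab.1 b hab.2
    rw [← mul_assoc, ← mul_assoc, ← mul_inv_rev, ← mul_inv_rev, e]
  · rw [if_neg hab, if_neg (fun h' => hab ⟨h'.2, h'.1⟩)]

private theorem AN_mink {X ι : Type} [Fintype X] (s : Finset ι) (F : ι → X → ℝ) :
    Real.sqrt (nsq (fun x => ∑ i ∈ s, F i x)) ≤ ∑ i ∈ s, Real.sqrt (nsq (F i)) := by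
  classical
  induction s using Finset.induction_on with
  | empty =>
    simp only [Finset.sum_empty]
    unfold nsq
    simp
  | insert a s ha ih =>
    have e : (fun x => ∑ i ∈ insert a s, F i x) = fun x => F a x + (fun x => ∑ i ∈ s, F i x) x := by
      funext x
      rw [Finset.sum_insert ha]
    rw [e, Finset.sum_insert ha]
    exact (sqrt_nsq_add _ _).trans (add_le_add le_rfl ih)

theorem AN_bound (N : Subgroup G) (g : G → ℝ) (h0 : AN N g = fun _ => 0) (η : ℝ)
    (hη : ∀ n ∈ N, Real.sqrt (nsq (fun x => lt n g x - g x)) ≤ η) : Real.sqrt (nsq g) ≤ η := by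
  classical
  have hp := AN_pos N
  have e : g = fun x => (-(1 / (Nat.card N : ℝ))) *
      (fun x => ∑ n ∈ Finset.univ.filter (fun n : G => n ∈ N), (fun x => lt n g x - g x) x) x := by
    funext x
    have h1 := congrFun h0 x
    unfold AN at h1
    rw [div_eq_zero_iff, or_iff_left hp.ne'] at h1
    simp only
    rw [Finset.sum_sub_distrib, Finset.sum_const, nsmul_eq_mul, AN_card, Finset.sum_filter]
    have h2 : (∑ a : G, if a ∈ N then lt a g x else 0) = 0 := by
      convert h1 using 1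
    rw [h2]
    field_simp
    ring
  rw [e, sqrt_nsq_smul]
  have h3 := AN_mink (Finset.univ.filter (fun n : G => n ∈ N)) (fun n x => lt n g x - g x)
  have h4 : ∑ n ∈ Finset.univ.filter (fun n : G => n ∈ N), Real.sqrt (nsq (fun x => lt n g x - g x)) ≤ (Nat.card N : ℝ) * η := by
    refine (Finset.sum_le_card_nsmul _ _ η fun n hn => hη n (Finset.mem_filter.1 hn).2).trans ?_
    rw [nsmul_eq_mul, AN_card]
  have h5 : |(-(1 / (Nat.card N : ℝ)))| = 1 / (Nat.card N : ℝ) := by
    rw [abs_neg, abs_of_pos (by positivity)]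
  rw [h5]
  calc 1 / (Nat.card N : ℝ) * Real.sqrt (nsq fun x => ∑ n ∈ Finset.univ.filter (fun n : G => n ∈ N), (lt n g x - g x))
      ≤ 1 / (Nat.card N : ℝ) * ((Nat.card N : ℝ) * η) := mul_le_mul_of_nonneg_left (h3.trans h4) (by positivity)
    _ = η := by field_simp

theorem fix_closure (S : Set (Subgroup G)) (g : G → ℝ) (h : ∀ N ∈ S, ∀ n ∈ N, lt n g = g) :
    ∀ u ∈ sSup S, lt u g = g := by
  let K : Subgroup G :=
    { carrier := {u | lt u g = g}
      mul_mem' := by
        intro a b ha hb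
        change lt (a * b) g = g
        rw [lt_mul, show lt b g = g from hb]
        exact ha
      one_mem' := lt_one g
      inv_mem' := by
        intro a ha
        change lt a⁻¹ g = g
        calc lt a⁻¹ g = lt a⁻¹ (lt a g) := by rw [show lt a g = g from ha]
          _ = lt (a⁻¹ * a) g := (lt_mul _ _ _).symm
          _ = g := by rw [inv_mul_cancel, lt_one] }
  have hle : sSup S ≤ K := sSup_le fun N hN n hn => h N hN n hn
  exact fun u hu => hle hu

end Pool.Agent.Lib.MP_c6e9f4_al.Bnd
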