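import Pool.Agent.Lib.MP_c6e9f4_al.Bnd.BDefs

/-!
ROW AV (100 lines). Elementary facts on translations, averages, norms. `lt g f x = f (g⁻¹ * x)`, `Avg (v :: l) f = (Avg l f + lt v (Avg l f)) / 2`
(definitional), `nsq f = ∑ f²`, `ip f g = ∑ f g`.
* lt_one, lt_mul: clear. nsq_lt, ip_lt: the bijection `x ↦ g⁻¹ x` (`Equiv.mulLeft`, `Fintype.sum_equiv` / `Equiv.sum_comp`).
* avg_append, avg_add, avg_smul, avg_nonneg, avg_zero: induction on the list (for all x).
* nsq_half: parallelogram identity: `((a + b)/2)² = (a² + b²)/2 - (b - a)²/4` pointwise and `nsq_lt`.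
* nsq_avg_le: induction with nsq_half.
* nsq_mid: `((a + b)/2)² ≤ (a² + b²)/2` pointwise.
* sqrt_nsq_add: Minkowski: e.g. `EuclideanSpace.norm_eq`, or via Cauchy-Schwarz `Finset.sum_mul_sq_le_sq_mul_sq`.
* abs_ip_le: Cauchy-Schwarz.
-/

set_option autoImplicit false

namespace Pool.Agent.Lib.MP_c6e9f4_al.Bnd

open Pool.Agent.Lib.MP_c6e9f4_al.Exp (Bad DB LenFun)
open Pool.Agent.Lib.MP_c6e9f4_al.Nil (DU)

section

variable {G : Type} [Group G]

theorem lt_one (f : G → ℝ) : lt 1 f = f := by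
  funext x
  simp [lt]

theorem lt_mul (g h : G) (f : G → ℝ) : lt (g * h) f = lt g (lt h f) := by
  funext x
  simp [lt, mul_assoc]

theorem avg_append (l l' : List G) (f : G → ℝ) : Avg (l ++ l') f = Avg l (Avg l' f) := by
  induction l with
  | nil => rfl
  | cons v l ih =>
    show (fun x => (Avg (l ++ l') f x + lt v (Avg (l ++ l') f) x) / 2) =
      fun x => (Avg l (Avg l' f) x + lt v (Avg l (Avg l' f)) x) / 2
    rw [ih]

theorem avg_add (l : List G) (f g : G → ℝ) :
    Avg l (fun x => f x + g x) = fun x => Avg l f x + Avg l g x := by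
  induction l with
  | nil => rfl
  | cons v l ih =>
    funext x
    show (Avg l (fun x => f x + g x) x + lt v (Avg l (fun x => f x + g x)) x) / 2 =
      (Avg l f x + lt v (Avg l f) x) / 2 + (Avg l g x + lt v (Avg l g) x) / 2
    rw [ih]
    show (Avg l f x + Avg l g x + (Avg l f (v⁻¹ * x) + Avg l g (v⁻¹ * x))) / 2 =
      (Avg l f x + Avg l f (v⁻¹ * x)) / 2 + (Avg l g x + Avg l g (v⁻¹ * x)) / 2
    ring

theorem avg_smul (l : List G) (c : ℝ) (f : G → ℝ) :
    Avg l (fun x => c * f x) = fun x => c * Avg l f x := by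
  induction l with
  | nil => rfl
  | cons v l ih =>
    funext x
    show (Avg l (fun x => c * f x) x + lt v (Avg l (fun x => c * f x)) x) / 2 =
      c * ((Avg l f x + lt v (Avg l f) x) / 2)
    rw [ih]
    show (c * Avg l f x + c * Avg l f (v⁻¹ * x)) / 2 = c * ((Avg l f x + Avg l f (v⁻¹ * x)) / 2)
    ring

theorem avg_zero (l : List G) : Avg l (fun _ => (0 : ℝ)) = fun _ => 0 := by
  induction l with
  | nil => rfl
  | cons v l ih =>
    funext x
    show (Avg l (fun _ => (0 : ℝ)) x + lt v (Avg l (fun _ => (0 : ℝ))) x) / 2 = 0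
    rw [ih]
    show ((0 : ℝ) + 0) / 2 = 0
    norm_num

theorem avg_nonneg (l : List G) (f : G → ℝ) (hf : ∀ x, 0 ≤ f x) : ∀ x, 0 ≤ Avg l f x := by
  induction l with
  | nil => exact hf
  | cons v l ih =>
    intro x
    show 0 ≤ (Avg l f x + Avg l f (v⁻¹ * x)) / 2
    have h1 := ih x
    have h2 := ih (v⁻¹ * x)
    linarith

variable [Fintype G]

theorem nsq_lt (g : G) (f : G → ℝ) : nsq (lt g f) = nsq f :=
  Equiv.sum_comp (Equiv.mulLeft g⁻¹) (fun x => f x ^ 2)

theorem nsq_half (v : G) (f : G → ℝ) :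
    nsq (fun x => (f x + lt v f x) / 2) = nsq f - nsq (fun x => lt v f x - f x) / 4 := by
  have h : nsq (fun x => (f x + lt v f x) / 2) = (nsq f + nsq (lt v f)) / 2 - nsq (fun x => lt v f x - f x) / 4 := by
    unfold nsq
    rw [← Finset.sum_add_distrib, Finset.sum_div, Finset.sum_div, ← Finset.sum_sub_distrib]
    exact Finset.sum_congr rfl fun x _ => by ring
  rw [h, nsq_lt]
  ring

theorem nsq_avg_le (l : List G) (f : G → ℝ) : nsq (Avg l f) ≤ nsq f := by
  induction l with
  | nil => exact le_rfl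
  | cons v l ih =>
    have h1 := nsq_half v (Avg l f)
    have h2 : 0 ≤ nsq (fun x => lt v (Avg l f) x - Avg l f x) := Finset.sum_nonneg fun x _ => sq_nonneg _
    show nsq (fun x => (Avg l f x + lt v (Avg l f) x) / 2) ≤ nsq f
    rw [h1]
    linarith

end

section

variable {X : Type} [Fintype X]

theorem nsq_nonneg (f : X → ℝ) : 0 ≤ nsq f := Finset.sum_nonneg fun x _ => sq_nonneg _

theorem nsq_eq_zero (f : X → ℝ) (h : nsq f = 0) : f = fun _ => 0 := by
  funext x
  have h1 := (Finset.sum_eq_zero_iff_of_nonneg fun x _ => sq_nonneg (f x)).1 h x (Finset.mem_univ x)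
  exact pow_eq_zero_iff (two_ne_zero) |>.1 h1

theorem nsq_mid (f g : X → ℝ) : nsq (fun x => (f x + g x) / 2) ≤ (nsq f + nsq g) / 2 := by
  unfold nsq
  rw [← Finset.sum_add_distrib, Finset.sum_div]
  refine Finset.sum_le_sum fun x _ => ?_
  nlinarith [sq_nonneg (f x - g x)]

private theorem AV_ip (f g : X → ℝ) : ip f g ≤ Real.sqrt (nsq f) * Real.sqrt (nsq g) :=
  Real.sum_mul_le_sqrt_mul_sqrt Finset.univ f g

theorem sqrt_nsq_add (f g : X → ℝ) :
    Real.sqrt (nsq (fun x => f x + g x)) ≤ Real.sqrt (nsq f) + Real.sqrt (nsq g) := by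
  have h1 : nsq (fun x => f x + g x) = nsq f + 2 * ip f g + nsq g := by
    unfold nsq ip
    rw [Finset.mul_sum, ← Finset.sum_add_distrib, ← Finset.sum_add_distrib]
    exact Finset.sum_congr rfl fun x _ => by ring
  have h2 := AV_ip f g
  have h3 := Real.sq_sqrt (nsq_nonneg f)
  have h4 := Real.sq_sqrt (nsq_nonneg g)
  rw [Real.sqrt_le_left (add_nonneg (Real.sqrt_nonneg _) (Real.sqrt_nonneg _)), h1]
  nlinarith

theorem sqrt_nsq_smul (c : ℝ) (f : X → ℝ) :
    Real.sqrt (nsq (fun x => c * f x)) = |c| * Real.sqrt (nsq f) := by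
  have h1 : nsq (fun x => c * f x) = c ^ 2 * nsq f := by
    unfold nsq
    rw [Finset.mul_sum]
    exact Finset.sum_congr rfl fun x _ => by ring
  rw [h1, Real.sqrt_mul (sq_nonneg c), Real.sqrt_sq_eq_abs]

theorem abs_ip_le (f g : X → ℝ) : |ip f g| ≤ Real.sqrt (nsq f) * Real.sqrt (nsq g) := by
  rw [abs_le]
  refine ⟨?_, AV_ip f g⟩
  have h1 := AV_ip (fun x => -f x) g
  have h2 : ip (fun x => -f x) g = -ip f g := by
    unfold ip
    rw [← Finset.sum_neg_distrib]
    exact Finset.sum_congr rfl fun x _ => by ring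
  have h3 : nsq (fun x => -f x) = nsq f := by
    unfold nsq
    exact Finset.sum_congr rfl fun x _ => by ring
  rw [h2, h3] at h1
  linarith

end

end Pool.Agent.Lib.MP_c6e9f4_al.Bnd
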