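import Pool.Agent.Lib.MP_c6e9f4_al.Exp.A1
import Pool.Agent.Lib.MP_c6e9f4_al.Nil.NDefs

/-!
# Definitions for permutation groups with few nonabelian simple sections
-/

set_option autoImplicit false

namespace Pool.Agent.Lib.MP_c6e9f4_al.Bnd

open Pool.Agent.Lib.MP_c6e9f4_al.Nil (DU)

/-- Every nonabelian simple section of `G` has its order in `S`. -/
def SS (S : Finset ℕ) (G : Type) [Group G] : Prop :=
  ∀ (K : Subgroup G) (L : Subgroup K) [L.Normal], IsSimpleGroup (K ⧸ L) →
    (∃ a b : K ⧸ L, a * b ≠ b * a) → Nat.card (K ⧸ L) ∈ S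

/-- `T` is a nonabelian simple group of order `b`. -/
structure Simp (b : ℕ) (T : Type) [Group T] : Prop where
  simple : IsSimpleGroup T
  nonab : ∃ x y : T, x * y ≠ y * x
  card : Nat.card T = b
  fin : Finite T

/-- The subgroup generated by the entries of a list. -/
def gen {G : Type} [Group G] (l : List G) : Subgroup G := Subgroup.closure {g | g ∈ l}

section family

variable {ι : Type} {T : ι → Type} [∀ i, Group (T i)]

/-- `H` projects onto the coordinate `i`. -/
def Full (H : Subgroup (∀ i, T i)) (i : ι) : Prop := ∀ t : T i, ∃ h ∈ H, h i = t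

/-- The coordinates `i` and `j` are full for `H`, but `H` does not project onto their product. -/
def Lnk (H : Subgroup (∀ i, T i)) (i j : ι) : Prop :=
  Full H i ∧ Full H j ∧ ¬ ∀ (s : T i) (t : T j), ∃ h ∈ H, h i = s ∧ h j = t

open Classical in
/-- The class of `i`. -/
noncomputable def cl [Fintype ι] (H : Subgroup (∀ i, T i)) (i : ι) : Finset ι :=
  Finset.univ.filter (fun j => Lnk H i j)

/-- `i` is light for the pair `V ≤ H`. -/
def Light [Fintype ι] (V H : Subgroup (∀ i, T i)) (i : ι) : Prop :=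
  Full H i ∧ (¬ Full V i ∨ 2 * (cl H i).card ≤ (cl V i).card)

open Classical in
/-- The potential of one coordinate. -/
noncomputable def phi1 [Fintype ι] (H : Subgroup (∀ i, T i)) (i : ι) : ℕ :=
  if Full H i then Nat.log 2 (cl H i).card else Nat.log 2 (Fintype.card ι) + 1

/-- The potential. -/
noncomputable def phi [Fintype ι] (H : Subgroup (∀ i, T i)) : ℕ := ∑ i, phi1 H i

open Classical in
/-- The number of light coordinates. -/
noncomputable def nl [Fintype ι] (V H : Subgroup (∀ i, T i)) : ℕ :=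
  (Finset.univ.filter (fun i => Light V H i)).card

open Classical in
/-- The number of blocks for which the coordinate `i` is light. -/
noncomputable def nlight [Fintype ι] {m : ℕ} (V : Fin m → Subgroup (∀ i, T i))
    (H : Subgroup (∀ i, T i)) (i : ι) : ℕ :=
  (Finset.univ.filter (fun k => Light (V k) H i)).card

/-- `V` is good for `J`: some coordinate of `J` is full for `V`, and its `V`-class meets `J` only in
its `H`-class. -/
def GoodFor [Fintype ι] (V H : Subgroup (∀ i, T i)) (J : Finset ι) : Prop :=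
  ∃ i ∈ J, Full V i ∧ ∀ j ∈ cl V i, j ∈ J → j ∈ cl H i

open Classical in
/-- The number of blocks which are not good for `J`. -/
noncomputable def nbad [Fintype ι] {m : ℕ} (V : Fin m → Subgroup (∀ i, T i))
    (H : Subgroup (∀ i, T i)) (J : Finset ι) : ℕ :=
  (Finset.univ.filter (fun k => ¬ GoodFor (V k) H J)).card

/-- Restriction to a set of coordinates. -/
def res (A : Set ι) : (∀ i, T i) →* (∀ i : A, T i) where
  toFun g := fun i => g i
  map_one' := rfl
  map_mul' _ _ := rfl

/-- The elements of `H` which are trivial outside the class of `i`. -/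
def Nn (H : Subgroup (∀ i, T i)) (i : ι) : Subgroup (∀ i, T i) where
  carrier := {u | u ∈ H ∧ ∀ j, ¬ Lnk H i j → u j = 1}
  mul_mem' := by
    rintro a b ⟨ha, ha'⟩ ⟨hb, hb'⟩
    exact ⟨H.mul_mem ha hb, fun j hj => by rw [Pi.mul_apply, ha' j hj, hb' j hj, one_mul]⟩
  one_mem' := ⟨H.one_mem, fun j _ => rfl⟩
  inv_mem' := by
    rintro a ⟨ha, ha'⟩
    exact ⟨H.inv_mem ha, fun j hj => by rw [Pi.inv_apply, ha' j hj, inv_one]⟩

end family

section functions

variable {G : Type} [Group G]

/-- Left translation of functions. -/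
def lt (g : G) (f : G → ℝ) : G → ℝ := fun x => f (g⁻¹ * x)

/-- The average of the translations by the products of all sublists. -/
noncomputable def Avg : List G → (G → ℝ) → (G → ℝ)
  | [], f => f
  | v :: l, f => fun x => (Avg l f x + lt v (Avg l f) x) / 2

/-- Squared norm. -/
def nsq {X : Type} [Fintype X] (f : X → ℝ) : ℝ := ∑ x, f x ^ 2

/-- Inner product. -/
def ip {X : Type} [Fintype X] (f g : X → ℝ) : ℝ := ∑ x, f x * g x

open Classical in
/-- Indicator function. -/
noncomputable def ind {X : Type} (A : Set X) : X → ℝ := fun x => if x ∈ A then 1 else 0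

open Classical in
/-- The average of a function over the translations by the elements of a finite subgroup. -/
noncomputable def AN [Fintype G] (N : Subgroup G) (f : G → ℝ) : G → ℝ :=
  fun x => (∑ n : G, if n ∈ N then lt n f x else 0) / (Nat.card N : ℝ)

end functions

/-- The constant of the word lemma. -/
def Lam (b r : ℕ) : ℕ := b ^ 2 * (4 * b) ^ (Nat.log 2 r + 1)

/-- The contraction constant. -/
noncomputable def kap (b r : ℕ) : ℝ := 1 / (32 * (Lam b r : ℝ) ^ 2 * ((r * b + 1 : ℕ) : ℝ) ^ 2)

/-- The branching number. -/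
def mm (b r d : ℕ) : ℕ := 128 * Lam b r ^ 2 * (r * b + 1) ^ 2 * (d + 2 + r * b)

/-- Bound for families of groups of order at most `β` with sections in `S`: exponent `a`. -/
def Pw (S : Finset ℕ) (β : ℕ) (a : ℝ) : Prop :=
  ∃ (C : ℝ) (k : ℕ), 0 ≤ C ∧ ∀ (ι : Type) [Fintype ι] (G : ι → Type) [∀ i, Group (G i)],
    1 ≤ Fintype.card ι → (∀ i, Finite (G i) ∧ Nat.card (G i) ≤ β ∧ SS S (G i)) →
    DU (∀ i, G i) (Real.exp (C * (Fintype.card ι : ℝ) ^ a *
      Real.log ((Fintype.card ι : ℝ) + 2) ^ k))

/-- The same for families of nonabelian simple groups. -/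
def QQ (S : Finset ℕ) (a : ℝ) : Prop :=
  ∃ (C : ℝ) (k : ℕ), 0 ≤ C ∧ ∀ (ι : Type) [Fintype ι] (G : ι → Type) [∀ i, Group (G i)],
    1 ≤ Fintype.card ι → (∀ i, (∃ b ∈ S, Simp b (G i)) ∧ SS S (G i)) →
    DU (∀ i, G i) (Real.exp (C * (Fintype.card ι : ℝ) ^ a *
      Real.log ((Fintype.card ι : ℝ) + 2) ^ k))

/-- The intersection of all normal subgroups with abelian quotient or with index at most `B`. -/
def KK (B : ℕ) (G : Type) [Group G] : Subgroup G :=
  sInf {N : Subgroup G | N.Normal ∧ ((∀ a b : G, a * b * a⁻¹ * b⁻¹ ∈ N) ∨ (N.index ≠ 0 ∧ N.index ≤ B))}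

/-- The series `G, KK G, KK (KK G), ..` is trivial after `m` steps. -/
def Lay (B : ℕ) : ℕ → (∀ (G : Type) [Group G], Prop)
  | 0 => fun G _ => ∀ g : G, g = 1
  | m + 1 => fun G _ => Lay B m (KK B G)

end Pool.Agent.Lib.MP_c6e9f4_al.Bnd
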