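import Pool.Agent.Lib.MP_c6e9f4_al.Bnd.PT

/-!
ROW CF (150 lines). At most a quarter of the blocks fail for `J`. (`J` nonempty, all its coordinates full for `H`, closed under the classes of `H`.)
Proof. Write `[i] = cl H i` (a partition of `J` into classes; `GO`). Let the block `k` be not good: for every `i ∈ J` with `Full (V k) i` there is `j ∈ J`, `j ∈ cl (V k) i`, `j ∉ [i]`.
Let `i ∈ J` be not light (then `Full (V k) i` and `|cl (V k) i| < 2 |[i]|`) and take this `j`. Then `[i]` and `[j]` are disjoint and both contained in `cl (V k) i = cl (V k) j`, so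
`|[i]| + |[j]| ≤ |cl (V k) i| < 2 |[i]|`, so `|[j]| < |[i]|` and `2 |[j]| < |[i]| + |[j]| ≤ |cl (V k) j|`: `j` is light. If `i, i'` are not light with the same class `[j]` then `[i], [i'], [j]` lie in the same class of
`V k`; if `[i] ≠ [i']` then `|[i]| + |[i']| ≤ |cl (V k) i| < 2 min(|[i]|, |[i']|)`, impossible. So `[i] ↦ [j]` is an injection of the not light classes of `J` to the light classes of `J`
(lightness is a property of the class, light_congr). With `Q` the finset of the classes `cl H i`, `i ∈ J` (`J.image (cl H)`, a `Finset (Finset ι)`), `s := Q.card ≥ 1`: for a bad block `k`, `s ≤ 2 * #{light classes}`.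
Sum over the bad blocks and exchange: `s * nbad ≤ 2 ∑_k #{light classes for k} = 2 ∑_{classes} nlight ≤ 2 s * (m / 8)` in the form `8 * s * nbad ≤ 2 * s * m`, so `4 * nbad ≤ m`.
(Convenient: a choice function from classes to representatives.)
-/

set_option autoImplicit false

namespace Pool.Agent.Lib.MP_c6e9f4_al.Bnd

open Pool.Agent.Lib.MP_c6e9f4_al.Exp (Bad DB LenFun)
open Pool.Agent.Lib.MP_c6e9f4_al.Nil (DU)

section

variable {ι : Type} [Fintype ι] {T : ι → Type} [∀ i, Group (T i)] {b : ℕ}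

/-- the classes of unlinked coordinates are disjoint, so their sizes add up in a larger class -/
private theorem cfAdd (hT : ∀ i, Simp b (T i)) {V H : Subgroup (∀ i, T i)} (h : V ≤ H) {i j : ι}
    (hi : Full V i) (hj : Lnk V i j) (hne : ¬ Lnk H i j) :
    (cl H i).card + (cl H j).card ≤ (cl V i).card := by
  classical
  have hd : Disjoint (cl H i) (cl H j) := by
    rw [Finset.disjoint_left]
    intro x hx hx'
    rw [mem_cl] at hx hx'
    exact hne (lnk_trans hT hx (lnk_symm hx'))
  rw [← Finset.card_union_of_disjoint hd]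
  refine Finset.card_le_card (Finset.union_subset (cl_subset hT h hi) ?_)
  rw [cl_congr hT hj]
  exact cl_subset hT h hj.2.1

open Classical in
private theorem cfKey (hT : ∀ i, Simp b (T i)) {V H : Subgroup (∀ i, T i)} (h : V ≤ H)
    (J R : Finset ι) (hRJ : R ⊆ J) (hinj : Set.InjOn (cl H) (R : Set ι))
    (himg : ∀ j ∈ J, ∃ j' ∈ R, cl H j' = cl H j) (hJf : ∀ i ∈ J, Full H i)
    (hbad : ¬ GoodFor V H J) :
    R.card ≤ 2 * (R.filter (fun i => Light V H i)).card := by
  have key : ∀ i ∈ R.filter (fun i => ¬ Light V H i), Full V i ∧ (cl V i).card < 2 * (cl H i).card ∧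
      ∃ j ∈ R.filter (fun i => Light V H i), Lnk V i j ∧ ¬ Lnk H i j := by
    intro i hi
    rw [Finset.mem_filter] at hi
    have hiJ := hRJ hi.1
    have hH := hJf i hiJ
    have hV : Full V i := by
      by_contra hcon
      exact hi.2 ⟨hH, Or.inl hcon⟩
    have hlt : (cl V i).card < 2 * (cl H i).card := by
      by_contra hcon
      exact hi.2 ⟨hH, Or.inr (not_lt.1 hcon)⟩
    refine ⟨hV, hlt, ?_⟩
    have h1 : ¬ ∀ j ∈ cl V i, j ∈ J → j ∈ cl H i := fun hall => hbad ⟨i, hiJ, hV, hall⟩
    push Not at h1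
    obtain ⟨j, hj1, hj2, hj3⟩ := h1
    rw [mem_cl] at hj1 hj3
    obtain ⟨j', hj'R, hj'⟩ := himg j hj2
    have hjj' : Lnk H j j' := by
      have h2 : j ∈ cl H j' := by
        rw [hj']
        exact self_mem_cl hT (hJf j hj2)
      exact lnk_symm (mem_cl.1 h2)
    have hVj' : Lnk V i j' := lnk_trans hT hj1 (lnk_mono hT h hj1.2.1 hjj')
    have hnj' : ¬ Lnk H i j' := fun h3 => hj3 (lnk_trans hT h3 (lnk_symm hjj'))
    refine ⟨j', ?_, hVj', hnj'⟩
    rw [Finset.mem_filter]
    refine ⟨hj'R, hJf j' (hRJ hj'R), Or.inr ?_⟩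
    have h4 := cfAdd hT h hV hVj' hnj'
    rw [← cl_congr hT hVj']
    omega
  choose! f hf using fun i hi => (key i hi).2.2
  have hle : (R.filter (fun i => ¬ Light V H i)).card ≤ (R.filter (fun i => Light V H i)).card := by
    refine Finset.card_le_card_of_injOn f (fun i hi => (hf i hi).1) ?_
    intro i hi i' hi' he
    rw [Finset.mem_coe] at hi hi'
    by_contra hne
    have e1 := (hf i hi).2.1
    have e2 := (hf i' hi').2.1
    rw [← he] at e2
    have e3 : Lnk V i i' := lnk_trans hT e1 (lnk_symm e2)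
    have e4 : ¬ Lnk H i i' := by
      intro h5
      apply hne
      have hiR := (Finset.mem_filter.1 hi).1
      have hiR' := (Finset.mem_filter.1 hi').1
      exact hinj (Finset.mem_coe.2 hiR) (Finset.mem_coe.2 hiR') (cl_congr hT h5)
    have h6 := cfAdd hT h (key i hi).1 e3 e4
    have h7 := (key i hi).2.1
    have h8 := (key i' hi').2.1
    rw [← cl_congr hT e3] at h8
    omega
  have hsum := Finset.card_filter_add_card_filter_not (s := R) (fun i => Light V H i)
  omega

end

theorem count_fail {ι : Type} [Fintype ι] {T : ι → Type} [∀ i, Group (T i)] {b : ℕ}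
    (hT : ∀ i, Simp b (T i)) {m : ℕ} (V : Fin m → Subgroup (∀ i, T i)) (H : Subgroup (∀ i, T i))
    (hV : ∀ k, V k ≤ H) (hlight : ∀ i, Full H i → 8 * nlight V H i ≤ m) (J : Finset ι)
    (hJ : J.Nonempty) (hJf : ∀ i ∈ J, Full H i) (hJc : ∀ i ∈ J, cl H i ⊆ J) :
    4 * nbad V H J ≤ m := by
  classical
  obtain ⟨R, hRJ, hinj, himg⟩ : ∃ R ⊆ J, Set.InjOn (cl H) (R : Set ι) ∧
      ∀ j ∈ J, ∃ j' ∈ R, cl H j' = cl H j := by
    have : Nonempty ι := ⟨hJ.choose⟩
    choose! g hg using fun q (hq : q ∈ J.image (cl H)) => Finset.mem_image.1 hq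
    refine ⟨(J.image (cl H)).image g, ?_, ?_, ?_⟩
    · intro x hx
      obtain ⟨q, hq, rfl⟩ := Finset.mem_image.1 hx
      exact (hg q hq).1
    · intro x hx y hy he
      obtain ⟨q, hq, rfl⟩ := Finset.mem_image.1 (Finset.mem_coe.1 hx)
      obtain ⟨q', hq', rfl⟩ := Finset.mem_image.1 (Finset.mem_coe.1 hy)
      rw [(hg q hq).2, (hg q' hq').2] at he
      rw [he]
    · intro j hj
      have hq : cl H j ∈ J.image (cl H) := Finset.mem_image_of_mem _ hj
      exact ⟨g (cl H j), Finset.mem_image_of_mem _ hq, (hg _ hq).2⟩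
  have hRpos : 0 < R.card := by
    obtain ⟨j, hj⟩ := hJ
    obtain ⟨j', hj', _⟩ := himg j hj
    exact Finset.card_pos.2 ⟨j', hj'⟩
  have h1 : R.card * nbad V H J ≤ ∑ k : Fin m, 2 * (R.filter (fun i => Light (V k) H i)).card := by
    unfold nbad
    calc R.card * (Finset.univ.filter (fun k => ¬ GoodFor (V k) H J)).card
        = ∑ _k ∈ Finset.univ.filter (fun k => ¬ GoodFor (V k) H J), R.card := by
          rw [Finset.sum_const, smul_eq_mul, mul_comm]
      _ ≤ ∑ k ∈ Finset.univ.filter (fun k => ¬ GoodFor (V k) H J),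
            2 * (R.filter (fun i => Light (V k) H i)).card := by
          refine Finset.sum_le_sum fun k hk => ?_
          exact cfKey hT (hV k) J R hRJ hinj himg hJf (Finset.mem_filter.1 hk).2
      _ ≤ ∑ k : Fin m, 2 * (R.filter (fun i => Light (V k) H i)).card :=
          Finset.sum_le_sum_of_subset (Finset.filter_subset _ _)
  have h2 : ∑ k : Fin m, (R.filter (fun i => Light (V k) H i)).card = ∑ i ∈ R, nlight V H i := by
    unfold nlight
    simp only [Finset.card_filter]
    exact Finset.sum_comm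
  have h3 : ∑ i ∈ R, 8 * nlight V H i ≤ R.card * m := by
    calc ∑ i ∈ R, 8 * nlight V H i ≤ ∑ _i ∈ R, m :=
          Finset.sum_le_sum fun i hi => hlight i (hJf i (hRJ hi))
      _ = R.card * m := by rw [Finset.sum_const, smul_eq_mul]
  rw [← Finset.mul_sum, h2] at h1
  rw [← Finset.mul_sum] at h3
  have h4 : R.card * (4 * nbad V H J) ≤ R.card * m := by
    have : R.card * (4 * nbad V H J) = 4 * (R.card * nbad V H J) := by ring
    rw [this]
    calc 4 * (R.card * nbad V H J) ≤ 4 * (2 * ∑ i ∈ R, nlight V H i) := Nat.mul_le_mul_left 4 h1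
      _ = 8 * ∑ i ∈ R, nlight V H i := by ring
      _ ≤ R.card * m := h3
  exact Nat.le_of_mul_le_mul_left h4 hRpos

end Pool.Agent.Lib.MP_c6e9f4_al.Bnd
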