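import Pool.Agent.Lib.MP_c6e9f4_al.Bnd.AV

/-!
ROW CT (90 lines). Almost no contraction means almost invariance.
* contraction: for a suffix `w` of `z` put `h_w := Avg w g`. For `z = x :: w`: `nsq (Avg (x :: w) g) = nsq h_w - nsq (lt x h_w - h_w)/4` (nsq_half). Prove by induction on `z`
  (with `κ' : ℝ` arbitrary nonneg and hypothesis `nsq g - nsq (Avg z g) ≤ e ^ 2`, `0 ≤ e`, `e = √κ √nsq g`): (i) `√nsq(h_z - g) ≤ z.length * e`, (ii) for all `x ∈ z`:
  `√nsq(lt x g - g) ≤ 2 * z.length * e`. Step `z = x :: w`: as `nsq h_z ≤ nsq h_w` the hypothesis holds for `w`; `nsq (lt x h_w - h_w) ≤ 4 e²` so `√.. ≤ 2 e`;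
  `h_z - h_w = (lt x h_w - h_w)/2` has norm `≤ e`, (i) follows; (ii) for `x`: `lt x g - g = (lt x h_w - h_w) - lt x (h_w - g) + (h_w - g)`, norm `≤ 2 e + 2 w.length e`.
* lenFun_vec: `lt (g h) v - v = lt g (lt h v - v) + (lt g v - v)`, `lt g⁻¹ v - v = - lt g⁻¹ (lt g v - v)`, nsq_lt, sqrt_nsq_add.
-/

set_option autoImplicit false

namespace Pool.Agent.Lib.MP_c6e9f4_al.Bnd

open Pool.Agent.Lib.MP_c6e9f4_al.Exp (Bad DB LenFun)
open Pool.Agent.Lib.MP_c6e9f4_al.Nil (DU)

private theorem ct_zero {X : Type} [Fintype X] : nsq (fun _ : X => (0 : ℝ)) = 0 := by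
  unfold nsq
  exact Finset.sum_eq_zero fun x _ => by norm_num

private theorem ct_neg {X : Type} [Fintype X] (f : X → ℝ) : nsq (fun x => - f x) = nsq f := by
  unfold nsq
  exact Finset.sum_congr rfl fun x _ => by ring

private theorem ct_aux {G : Type} [Group G] [Fintype G] (g : G → ℝ) (e : ℝ) (he : 0 ≤ e) : ∀ z : List G,
    nsq g - nsq (Avg z g) ≤ e ^ 2 →
      Real.sqrt (nsq (fun y => Avg z g y - g y)) ≤ z.length * e ∧
        ∀ x ∈ z, Real.sqrt (nsq (fun y => lt x g y - g y)) ≤ 2 * z.length * e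
  | [], _ => by
    refine ⟨?_, fun x hx => absurd hx List.not_mem_nil⟩
    have h1 : (fun y => Avg [] g y - g y) = fun _ => (0 : ℝ) := by
      funext y
      exact sub_self (g y)
    rw [h1, ct_zero, Real.sqrt_zero]
    simp
  | v :: l, h => by
    have h1 : nsq (Avg (v :: l) g) = nsq (Avg l g) - nsq (fun x => lt v (Avg l g) x - Avg l g x) / 4 := nsq_half v (Avg l g)
    have h2 := nsq_avg_le l g
    have h3 := nsq_nonneg (fun x => lt v (Avg l g) x - Avg l g x)
    obtain ⟨h4, h5⟩ := ct_aux g e he l (by linarith)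
    have h6 : Real.sqrt (nsq (fun x => lt v (Avg l g) x - Avg l g x)) ≤ 2 * e := by
      refine Real.sqrt_le_iff.2 ⟨by linarith, ?_⟩
      have : (2 * e) ^ 2 = 4 * e ^ 2 := by ring
      rw [this]
      linarith
    have h7 : ((v :: l).length : ℝ) = l.length + 1 := by
      rw [List.length_cons, Nat.cast_add, Nat.cast_one]
    rw [h7]
    refine ⟨?_, fun x hx => ?_⟩
    · have h8 : (fun y => Avg (v :: l) g y - g y) =
          fun y => (Avg l g y - g y) + (1 / 2) * (lt v (Avg l g) y - Avg l g y) := by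
        funext y
        show (Avg l g y + lt v (Avg l g) y) / 2 - g y = _
        ring
      rw [h8]
      refine (sqrt_nsq_add _ _).trans ?_
      rw [sqrt_nsq_smul, abs_of_nonneg (by norm_num : (0 : ℝ) ≤ 1 / 2)]
      linarith
    · rcases List.mem_cons.1 hx with rfl | hx
      · have h8 : (fun y => lt x g y - g y) =
            fun y => (lt x (Avg l g) y - Avg l g y) + ((- lt x (fun t => Avg l g t - g t) y) + (Avg l g y - g y)) := by
          funext y
          unfold lt
          ring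
        rw [h8]
        refine (sqrt_nsq_add _ _).trans ?_
        have h9 := sqrt_nsq_add (fun y => - lt x (fun t => Avg l g t - g t) y) (fun y => Avg l g y - g y)
        rw [ct_neg, nsq_lt] at h9
        linarith
      · have h8 := h5 x hx
        nlinarith

theorem contraction {G : Type} [Group G] [Fintype G] (z : List G) (g : G → ℝ) (κ : ℝ) (hκ : 0 ≤ κ)
    (h : (1 - κ) * nsq g ≤ nsq (Avg z g)) : ∀ x ∈ z,
      Real.sqrt (nsq (fun y => lt x g y - g y)) ≤ 2 * z.length * Real.sqrt κ * Real.sqrt (nsq g) := by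
  intro x hx
  have h1 : (Real.sqrt κ * Real.sqrt (nsq g)) ^ 2 = κ * nsq g := by
    rw [mul_pow, Real.sq_sqrt hκ, Real.sq_sqrt (nsq_nonneg g)]
  have h2 := (ct_aux g (Real.sqrt κ * Real.sqrt (nsq g)) (by positivity) z (by rw [h1]; linarith)).2 x hx
  rw [← mul_assoc] at h2
  exact h2

theorem lenFun_vec {G : Type} [Group G] [Fintype G] (g : G → ℝ) :
    LenFun (fun h : G => Real.sqrt (nsq (fun y => lt h g y - g y))) where
  nonneg _ := Real.sqrt_nonneg _
  one := by
    have h1 : (fun y => lt 1 g y - g y) = fun _ => (0 : ℝ) := by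
      funext y
      rw [lt_one, sub_self]
    rw [h1, ct_zero, Real.sqrt_zero]
  mul_le a b := by
    have h1 : (fun y => lt (a * b) g y - g y) = fun y => lt a (fun t => lt b g t - g t) y + (lt a g y - g y) := by
      funext y
      rw [lt_mul]
      unfold lt
      ring
    rw [h1]
    refine (sqrt_nsq_add _ _).trans ?_
    rw [nsq_lt, add_comm]
  inv a := by
    have h1 : (fun y => lt a⁻¹ g y - g y) = fun y => - lt a⁻¹ (fun t => lt a g t - g t) y := by
      funext y
      have h2 : lt a⁻¹ (lt a g) = g := by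
        rw [← lt_mul, inv_mul_cancel, lt_one]
      have h3 : lt a⁻¹ (fun t => lt a g t - g t) y = lt a⁻¹ (lt a g) y - lt a⁻¹ g y := rfl
      rw [h3, h2]
      ring
    rw [h1, ct_neg, nsq_lt]

end Pool.Agent.Lib.MP_c6e9f4_al.Bnd
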