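import Pool.Agent.Lib.MP_c6e9f4_al.Bnd.BDefs

/-!
ROW NU (110 lines). Numerics. Write `E := r ^ ((1 + a)/2) ≥ 1`, `ℓ := log (r + 2) ≥ 1` (`r + 2 ≥ 3 > e`). Constants depend on `a, b, C, k`.
`d ≤ 2 exp (C r^a ℓ^k)` (`⌈x⌉₊ ≤ x + 1 ≤ 2 x`, `x ≥ 1`). `Nat.log 2 r + 1 ≤ c ℓ` (`2 ^ Nat.log 2 r ≤ r`). `log Lam b r = 2 log b + (Nat.log 2 r + 1) log (4 b) ≤ c ℓ`; `log (r b + 1) ≤ c ℓ`;
`log m = log 128 + 2 log Λ + 2 log (r b + 1) + log (d + 2 + r b) ≤ c r^a ℓ^(k+1)` (`d + 2 + r b ≤ d * (3 + r b)`, `d ≥ 1`). `D ≤ 2 r^((1-a)/2)`, so `D log m ≤ c r^((1-a)/2 + a) ℓ^(k+1) = c E ℓ^(k+1)`.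
`z0 := 8 r (Nat.log 2 r + 1) / D ≤ 8 r (Nat.log 2 r + 1) / r^((1-a)/2) = 8 (Nat.log 2 r + 1) E` (nat division is at most the real quotient, `D ≥ r^((1-a)/2)`), so `z0 log (r b + 1) ≤ c E ℓ^2`. `k' := k + 2`.
-/

set_option autoImplicit false

namespace Pool.Agent.Lib.MP_c6e9f4_al.Bnd

open Pool.Agent.Lib.MP_c6e9f4_al.Exp (Bad DB LenFun)
open Pool.Agent.Lib.MP_c6e9f4_al.Nil (DU)

private theorem nu_ell (r : ℕ) : 1 ≤ Real.log ((r : ℝ) + 2) ∨ r = 0 := by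
  rcases Nat.eq_zero_or_pos r with h | h
  · exact Or.inr h
  · left
    have h1 : (1 : ℝ) ≤ (r : ℝ) := by exact_mod_cast h
    rw [Real.le_log_iff_exp_le (by linarith)]
    have := Real.exp_one_lt_d9
    linarith

private theorem nu_log2 (r : ℕ) (hr : 1 ≤ r) :
    ((Nat.log 2 r + 1 : ℕ) : ℝ) ≤ 3 * Real.log ((r : ℝ) + 2) := by
  have hl : 1 ≤ Real.log ((r : ℝ) + 2) := (nu_ell r).resolve_right (by omega)
  have h1 : (1 : ℝ) ≤ (r : ℝ) := by exact_mod_cast hr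
  have h2 : ((2 : ℝ)) ^ (Nat.log 2 r) ≤ (r : ℝ) := by
    exact_mod_cast Nat.pow_log_le_self 2 (by omega : r ≠ 0)
  have h3 : (Nat.log 2 r : ℝ) * Real.log 2 ≤ Real.log (r : ℝ) := by
    rw [← Real.log_pow]
    exact Real.log_le_log (by positivity) h2
  have h4 : Real.log (r : ℝ) ≤ Real.log ((r : ℝ) + 2) := Real.log_le_log (by linarith) (by linarith)
  have h5 := Real.log_two_gt_d9
  have h6 : (0 : ℝ) ≤ (Nat.log 2 r : ℝ) := Nat.cast_nonneg _
  have h7 : (Nat.log 2 r : ℝ) * (1 / 2) ≤ (Nat.log 2 r : ℝ) * Real.log 2 :=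
    mul_le_mul_of_nonneg_left (by linarith) h6
  push_cast
  linarith

private theorem nu_Lam (b r : ℕ) (hb : 1 ≤ b) (hr : 1 ≤ r) :
    Real.log ((Lam b r : ℕ) : ℝ) ≤
      (2 * Real.log b + 3 * Real.log (4 * b)) * Real.log ((r : ℝ) + 2) := by
  have hl : 1 ≤ Real.log ((r : ℝ) + 2) := (nu_ell r).resolve_right (by omega)
  have hb1 : (1 : ℝ) ≤ (b : ℝ) := by exact_mod_cast hb
  have e : Real.log ((Lam b r : ℕ) : ℝ) =
      2 * Real.log b + ((Nat.log 2 r + 1 : ℕ) : ℝ) * Real.log (4 * b) := by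
    unfold Lam
    push_cast
    rw [Real.log_mul (by positivity) (by positivity), Real.log_pow, Real.log_pow]
    push_cast
    ring
  rw [e]
  have h1 : 0 ≤ Real.log (b : ℝ) := Real.log_nonneg hb1
  have h2 : 0 ≤ Real.log (4 * (b : ℝ)) := Real.log_nonneg (by linarith)
  have h3 := mul_le_mul_of_nonneg_right (nu_log2 r hr) h2
  nlinarith [mul_le_mul_of_nonneg_left hl h1]

private theorem nu_rb (b r : ℕ) (hb : 1 ≤ b) (hr : 1 ≤ r) :
    Real.log ((r * b + 1 : ℕ) : ℝ) ≤ (Real.log b + 1) * Real.log ((r : ℝ) + 2) := by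
  have hl : 1 ≤ Real.log ((r : ℝ) + 2) := (nu_ell r).resolve_right (by omega)
  have hb1 : (1 : ℝ) ≤ (b : ℝ) := by exact_mod_cast hb
  have hr1 : (1 : ℝ) ≤ (r : ℝ) := by exact_mod_cast hr
  have h1 : 0 ≤ Real.log (b : ℝ) := Real.log_nonneg hb1
  have h2 : Real.log ((r * b + 1 : ℕ) : ℝ) ≤ Real.log (b * ((r : ℝ) + 2)) := by
    apply Real.log_le_log (by positivity)
    push_cast
    nlinarith
  rw [Real.log_mul (by positivity) (by positivity)] at h2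
  nlinarith [mul_le_mul_of_nonneg_left hl h1]

private theorem nu_d (b r d : ℕ) (hb : 1 ≤ b) (hr : 1 ≤ r) (x : ℝ) (hx : 0 ≤ x)
    (hd : d = ⌈Real.exp x⌉₊) :
    Real.log ((d + 2 + r * b : ℕ) : ℝ) ≤ x + (3 + Real.log b) * Real.log ((r : ℝ) + 2) := by
  have hl : 1 ≤ Real.log ((r : ℝ) + 2) := (nu_ell r).resolve_right (by omega)
  have hb1 : (1 : ℝ) ≤ (b : ℝ) := by exact_mod_cast hb
  have hr1 : (1 : ℝ) ≤ (r : ℝ) := by exact_mod_cast hr
  have h1 : 0 ≤ Real.log (b : ℝ) := Real.log_nonneg hb1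
  have he : 1 ≤ Real.exp x := Real.one_le_exp hx
  have hd1 : (d : ℝ) ≤ 2 * Real.exp x := by
    rw [hd]
    have := (Nat.ceil_lt_add_one (by positivity : (0 : ℝ) ≤ Real.exp x)).le
    linarith
  have hd2 : 1 ≤ (d : ℝ) := by
    rw [hd]
    exact he.trans (Nat.le_ceil _)
  have hrb : (1 : ℝ) ≤ (r : ℝ) * b := by nlinarith
  have h2 : Real.log ((d + 2 + r * b : ℕ) : ℝ) ≤
      Real.log ((2 * Real.exp x) * (2 * (b * ((r : ℝ) + 2)))) := by
    apply Real.log_le_log (by positivity)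
    push_cast
    have a1 : (d : ℝ) + 2 + r * b ≤ d * (3 + r * b) := by nlinarith
    have a2 : (3 : ℝ) + r * b ≤ 2 * (b * ((r : ℝ) + 2)) := by nlinarith
    calc (d : ℝ) + 2 + r * b ≤ d * (3 + r * b) := a1
      _ ≤ d * (2 * (b * ((r : ℝ) + 2))) := mul_le_mul_of_nonneg_left a2 (by linarith)
      _ ≤ (2 * Real.exp x) * (2 * (b * ((r : ℝ) + 2))) :=
          mul_le_mul_of_nonneg_right hd1 (by positivity)
  rw [Real.log_mul (by positivity) (by positivity), Real.log_mul (by norm_num) (by positivity),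
    Real.log_mul (by norm_num) (by positivity), Real.log_mul (by positivity) (by positivity),
    Real.log_exp] at h2
  have h5 := Real.log_two_lt_d9
  nlinarith [mul_le_mul_of_nonneg_left hl h1]

private theorem nu_m (b r d : ℕ) (hb : 1 ≤ b) (hr : 1 ≤ r) (x : ℝ) (hx : 0 ≤ x)
    (hd : d = ⌈Real.exp x⌉₊) :
    Real.log ((mm b r d : ℕ) : ℝ) ≤ x + (12 + 2 * (2 * Real.log b + 3 * Real.log (4 * b)) +
      3 * Real.log b) * Real.log ((r : ℝ) + 2) := by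
  have hl : 1 ≤ Real.log ((r : ℝ) + 2) := (nu_ell r).resolve_right (by omega)
  have hL : 0 < Lam b r := by unfold Lam; positivity
  have hLr : (0 : ℝ) < ((Lam b r : ℕ) : ℝ) := by exact_mod_cast hL
  have hq : (0 : ℝ) < ((r * b + 1 : ℕ) : ℝ) := by positivity
  have hp : (0 : ℝ) < ((d + 2 + r * b : ℕ) : ℝ) := by positivity
  have e : ((mm b r d : ℕ) : ℝ) = 128 * ((Lam b r : ℕ) : ℝ) ^ 2 * ((r * b + 1 : ℕ) : ℝ) ^ 2 *
      ((d + 2 + r * b : ℕ) : ℝ) := by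
    unfold mm
    push_cast
    ring
  rw [e, Real.log_mul (by positivity) (by positivity), Real.log_mul (by positivity) (by positivity),
    Real.log_mul (by norm_num) (by positivity), Real.log_pow, Real.log_pow]
  have h1 := nu_Lam b r hb hr
  have h2 := nu_rb b r hb hr
  have h3 := nu_d b r d hb hr x hx hd
  have h4 : Real.log (128 : ℝ) ≤ 7 * Real.log ((r : ℝ) + 2) := by
    have : (128 : ℝ) = 2 ^ 7 := by norm_num
    rw [this, Real.log_pow]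
    have h5 := Real.log_two_lt_d9
    push_cast
    nlinarith
  push_cast at *
  linarith

theorem numerics (b : ℕ) (hb : 1 ≤ b) (a C : ℝ) (ha0 : 0 ≤ a) (ha1 : a < 1) (hC : 0 ≤ C) (k : ℕ) :
    ∃ (C' : ℝ) (k' : ℕ), 0 ≤ C' ∧ ∀ r d D : ℕ, 1 ≤ r →
      d = ⌈Real.exp (C * (r : ℝ) ^ a * Real.log ((r : ℝ) + 2) ^ k)⌉₊ →
      D = ⌈(r : ℝ) ^ ((1 - a) / 2)⌉₊ →
      ((b * (r * b + 1) ^ (8 * r * (Nat.log 2 r + 1) / D) * (mm b r d) ^ D : ℕ) : ℝ) ≤
        Real.exp (C' * (r : ℝ) ^ ((1 + a) / 2) * Real.log ((r : ℝ) + 2) ^ k') := by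
  set B : ℝ := Real.log b with hBdef
  have hb1 : (1 : ℝ) ≤ (b : ℝ) := by exact_mod_cast hb
  have hB : 0 ≤ B := Real.log_nonneg hb1
  have hB4 : 0 ≤ Real.log (4 * (b : ℝ)) := Real.log_nonneg (by linarith)
  set cm : ℝ := C + (12 + 2 * (2 * B + 3 * Real.log (4 * b)) + 3 * B) with hcm
  have hcm0 : 0 ≤ cm := by positivity
  refine ⟨B + 24 * (B + 1) + 2 * cm, k + 2, by positivity, ?_⟩
  intro r d D hr hd hD
  have hl : 1 ≤ Real.log ((r : ℝ) + 2) := (nu_ell r).resolve_right (by omega)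
  set l : ℝ := Real.log ((r : ℝ) + 2) with hldef
  have hr1 : (1 : ℝ) ≤ (r : ℝ) := by exact_mod_cast hr
  have hr0 : (0 : ℝ) < (r : ℝ) := by linarith
  have hRa : 1 ≤ (r : ℝ) ^ a := Real.one_le_rpow hr1 ha0
  have hlk : 1 ≤ l ^ k := one_le_pow₀ hl
  set F : ℝ := (r : ℝ) ^ ((1 - a) / 2) with hF
  have hF1 : 1 ≤ F := Real.one_le_rpow hr1 (by linarith)
  set E : ℝ := (r : ℝ) ^ ((1 + a) / 2) with hE
  have hE1 : 1 ≤ E := Real.one_le_rpow hr1 (by linarith)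
  have hFE : F * (r : ℝ) ^ a = E := by
    rw [hF, hE, ← Real.rpow_add hr0]
    congr 1
    ring
  have hrE : (r : ℝ) = F * E := by
    rw [hF, hE, ← Real.rpow_add hr0]
    have : (1 - a) / 2 + (1 + a) / 2 = 1 := by ring
    rw [this, Real.rpow_one]
  have hx : 0 ≤ C * (r : ℝ) ^ a * l ^ k := by positivity
  have hD1 : F ≤ (D : ℝ) := by rw [hD]; exact Nat.le_ceil _
  have hD2 : (D : ℝ) ≤ 2 * F := by
    have := (Nat.ceil_lt_add_one (by linarith : (0 : ℝ) ≤ F)).le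
    rw [hD]
    linarith
  have hm := nu_m b r d hb hr _ hx hd
  have hmpos : 0 < mm b r d := by
    unfold mm Lam
    positivity
  have hm1 : (1 : ℝ) ≤ ((mm b r d : ℕ) : ℝ) := by exact_mod_cast hmpos
  have hlog0 : 0 ≤ Real.log ((mm b r d : ℕ) : ℝ) := Real.log_nonneg hm1
  -- the bound for `log m`
  have hl1 : l ≤ l ^ (k + 1) := by
    calc l = 1 * l := (one_mul l).symm
      _ ≤ l ^ k * l := mul_le_mul_of_nonneg_right hlk (by linarith)
      _ = l ^ (k + 1) := by ring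
  have hm2 : Real.log ((mm b r d : ℕ) : ℝ) ≤ cm * ((r : ℝ) ^ a * l ^ (k + 1)) := by
    have a1 : C * (r : ℝ) ^ a * l ^ k ≤ C * ((r : ℝ) ^ a * l ^ (k + 1)) := by
      rw [mul_assoc]
      apply mul_le_mul_of_nonneg_left _ hC
      apply mul_le_mul_of_nonneg_left _ (by linarith)
      exact pow_le_pow_right₀ hl (Nat.le_succ k)
    have a2 : l ≤ (r : ℝ) ^ a * l ^ (k + 1) := by
      calc l = 1 * l := (one_mul l).symm
        _ ≤ (r : ℝ) ^ a * l ^ (k + 1) := mul_le_mul hRa hl1 (by linarith) (by linarith)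
    have a3 := mul_le_mul_of_nonneg_left a2
      (by positivity : 0 ≤ 12 + 2 * (2 * B + 3 * Real.log (4 * (b : ℝ))) + 3 * B)
    rw [hcm, add_mul]
    linarith
  have hDm : (D : ℝ) * Real.log ((mm b r d : ℕ) : ℝ) ≤ 2 * cm * (E * l ^ (k + 1)) := by
    calc (D : ℝ) * Real.log ((mm b r d : ℕ) : ℝ)
        ≤ (2 * F) * (cm * ((r : ℝ) ^ a * l ^ (k + 1))) :=
          mul_le_mul hD2 hm2 hlog0 (by linarith)
      _ = 2 * cm * ((F * (r : ℝ) ^ a) * l ^ (k + 1)) := by ring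
      _ = 2 * cm * (E * l ^ (k + 1)) := by rw [hFE]
  -- the bound for the exponent
  set z : ℕ := 8 * r * (Nat.log 2 r + 1) / D with hz
  have hz1 : (z : ℝ) ≤ 24 * l * E := by
    have a1 : (z : ℝ) ≤ ((8 * r * (Nat.log 2 r + 1) : ℕ) : ℝ) / (D : ℝ) := Nat.cast_div_le
    have a2 : ((8 * r * (Nat.log 2 r + 1) : ℕ) : ℝ) / (D : ℝ) ≤
        ((8 * r * (Nat.log 2 r + 1) : ℕ) : ℝ) / F :=
      div_le_div_of_nonneg_left (by positivity) (by linarith) hD1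
    have a3 : ((8 * r * (Nat.log 2 r + 1) : ℕ) : ℝ) / F =
        8 * ((Nat.log 2 r + 1 : ℕ) : ℝ) * E := by
      have hF0 : F ≠ 0 := by linarith
      rw [div_eq_iff hF0]
      push_cast
      rw [hrE]
      ring
    have a4 := nu_log2 r hr
    have a5 : 8 * ((Nat.log 2 r + 1 : ℕ) : ℝ) * E ≤ 24 * l * E :=
      mul_le_mul_of_nonneg_right (by linarith) (by linarith)
    linarith
  have hrb := nu_rb b r hb hr
  have hrb0 : 0 ≤ Real.log ((r * b + 1 : ℕ) : ℝ) := Real.log_nonneg (by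
    push_cast
    nlinarith)
  have hzl : (z : ℝ) * Real.log ((r * b + 1 : ℕ) : ℝ) ≤ 24 * (B + 1) * (E * l ^ 2) := by
    calc (z : ℝ) * Real.log ((r * b + 1 : ℕ) : ℝ) ≤ (24 * l * E) * ((B + 1) * l) :=
          mul_le_mul hz1 hrb hrb0 (by positivity)
      _ = 24 * (B + 1) * (E * l ^ 2) := by ring
  -- assembly
  have hpos : (0 : ℝ) < ((b * (r * b + 1) ^ z * (mm b r d) ^ D : ℕ) : ℝ) := by
    have : 0 < b * (r * b + 1) ^ z * (mm b r d) ^ D := by positivity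
    exact_mod_cast this
  rw [← Real.log_le_iff_le_exp hpos]
  have hq : (0 : ℝ) < ((r * b + 1 : ℕ) : ℝ) := by positivity
  have e : Real.log ((b * (r * b + 1) ^ z * (mm b r d) ^ D : ℕ) : ℝ) =
      B + z * Real.log ((r * b + 1 : ℕ) : ℝ) + D * Real.log ((mm b r d : ℕ) : ℝ) := by
    rw [Nat.cast_mul, Nat.cast_mul, Nat.cast_pow, Nat.cast_pow,
      Real.log_mul (by positivity) (by positivity), Real.log_mul (by positivity) (by positivity),
      Real.log_pow, Real.log_pow]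
  rw [e]
  have p1 : E * l ^ (k + 1) ≤ E * l ^ (k + 2) :=
    mul_le_mul_of_nonneg_left (pow_le_pow_right₀ hl (Nat.le_succ _)) (by linarith)
  have p2 : E * l ^ 2 ≤ E * l ^ (k + 2) :=
    mul_le_mul_of_nonneg_left (pow_le_pow_right₀ hl (by omega)) (by linarith)
  have p3 : 1 ≤ E * l ^ (k + 2) := by
    calc (1 : ℝ) = 1 * 1 := by ring
      _ ≤ E * l ^ (k + 2) := mul_le_mul hE1 (one_le_pow₀ hl) (by norm_num) (by linarith)
  have q1 := mul_le_mul_of_nonneg_left p1 (by positivity : 0 ≤ 2 * cm)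
  have q2 := mul_le_mul_of_nonneg_left p2 (by positivity : 0 ≤ 24 * (B + 1))
  have q3 := mul_le_mul_of_nonneg_left p3 hB
  have fin : (B + 24 * (B + 1) + 2 * cm) * E * l ^ (k + 2) =
      B * (E * l ^ (k + 2)) + 24 * (B + 1) * (E * l ^ (k + 2)) + 2 * cm * (E * l ^ (k + 2)) := by
    ring
  rw [fin]
  linarith

end Pool.Agent.Lib.MP_c6e9f4_al.Bnd
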