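import Pool.Agent.Lib.MP_c6e9f4_al.Bnd.BDefs
import Pool.Agent.Lib.MP_c6e9f4_al.Nil.B1

/-!
ROW PG (110 lines). Pigeonhole. `r := card ι`.
Proof. Let `l` be bad with `l.length ≥ N := b * Q * L`, `Q := (r * b + 1) ^ z0`. Take the first `b * Q` consecutive blocks of length `L`; each has a nonempty sublist `s_j` with product `y_j` of support at most `z0`. The set `Y` of elements of `∀ i, T i` with at most `z0` nontrivial
coordinates has at most `Q` elements: map `Fin z0 → Option (Σ i, T i)` (a set with `(r * b + 1) ^ z0` elements, `Fintype.card_sigma`) onto `Y`: a function `c` goes to the element with value `t` at `i` if some `c a = some ⟨i, t⟩` (first such `a`), and 1 otherwise; surjective onto `Y` (enumerate the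
support). (If `r = 0` everything is trivial as well.) So some `y` is taken by at least `b` of the `b * Q` blocks (`Finset.exists_le_card_fiber_of_mul_le_card_of_maps_to`); concatenate the `s_j` of exactly `b` such blocks (in order): a nonempty sublist of `l` (`b ≥ 1`) with product
`y ^ b = 1` (each `T i` has order `b`, `pow_card_eq_one'`). Contradiction. So `l.length + 1 ≤ N`. (If `b = 0`, `ι` is empty by `Simp`, use `hb`.)
-/

set_option autoImplicit false

namespace Pool.Agent.Lib.MP_c6e9f4_al.Bnd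

open Pool.Agent.Lib.MP_c6e9f4_al.Exp (Bad DB LenFun)
open Pool.Agent.Lib.MP_c6e9f4_al.Nil (DU)

private theorem PG_count {ι : Type} [Fintype ι] {T : ι → Type} [∀ i, Group (T i)] {b : ℕ}
    (hT : ∀ i, Simp b (T i)) (z0 : ℕ) (Y : Finset (∀ i, T i))
    (hY : ∀ g ∈ Y, {i | g i ≠ 1}.ncard ≤ z0) : Y.card ≤ (Fintype.card ι * b + 1) ^ z0 := by
  classical
  haveI : ∀ i, Finite (T i) := fun i => (hT i).fin
  letI : ∀ i, Fintype (T i) := fun i => Fintype.ofFinite _
  let lst : (∀ i, T i) → List (Σ i, T i) := fun g =>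
    (Finset.univ.filter (fun i => g i ≠ 1)).toList.map (fun i => ⟨i, g i⟩)
  let c : (∀ i, T i) → (Fin z0 → Option (Σ i, T i)) := fun g a => (lst g)[a.val]?
  have hlen : ∀ g ∈ Y, (lst g).length ≤ z0 := by
    intro g hg
    have h1 := hY g hg
    rw [Set.ncard_eq_toFinset_card'] at h1
    have h2 : (lst g).length = (Finset.univ.filter (fun i => g i ≠ 1)).card := by
      simp only [lst, List.length_map, Finset.length_toList]
    rw [h2]
    refine le_trans (le_of_eq ?_) h1
    congr 1
    ext i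
    simp
  have hmem : ∀ (g : ∀ i, T i) (x : Σ i, T i), x ∈ lst g ↔ g x.1 = x.2 ∧ g x.1 ≠ 1 := by
    rintro g ⟨i, t⟩
    simp only [lst, List.mem_map, Finset.mem_toList, Finset.mem_filter, Finset.mem_univ, true_and]
    constructor
    · rintro ⟨j, hj, hjt⟩
      rw [Sigma.mk.inj_iff] at hjt
      obtain ⟨rfl, h2⟩ := hjt
      exact ⟨eq_of_heq h2, hj⟩
    · rintro ⟨h1, h2⟩
      refine ⟨i, h2, ?_⟩
      rw [h1]
  have hcm : ∀ g ∈ Y, ∀ x : Σ i, T i, x ∈ lst g ↔ ∃ a, c g a = some x := by
    intro g hg x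
    rw [List.mem_iff_getElem?]
    constructor
    · rintro ⟨n, hn⟩
      have hn' : n < (lst g).length := by
        by_contra hcon
        rw [List.getElem?_eq_none (not_lt.1 hcon)] at hn
        exact absurd hn (by simp)
      exact ⟨⟨n, lt_of_lt_of_le hn' (hlen g hg)⟩, hn⟩
    · rintro ⟨a, ha⟩
      exact ⟨a.val, ha⟩
  have hinj : Set.InjOn c (Y : Set (∀ i, T i)) := by
    intro g hg g' hg' hc
    have key : ∀ x : Σ i, T i, (g x.1 = x.2 ∧ g x.1 ≠ 1) ↔ (g' x.1 = x.2 ∧ g' x.1 ≠ 1) := by
      intro x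
      rw [← hmem, ← hmem, hcm g hg, hcm g' hg', hc]
    funext i
    by_cases h1 : g i = 1
    · by_cases h2 : g' i = 1
      · rw [h1, h2]
      · exact ((key ⟨i, g' i⟩).2 ⟨rfl, h2⟩).1
    · exact ((key ⟨i, g i⟩).1 ⟨rfl, h1⟩).1.symm
  have hcard : Fintype.card (Σ i, T i) = Fintype.card ι * b := by
    rw [Fintype.card_sigma, Finset.sum_congr rfl (fun i _ => by
      rw [← Nat.card_eq_fintype_card, (hT i).card] : ∀ i ∈ Finset.univ, Fintype.card (T i) = b)]
    rw [Finset.sum_const, Finset.card_univ, smul_eq_mul]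
  calc Y.card ≤ (Finset.univ : Finset (Fin z0 → Option (Σ i, T i))).card :=
        Finset.card_le_card_of_injOn c (fun _ _ => Finset.mem_coe.2 (Finset.mem_univ _)) hinj
    _ = (Fintype.card ι * b + 1) ^ z0 := by
        rw [Finset.card_univ, Fintype.card_fun, Fintype.card_option, hcard, Fintype.card_fin]

private theorem PG_flat {α : Type} (L : ℕ) (l : List α) (s : ℕ → List α) :
    ∀ (J : List ℕ) (n : ℕ), J.Pairwise (· < ·) → (∀ j ∈ J, n ≤ j) →
      (∀ j ∈ J, (s j).Sublist ((l.drop (j * L)).take L)) → ((J.map s).flatten).Sublist (l.drop (n * L)) := by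
  intro J
  induction J with
  | nil => intro n _ _ _; simp
  | cons j J ih =>
    intro n hJ hn hs
    rw [List.pairwise_cons] at hJ
    have h1 := ih (j + 1) hJ.2 (fun k hk => hJ.1 k hk) (fun k hk => hs k (List.mem_cons_of_mem _ hk))
    have h2 := hs j List.mem_cons_self
    rw [List.map_cons, List.flatten_cons]
    have h3 : (l.drop (j * L)).take L ++ l.drop ((j + 1) * L) = l.drop (j * L) := by
      rw [show (j + 1) * L = j * L + L by ring, ← List.drop_drop, List.take_append_drop]
    have h4 : (s j ++ (J.map s).flatten).Sublist (l.drop (j * L)) := by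
      rw [← h3]
      exact h2.append h1
    refine h4.trans ?_
    have hj := hn j List.mem_cons_self
    obtain ⟨k, rfl⟩ := Nat.exists_eq_add_of_le hj
    rw [show (n + k) * L = n * L + k * L by ring, ← List.drop_drop]
    exact List.drop_sublist _ _

private theorem PG_prod {G : Type} [Group G] (s : ℕ → List G) (y : G) :
    ∀ J : List ℕ, (∀ j ∈ J, (s j).prod = y) → ((J.map s).flatten).prod = y ^ J.length := by
  intro J
  induction J with
  | nil => intro _; simp
  | cons j J ih =>
    intro h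
    rw [List.map_cons, List.flatten_cons, List.prod_append, h j List.mem_cons_self,
      ih (fun k hk => h k (List.mem_cons_of_mem _ hk)), List.length_cons, pow_succ']

theorem pigeon {ι : Type} [Fintype ι] {T : ι → Type} [∀ i, Group (T i)] {b : ℕ} (hb : 1 ≤ b)
    (hT : ∀ i, Simp b (T i)) (L z0 : ℕ) (hL : 1 ≤ L)
    (h : ∀ l : List (∀ i, T i), l.length = L → ∃ s : List (∀ i, T i), s.Sublist l ∧ s ≠ [] ∧
      {i | s.prod i ≠ 1}.ncard ≤ z0) :
    DU (∀ i, T i) ((b * (Fintype.card ι * b + 1) ^ z0 * L : ℕ) : ℝ) := by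
  classical
  haveI : ∀ i, Finite (T i) := fun i => (hT i).fin
  letI : ∀ i, Fintype (T i) := fun i => Fintype.ofFinite _
  intro l _ hl
  set Q := (Fintype.card ι * b + 1) ^ z0 with hQ
  by_contra hcon
  have hlen : b * Q * L ≤ l.length := by
    by_contra hlt
    apply hcon
    have : l.length + 1 ≤ b * Q * L := not_le.1 hlt
    exact_mod_cast this
  have hblk : ∀ j ∈ Finset.range (b * Q), ∃ s : List (∀ i, T i),
      s.Sublist ((l.drop (j * L)).take L) ∧ s ≠ [] ∧ {i | s.prod i ≠ 1}.ncard ≤ z0 := by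
    intro j hj
    rw [Finset.mem_range] at hj
    apply h
    rw [List.length_take, List.length_drop]
    have h1 : (j + 1) * L ≤ b * Q * L := Nat.mul_le_mul_right L hj
    have h2 : j * L + L = (j + 1) * L := by ring
    omega
  choose! s hs1 hs2 hs3 using hblk
  obtain ⟨y, -, hy⟩ := Finset.exists_le_card_fiber_of_mul_le_card_of_maps_to
    (s := Finset.range (b * Q)) (t := Finset.univ.filter (fun g : ∀ i, T i => {i | g i ≠ 1}.ncard ≤ z0))
    (f := fun j => (s j).prod) (n := b)
    (fun j hj => Finset.mem_filter.2 ⟨Finset.mem_univ _, hs3 j hj⟩)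
    ⟨1, Finset.mem_filter.2 ⟨Finset.mem_univ _, by simp⟩⟩
    (by
      rw [Finset.card_range, mul_comm]
      exact Nat.mul_le_mul_left b (PG_count hT z0 _ (fun g hg => (Finset.mem_filter.1 hg).2)))
  obtain ⟨F, hF, hFc⟩ := Finset.exists_subset_card_eq hy
  have hF1 : ∀ j ∈ F, j ∈ Finset.range (b * Q) := fun j hj => (Finset.mem_filter.1 (hF hj)).1
  have hF2 : ∀ j ∈ F, (s j).prod = y := fun j hj => (Finset.mem_filter.1 (hF hj)).2
  set J := F.sort (· ≤ ·) with hJ
  have hJm : ∀ j, j ∈ J ↔ j ∈ F := fun j => Finset.mem_sort _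
  have hJl : J.length = b := by rw [hJ, Finset.length_sort, hFc]
  have hJs : J.Pairwise (· < ·) := (Finset.sortedLT_sort F).pairwise
  have h1 := PG_flat L l s J 0 hJs (fun j _ => Nat.zero_le j) (fun j hj => hs1 j (hF1 j ((hJm j).1 hj)))
  rw [Nat.zero_mul, List.drop_zero] at h1
  have h2 := PG_prod s y J (fun j hj => hF2 j ((hJm j).1 hj))
  refine hl _ h1 ?_ ?_
  · intro h3
    have h4 : 0 < J.length := by omega
    obtain ⟨j, hj⟩ := List.exists_mem_of_length_pos h4
    rw [List.flatten_eq_nil_iff] at h3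
    exact hs2 j (hF1 j ((hJm j).1 hj)) (h3 (s j) (List.mem_map.2 ⟨j, hj, rfl⟩))
  · rw [h2, hJl]
    funext i
    rw [Pi.pow_apply, Pi.one_apply, ← (hT i).card]
    exact pow_card_eq_one'

end Pool.Agent.Lib.MP_c6e9f4_al.Bnd
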