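import Pool.Agent.Lib.MP_c6e9f4_al.Bnd.BDefs
import Pool.Agent.Lib.MP_c6e9f4_al.Nil.B1

/-!
ROW SE (120 lines). Closure properties of `SS S G` (every nonabelian simple section `K ⧸ L`, `L ⊲ K ≤ G`, has its order in `S`) and two small facts on `DU`.
* of_injective (`f : H →* G` injective): a section `K ⧸ L` of `H` is isomorphic to the section `K' ⧸ L'` of `G`, `K' := K.map f`, `e : K ≃* K'` (`Subgroup.equivMapOfInjective`), `L' := L.map e` (normal), `QuotientGroup.congr`. Simplicity, nonabelianness, order are transported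
  (`MulEquiv.isSimpleGroup`, or `IsSimpleGroup.isSimpleGroup_of_surjective` with `Nontrivial`).
* of_surjective (`f : G →* K`): for `M ≤ K`, `L ⊲ M`: `M' := M.comap f`, `φ : M' →* M` (`f.subgroupComap M`, surjective), `L' := L.comap φ`, and `M' ⧸ L' ≃* M ⧸ L`: the kernel of `(mk' L).comp φ` is `L'`: `QuotientGroup.quotientKerEquivOfSurjective` (+ `QuotientGroup.quotientMulEquivOfEq`).
* subset: clear. erase: a section has at most `Nat.card G < b` elements, so its order is not `b`. simple: `K = ⊤`, `L = ⊥`, `G ≃* (⊤ ⧸ ⊥)`.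
* quotient: of_surjective for `mk' N`. card_mem: `Simp b T` and `SS S T` give `b ∈ S`.
* DU_two: `DU.ext` for `f`, kernel of `f` embeds in `B` by `g`.
-/

set_option autoImplicit false

namespace Pool.Agent.Lib.MP_c6e9f4_al.Bnd

open Pool.Agent.Lib.MP_c6e9f4_al.Exp (Bad DB LenFun)
open Pool.Agent.Lib.MP_c6e9f4_al.Nil (DU)

private theorem SS_congr_aux {S : Finset ℕ} {A B : Type} [Group A] [Group B] (e : A ≃* B)
    (h : IsSimpleGroup B → (∃ a b : B, a * b ≠ b * a) → Nat.card B ∈ S) (hs : IsSimpleGroup A)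
    (hn : ∃ a b : A, a * b ≠ b * a) : Nat.card A ∈ S := by
  have h1 : Nontrivial B := e.symm.toEquiv.nontrivial
  have h2 : IsSimpleGroup B := IsSimpleGroup.isSimpleGroup_of_surjective e.toMonoidHom e.surjective
  obtain ⟨a, b, hab⟩ := hn
  have h3 : ∃ a b : B, a * b ≠ b * a := by
    refine ⟨e a, e b, fun hc => hab (e.injective ?_)⟩
    rw [map_mul, map_mul, hc]
  rw [Nat.card_congr e.toEquiv]
  exact h h2 h3

theorem SS.of_injective {S : Finset ℕ} {G H : Type} [Group G] [Group H] (h : SS S G) (f : H →* G)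
    (hf : Function.Injective f) : SS S H := by
  intro K L hL hs hn
  set e : K ≃* K.map f := K.equivMapOfInjective f hf with he
  have hL' : (L.map e.toMonoidHom).Normal := Subgroup.Normal.map hL _ e.surjective
  exact SS_congr_aux (QuotientGroup.congr L (L.map e.toMonoidHom) e rfl)
    (fun h1 h2 => h (K.map f) (L.map e.toMonoidHom) h1 h2) hs hn

theorem SS.of_surjective {S : Finset ℕ} {G K : Type} [Group G] [Group K] (h : SS S G)
    (f : G →* K) (hf : Function.Surjective f) : SS S K := by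
  intro M L hL hs hn
  have hφ : Function.Surjective (f.subgroupComap M) := by
    rintro ⟨y, hy⟩
    obtain ⟨x, rfl⟩ := hf y
    exact ⟨⟨x, hy⟩, rfl⟩
  let ψ : M.comap f →* M ⧸ L := (QuotientGroup.mk' L).comp (f.subgroupComap M)
  have hψ : Function.Surjective ψ := (QuotientGroup.mk'_surjective L).comp hφ
  exact SS_congr_aux (QuotientGroup.quotientKerEquivOfSurjective ψ hψ).symm
    (fun h1 h2 => h (M.comap f) ψ.ker h1 h2) hs hn

theorem SS.subset {S S' : Finset ℕ} {G : Type} [Group G] (h : SS S G) (hS : S ⊆ S') :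
    SS S' G := fun K L _ hs hn => hS (h K L hs hn)

theorem SS.erase {S : Finset ℕ} {G : Type} [Group G] [Finite G] (h : SS S G) {b : ℕ}
    (hc : Nat.card G < b) : SS (S.erase b) G := by
  intro K L hL hs hn
  refine Finset.mem_erase.2 ⟨?_, h K L hs hn⟩
  have h1 : Nat.card (K ⧸ L) ≤ Nat.card K :=
    Nat.card_le_card_of_surjective (QuotientGroup.mk' L) (QuotientGroup.mk'_surjective L)
  have h2 : Nat.card K ≤ Nat.card G :=
    Nat.card_le_card_of_injective (fun x : K => (x : G)) Subtype.val_injective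
  omega

theorem SS.simple {S : Finset ℕ} {G : Type} [Group G] (h : SS S G) (hs : IsSimpleGroup G)
    (hn : ∃ x y : G, x * y ≠ y * x) : Nat.card G ∈ S := by
  have e : G ≃* (⊤ : Subgroup G) ⧸ (⊥ : Subgroup (⊤ : Subgroup G)) :=
    Subgroup.topEquiv.symm.trans (QuotientGroup.quotientBot).symm
  exact SS_congr_aux e (fun h1 h2 => h ⊤ ⊥ h1 h2) hs hn

theorem DU_two {G A B : Type} [Group G] [Group A] [Group B] (f : G →* A) (g : G →* B)
    (h : ∀ x, f x = 1 → g x = 1 → x = 1) {a b : ℝ} (ha : DU A a) (hb : DU B b) :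
    DU G (a * b) := by
  refine DU.ext f ha (hb.of_injective (g.comp f.ker.subtype) ?_)
  rw [injective_iff_map_eq_one]
  rintro ⟨x, hx⟩ h1
  exact Subtype.ext (h x hx h1)

end Pool.Agent.Lib.MP_c6e9f4_al.Bnd
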