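import Pool.Agent.Lib.MP_c6e9f4_al.Bnd.SP
import Pool.Agent.Lib.MP_c6e9f4_al.Bnd.PG
import Pool.Agent.Lib.MP_c6e9f4_al.Bnd.NU
import Pool.Agent.Lib.MP_c6e9f4_al.Bnd.SE

/-!
ROW FB (110 lines). Families of simple groups of order exactly `b` whose proper subgroups have sections in `S'`: exponent `(1 + a)/2`.
Proof. If `b = 0` there is no such family (`card ι ≥ 1`, `Simp 0 T` is impossible: `T` finite, `Nat.card T > 0`): `C = 0`, `k = 0`. Let `b ≥ 1`, `C, k` from `Pw S' b a`, `C', k'` from `numerics b`. For a family put `r := card ι`, `d := ⌈exp (C r^a log(r+2)^k)⌉₊`, `D := ⌈r^((1-a)/2)⌉₊ ≥ 1`,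
`m := mm b r d`, `L := m ^ D ≥ 1`, `z0 := 8 r (Nat.log 2 r + 1) / D`. `small_support` and `Nat.le_div_iff_mul_le` give the hypothesis of `pigeon`, and `numerics` the bound.
Hypothesis (hd) of small_support: `κ` finite, `e : κ → ι` injective, `K ≤ ∀ i, T (e i)` not full anywhere. If `κ` is empty `K` is trivial (a bad list is empty, `DU.of_subsingleton`, `1 ≤ d`). Otherwise let `P i := K.map (Pi.evalMonoidHom _ i) ≠ ⊤` (`¬ Full K i`), finite, of order at most `b`,
`SS S' (P i)` by assumption; `Pw` gives `DU (∀ i, P i) (exp (C r'^a log(r'+2)^k))`, `r' = card κ ≤ r`, at most `d` (monotone, `a ≥ 0`, `Real.rpow_le_rpow`); `K` embeds in `∀ i, P i`: `DU K d`, db_of_du (row OL).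
-/

set_option autoImplicit false

namespace Pool.Agent.Lib.MP_c6e9f4_al.Bnd

open Pool.Agent.Lib.MP_c6e9f4_al.Exp (Bad DB LenFun)
open Pool.Agent.Lib.MP_c6e9f4_al.Nil (DU)

theorem family_b (S' : Finset ℕ) (b : ℕ) (a : ℝ) (ha0 : 0 ≤ a) (ha1 : a < 1) (h : Pw S' b a) :
    ∃ (C : ℝ) (k : ℕ), 0 ≤ C ∧ ∀ (ι : Type) [Fintype ι] (T : ι → Type) [∀ i, Group (T i)],
      1 ≤ Fintype.card ι → (∀ i, Simp b (T i)) →
      (∀ i, ∀ K : Subgroup (T i), K ≠ ⊤ → SS S' K) →
      DU (∀ i, T i) (Real.exp (C * (Fintype.card ι : ℝ) ^ ((1 + a) / 2) *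
        Real.log ((Fintype.card ι : ℝ) + 2) ^ k)) := by
  classical
  rcases Nat.eq_zero_or_pos b with hb0 | hb
  · refine ⟨0, 0, le_rfl, fun ι _ T _ hι hT _ => ?_⟩
    exfalso
    have : Nonempty ι := Fintype.card_pos_iff.1 hι
    obtain ⟨i⟩ := this
    have h1 := (hT i).card
    have := (hT i).fin
    have h2 : 0 < Nat.card (T i) := Nat.card_pos
    omega
  obtain ⟨C, k, hC, hP⟩ := h
  obtain ⟨C', k', hC', hN⟩ := numerics b hb a C ha0 ha1 hC k
  refine ⟨C', k', hC', fun ι _ T _ hι hT hsub => ?_⟩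
  set r := Fintype.card ι with hr
  have hr0 : (0 : ℝ) < r := by exact_mod_cast hι
  set E : ℝ := C * (r : ℝ) ^ a * Real.log ((r : ℝ) + 2) ^ k with hE
  have hlog : 0 ≤ Real.log ((r : ℝ) + 2) := Real.log_nonneg (by linarith)
  have hE0 : 0 ≤ E := by
    have := Real.rpow_nonneg hr0.le a
    positivity
  set d := ⌈Real.exp E⌉₊ with hd
  set D := ⌈(r : ℝ) ^ ((1 - a) / 2)⌉₊ with hDdef
  have hD : 1 ≤ D := Nat.one_le_iff_ne_zero.2 (Nat.ceil_pos.2 (Real.rpow_pos_of_pos hr0 _)).ne'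
  have hdE : Real.exp E ≤ d := Nat.le_ceil _
  have hd1 : (1 : ℝ) ≤ d := (Real.one_le_exp hE0).trans hdE
  have hdb : ∀ (κ : Type) [Fintype κ] (e : κ → ι), Function.Injective e →
      ∀ K : Subgroup (∀ i, T (e i)), (∀ i, ¬ Full (T := fun i => T (e i)) K i) →
        DB (K : Set (∀ i, T (e i))) d := by
    intro κ _ e he K hK
    rcases isEmpty_or_nonempty κ with hκ | hκ
    · have : Subsingleton K := ⟨fun x y => Subtype.ext (Subsingleton.elim _ _)⟩
      exact db_of_du K ((Pool.Agent.Lib.MP_c6e9f4_al.Nil.DU.of_subsingleton K).mono hd1)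
    · let P : ∀ i : κ, Subgroup (T (e i)) := fun i => K.map (Pi.evalMonoidHom (fun i => T (e i)) i)
      have hPm : ∀ (x : K) (i : κ), (x : ∀ i, T (e i)) i ∈ P i := fun x i => ⟨x, x.2, rfl⟩
      have hPtop : ∀ i, P i ≠ ⊤ := by
        intro i htop
        refine hK i fun t => ?_
        have h1 : t ∈ P i := by rw [htop]; exact Subgroup.mem_top t
        obtain ⟨x, hx, hxt⟩ := h1
        exact ⟨x, hx, hxt⟩
      have hcard : 1 ≤ Fintype.card κ := Fintype.card_pos
      have h1 := hP κ (fun i => P i) hcard (fun i => by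
        have hfin := (hT (e i)).fin
        refine ⟨inferInstance, ?_, hsub (e i) (P i) (hPtop i)⟩
        rw [← (hT (e i)).card]
        exact Subgroup.card_le_card_group (P i))
      let φ : K →* (∀ i, P i) :=
        { toFun := fun x i => ⟨(x : ∀ i, T (e i)) i, hPm x i⟩
          map_one' := rfl
          map_mul' := fun _ _ => rfl }
      have hφ : Function.Injective φ := by
        intro x y hxy
        refine Subtype.ext (funext fun i => ?_)
        exact congrArg Subtype.val (congrFun hxy i)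
      have h2 : DU K (Real.exp (C * (Fintype.card κ : ℝ) ^ a * Real.log ((Fintype.card κ : ℝ) + 2) ^ k)) :=
        h1.of_injective φ hφ
      refine db_of_du K (h2.mono (le_trans (Real.exp_le_exp.2 ?_) hdE))
      have hκr : (Fintype.card κ : ℝ) ≤ r := by
        rw [hr]
        exact_mod_cast Fintype.card_le_of_injective e he
      have hκ0 : (0 : ℝ) ≤ Fintype.card κ := Nat.cast_nonneg _
      have hl0 : 0 ≤ Real.log ((Fintype.card κ : ℝ) + 2) := Real.log_nonneg (by linarith)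
      have hl1 : Real.log ((Fintype.card κ : ℝ) + 2) ≤ Real.log ((r : ℝ) + 2) :=
        Real.log_le_log (by linarith) (by linarith)
      have hp1 : (Fintype.card κ : ℝ) ^ a ≤ (r : ℝ) ^ a := Real.rpow_le_rpow hκ0 hκr ha0
      have hp0 : 0 ≤ (Fintype.card κ : ℝ) ^ a := Real.rpow_nonneg hκ0 a
      rw [hE]
      gcongr
  have hm1 : 1 ≤ mm b r d := by
    unfold mm Lam
    have : 0 < b := hb
    exact Nat.one_le_iff_ne_zero.2 (by positivity)
  have hL : 1 ≤ (mm b r d) ^ D := Nat.one_le_pow _ _ hm1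
  have hpg := pigeon (b := b) hb hT ((mm b r d) ^ D) (8 * r * (Nat.log 2 r + 1) / D) hL (fun l hl => by
    obtain ⟨s, h1, h2, h3⟩ := small_support hb hT d hdb (mm b r d) D hD le_rfl l hl
    refine ⟨s, h1, h2, ?_⟩
    rw [Nat.le_div_iff_mul_le hD, mul_comm]
    exact h3)
  exact hpg.mono (hN r d D hι rfl rfl)

end Pool.Agent.Lib.MP_c6e9f4_al.Bnd
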