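import Pool.Agent.Lib.MP_c6e9f4_al.Bnd.BDefs

/-!
ROW LN (60 lines). Few normal subgroups of index `≤ B` have the same intersection as all of them.
Proof. By induction on `k`: there are `q ≤ k` and `N : Fin q → Subgroup G` normal of index `≤ B` (all indices are positive, `G` finite) with either the final property or `2 ^ k * Nat.card (⨅ j, N j) ≤ Nat.card G`. Step: if the final property fails there is `M` normal of index `≤ B` with `¬ ⨅ j, N j ≤ M`; add it
(`Fin.cons`/`Fin.snoc`): the new intersection is a proper subgroup of the old, so its order is at most half. For `k := Nat.log 2 (Nat.card G) + 1` the second alternative is impossible; to get `q ≤ Nat.log 2 (Nat.card G)`: take the least `k` for which the first alternative holds or argue: with `k = Nat.log 2 (Nat.card G)` the second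
alternative gives `Nat.card (⨅ j, N j) = 1` (`2 ^ k * 2 > Nat.card G`), so `⨅ = ⊥` and the first holds.
-/

set_option autoImplicit false

namespace Pool.Agent.Lib.MP_c6e9f4_al.Bnd

open Pool.Agent.Lib.MP_c6e9f4_al.Exp (Bad DB LenFun)
open Pool.Agent.Lib.MP_c6e9f4_al.Nil (DU)

private theorem ln_half {G : Type} [Group G] [Finite G] {K K' : Subgroup G} (h : K' ≤ K) {x : G}
    (hx : x ∈ K) (hx' : x ∉ K') : 2 * Nat.card K' ≤ Nat.card K := by
  obtain ⟨c, hc⟩ := Subgroup.card_dvd_of_le h
  have hK : 0 < Nat.card K := Nat.card_pos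
  rcases Nat.lt_or_ge c 2 with h2 | h2
  · exfalso
    have h1 : c = 0 ∨ c = 1 := by omega
    rcases h1 with h1 | h1
    · rw [h1, mul_zero] at hc
      omega
    · rw [h1, mul_one] at hc
      exact hx' ((Subgroup.eq_of_le_of_card_ge h hc.le) ▸ hx)
  · rw [hc]
    nlinarith

private theorem ln_step (B : ℕ) (G : Type) [Group G] [Finite G] (k : ℕ) :
    ∃ (q : ℕ) (N : Fin q → Subgroup G), q ≤ k ∧ (∀ j, (N j).Normal ∧ (N j).index ≤ B) ∧
      ((∀ M : Subgroup G, M.Normal → M.index ≤ B → ∀ x, (∀ j, x ∈ N j) → x ∈ M) ∨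
        2 ^ k * Nat.card (⨅ j, N j : Subgroup G) ≤ Nat.card G) := by
  induction k with
  | zero =>
    refine ⟨0, Fin.elim0, le_rfl, fun j => j.elim0, Or.inr ?_⟩
    rw [pow_zero, one_mul, iInf_of_empty]
    exact (Subgroup.card_top (G := G)).le
  | succ k ih =>
    obtain ⟨q, N, hq, hN, hcase⟩ := ih
    by_cases hfin : ∀ M : Subgroup G, M.Normal → M.index ≤ B → ∀ x, (∀ j, x ∈ N j) → x ∈ M
    · exact ⟨q, N, by omega, hN, Or.inl hfin⟩
    · have hcard : 2 ^ k * Nat.card (⨅ j, N j : Subgroup G) ≤ Nat.card G := hcase.resolve_left hfin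
      push Not at hfin
      obtain ⟨M, hM, hMB, x, hx, hxM⟩ := hfin
      refine ⟨q + 1, Fin.cons M N, by omega, ?_, Or.inr ?_⟩
      · intro j
        refine Fin.cases ?_ (fun j => ?_) j
        · rw [Fin.cons_zero]
          exact ⟨hM, hMB⟩
        · rw [Fin.cons_succ]
          exact hN j
      · have hle : (⨅ j, (Fin.cons M N : Fin (q + 1) → Subgroup G) j) ≤ ⨅ j, N j := by
          refine le_iInf fun j => ?_
          have h1 := iInf_le (Fin.cons M N : Fin (q + 1) → Subgroup G) j.succ
          rwa [Fin.cons_succ] at h1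
        have hxK : x ∈ (⨅ j, N j : Subgroup G) := Subgroup.mem_iInf.2 hx
        have hxK' : x ∉ (⨅ j, (Fin.cons M N : Fin (q + 1) → Subgroup G) j) := by
          intro h
          have h1 := (Subgroup.mem_iInf.1 h) 0
          rw [Fin.cons_zero] at h1
          exact hxM h1
        have h2 := ln_half hle hxK hxK'
        calc 2 ^ (k + 1) * Nat.card (⨅ j, (Fin.cons M N : Fin (q + 1) → Subgroup G) j : Subgroup G)
            = 2 ^ k * (2 * Nat.card (⨅ j, (Fin.cons M N : Fin (q + 1) → Subgroup G) j : Subgroup G)) := by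
              rw [pow_succ]
              ring
          _ ≤ 2 ^ k * Nat.card (⨅ j, N j : Subgroup G) := Nat.mul_le_mul_left _ h2
          _ ≤ Nat.card G := hcard

theorem few_normals (B : ℕ) (G : Type) [Group G] [Finite G] :
    ∃ (q : ℕ) (N : Fin q → Subgroup G), q ≤ Nat.log 2 (Nat.card G) ∧
      (∀ j, (N j).Normal ∧ (N j).index ≤ B) ∧
      ∀ M : Subgroup G, M.Normal → M.index ≤ B → ∀ x, (∀ j, x ∈ N j) → x ∈ M := by
  obtain ⟨q, N, hq, hN, hcase⟩ := ln_step B G (Nat.log 2 (Nat.card G))
  refine ⟨q, N, hq, hN, ?_⟩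
  rcases hcase with h | h
  · exact h
  · intro M _ _ x hx
    have h1 : Nat.card G < 2 ^ (Nat.log 2 (Nat.card G) + 1) := Nat.lt_pow_succ_log_self (by norm_num) _
    have h2 : Nat.card (⨅ j, N j : Subgroup G) < 2 := by
      by_contra hcon
      push Not at hcon
      have h3 : 2 ^ Nat.log 2 (Nat.card G) * 2 ≤ 2 ^ Nat.log 2 (Nat.card G) * Nat.card (⨅ j, N j : Subgroup G) :=
        Nat.mul_le_mul_left _ hcon
      rw [pow_succ] at h1
      omega
    have h4 : 0 < Nat.card (⨅ j, N j : Subgroup G) := Nat.card_pos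
    have h5 : (⨅ j, N j : Subgroup G) = ⊥ := Subgroup.eq_bot_of_card_eq _ (by omega)
    have h6 : x ∈ (⨅ j, N j : Subgroup G) := Subgroup.mem_iInf.2 hx
    rw [h5, Subgroup.mem_bot] at h6
    rw [h6]
    exact M.one_mem

end Pool.Agent.Lib.MP_c6e9f4_al.Bnd
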