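import Pool.Agent.Lib.MP_c6e9f4_al.Bnd.BDefs

/-!
Two numerical facts.
-/

set_option autoImplicit false

namespace Pool.Agent.Lib.MP_c6e9f4_al.Bnd

open Pool.Agent.Lib.MP_c6e9f4_al.Exp (Bad DB LenFun)
open Pool.Agent.Lib.MP_c6e9f4_al.Nil (DU)

private theorem log_ge {n : ℕ} (hn : 2 ≤ n) : (0.69 : ℝ) ≤ Real.log n := by
  have h1 : Real.log 2 ≤ Real.log n := Real.log_le_log (by norm_num) (by exact_mod_cast hn)
  have h2 := Real.log_two_gt_d9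
  linarith

private theorem natlog_le {n : ℕ} (hn : 2 ≤ n) : ((Nat.log 2 n + 1 : ℕ) : ℝ) ≤ 3 * Real.log n := by
  have hn0 : n ≠ 0 := by omega
  have h1 : (2 : ℝ) ^ (Nat.log 2 n) ≤ n := by exact_mod_cast Nat.pow_log_le_self 2 hn0
  have h2 : (Nat.log 2 n : ℝ) * Real.log 2 ≤ Real.log n := by
    rw [← Real.log_pow]
    exact Real.log_le_log (by positivity) h1
  have h3 := Real.log_two_gt_d9
  have h4 : Real.log 2 ≤ Real.log n := Real.log_le_log (by norm_num) (by exact_mod_cast hn)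
  have h5 : ((Nat.log 2 n + 1 : ℕ) : ℝ) * Real.log 2 ≤ 2 * Real.log n := by
    push_cast; linarith
  have h6 : (0 : ℝ) ≤ ((Nat.log 2 n + 1 : ℕ) : ℝ) := Nat.cast_nonneg _
  nlinarith

theorem lay_num (a : ℝ) (ha0 : 0 ≤ a) (ha1 : a ≤ 1) (C : ℝ) (hC : 0 ≤ C) (k : ℕ) :
    ∃ (C' : ℝ) (k' : ℕ), 0 ≤ C' ∧ ∀ n q : ℕ, 2 ≤ n → q ≤ n * (Nat.log 2 n + 1) →
      20 * Real.sqrt n * Real.log n ^ 2 + C * (q : ℝ) ^ a * Real.log ((q : ℝ) + 2) ^ k ≤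
        C' * (Real.sqrt n + (n : ℝ) ^ a) * Real.log n ^ k' := by
  refine ⟨20 * 2 ^ k + 2 * C * 3 ^ (k + 1), k + 2, by positivity, fun n q hn hq => ?_⟩
  have hl := log_ge hn
  have hnl := natlog_le hn
  set ℓ := Real.log n with hℓ
  have hn2 : (2 : ℝ) ≤ n := by exact_mod_cast hn
  have hqR : (q : ℝ) ≤ n * (3 * ℓ) := by
    calc (q : ℝ) ≤ ((n * (Nat.log 2 n + 1) : ℕ) : ℝ) := by exact_mod_cast hq
      _ = n * ((Nat.log 2 n + 1 : ℕ) : ℝ) := by push_cast; ring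
      _ ≤ n * (3 * ℓ) := mul_le_mul_of_nonneg_left hnl (by positivity)
  have hqa : (q : ℝ) ^ a ≤ (n : ℝ) ^ a * (3 * ℓ) := by
    calc (q : ℝ) ^ a ≤ (n * (3 * ℓ)) ^ a := Real.rpow_le_rpow (by positivity) hqR ha0
      _ = (n : ℝ) ^ a * (3 * ℓ) ^ a := Real.mul_rpow (by positivity) (by positivity)
      _ ≤ (n : ℝ) ^ a * (3 * ℓ) := by
          refine mul_le_mul_of_nonneg_left ?_ (by positivity)
          calc (3 * ℓ) ^ a ≤ (3 * ℓ) ^ (1 : ℝ) :=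
                Real.rpow_le_rpow_of_exponent_le (by linarith) ha1
            _ = 3 * ℓ := Real.rpow_one _
  have hq3 : (q : ℝ) + 2 ≤ (n : ℝ) ^ 3 := by
    have h1 : Nat.log 2 n + 1 ≤ n := Nat.log_lt_self 2 (by omega)
    have h2 : q ≤ n * n := hq.trans (Nat.mul_le_mul_left n h1)
    have h3 : (q : ℝ) ≤ n * n := by exact_mod_cast h2
    nlinarith
  have hlq : Real.log ((q : ℝ) + 2) ≤ 3 * ℓ := by
    calc Real.log ((q : ℝ) + 2) ≤ Real.log ((n : ℝ) ^ 3) := Real.log_le_log (by positivity) hq3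
      _ = 3 * ℓ := by rw [Real.log_pow, ← hℓ]; norm_num
  have hlq0 : 0 ≤ Real.log ((q : ℝ) + 2) := by
    apply Real.log_nonneg
    have : (0 : ℝ) ≤ q := by positivity
    linarith
  have hpow : Real.log ((q : ℝ) + 2) ^ k ≤ (3 * ℓ) ^ k := pow_le_pow_left₀ hlq0 hlq k
  have hℓ0 : 0 < ℓ := by linarith
  have h2l : (1 : ℝ) ≤ (2 * ℓ) ^ k := one_le_pow₀ (by linarith)
  have hA : 20 * Real.sqrt n * ℓ ^ 2 ≤ 20 * 2 ^ k * Real.sqrt n * ℓ ^ (k + 2) := by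
    have : 20 * 2 ^ k * Real.sqrt n * ℓ ^ (k + 2) = 20 * Real.sqrt n * ℓ ^ 2 * (2 * ℓ) ^ k := by
      rw [mul_pow]; ring
    rw [this]
    exact le_mul_of_one_le_right (by positivity) h2l
  have hB : C * (q : ℝ) ^ a * Real.log ((q : ℝ) + 2) ^ k ≤
      2 * C * 3 ^ (k + 1) * (n : ℝ) ^ a * ℓ ^ (k + 2) := by
    calc C * (q : ℝ) ^ a * Real.log ((q : ℝ) + 2) ^ k
        ≤ C * ((n : ℝ) ^ a * (3 * ℓ)) * (3 * ℓ) ^ k := by
          apply mul_le_mul _ hpow (by positivity) (by positivity)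
          exact mul_le_mul_of_nonneg_left hqa hC
      _ = (C * 3 ^ (k + 1) * (n : ℝ) ^ a * ℓ ^ (k + 1)) * 1 := by
          rw [mul_pow]; ring
      _ ≤ (C * 3 ^ (k + 1) * (n : ℝ) ^ a * ℓ ^ (k + 1)) * (2 * ℓ) :=
          mul_le_mul_of_nonneg_left (by linarith) (by positivity)
      _ = _ := by ring
  have hs : 0 ≤ Real.sqrt n := Real.sqrt_nonneg _
  have hna : 0 ≤ (n : ℝ) ^ a := by positivity
  have hC1 : 0 ≤ 20 * 2 ^ k * (n : ℝ) ^ a * ℓ ^ (k + 2) := by positivity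
  have hC2 : 0 ≤ 2 * C * 3 ^ (k + 1) * Real.sqrt n * ℓ ^ (k + 2) := by positivity
  calc _ ≤ 20 * 2 ^ k * Real.sqrt n * ℓ ^ (k + 2) +
        2 * C * 3 ^ (k + 1) * (n : ℝ) ^ a * ℓ ^ (k + 2) := add_le_add hA hB
    _ ≤ 20 * 2 ^ k * Real.sqrt n * ℓ ^ (k + 2) +
        2 * C * 3 ^ (k + 1) * (n : ℝ) ^ a * ℓ ^ (k + 2) +
        20 * 2 ^ k * (n : ℝ) ^ a * ℓ ^ (k + 2) +
        2 * C * 3 ^ (k + 1) * Real.sqrt n * ℓ ^ (k + 2) := by linarith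
    _ = _ := by ring

theorem card_perm_log {n : ℕ} (hn : 2 ≤ n) (H : Subgroup (Equiv.Perm (Fin n))) :
    Nat.log 2 (Nat.card H) ≤ n * (Nat.log 2 n + 1) := by
  have h1 : Nat.card H ≤ n ^ n := by
    calc Nat.card H ≤ Nat.card (Equiv.Perm (Fin n)) := Subgroup.card_le_card_group H
      _ = n.factorial := by rw [Nat.card_perm, Nat.card_eq_fintype_card, Fintype.card_fin]
      _ ≤ n ^ n := Nat.factorial_le_pow n
  have h2 : n ^ n ≤ 2 ^ (n * (Nat.log 2 n + 1)) := by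
    rw [mul_comm, pow_mul]
    exact Nat.pow_le_pow_left (Nat.lt_pow_succ_log_self (by norm_num) n).le n
  calc Nat.log 2 (Nat.card H) ≤ Nat.log 2 (2 ^ (n * (Nat.log 2 n + 1))) :=
        Nat.log_mono_right (h1.trans h2)
    _ = _ := Nat.log_pow (by norm_num) _

theorem exp_absorb (k : ℕ) : ∃ C' : ℝ, 0 ≤ C' ∧ ∀ (n : ℕ) (e : ℝ), 2 ≤ n → 0 ≤ e →
    4 ≤ Real.exp (C' * (n : ℝ) ^ e * Real.log n ^ k) := by
  refine ⟨2 ^ (k + 1), by positivity, fun n e hn he => ?_⟩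
  have hl := log_ge hn
  have hn1 : (1 : ℝ) ≤ n := by exact_mod_cast (by omega : 1 ≤ n)
  have h1 : (1 : ℝ) ≤ (n : ℝ) ^ e := Real.one_le_rpow hn1 he
  have h2 : (1 : ℝ) ≤ (2 * Real.log n) ^ k := one_le_pow₀ (by linarith)
  have h3 : (2 : ℝ) ≤ 2 ^ (k + 1) * (n : ℝ) ^ e * Real.log n ^ k := by
    have : (2 : ℝ) ^ (k + 1) * (n : ℝ) ^ e * Real.log n ^ k =
        2 * ((n : ℝ) ^ e * (2 * Real.log n) ^ k) := by rw [mul_pow]; ring
    rw [this]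
    nlinarith
  have h4 : Real.exp 2 ≤ Real.exp (2 ^ (k + 1) * (n : ℝ) ^ e * Real.log n ^ k) :=
    Real.exp_le_exp.mpr h3
  have h5 : (4 : ℝ) ≤ Real.exp 2 := by
    have h6 : Real.exp 2 = Real.exp 1 * Real.exp 1 := by rw [← Real.exp_add]; norm_num
    have h7 := Real.exp_one_gt_d9
    rw [h6]; nlinarith
  linarith

end Pool.Agent.Lib.MP_c6e9f4_al.Bnd
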