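import Pool.Agent.Lib.MP_c6e9f4_al.Bnd.LA
import Pool.Agent.Lib.MP_c6e9f4_al.Bnd.LN
import Pool.Agent.Lib.MP_c6e9f4_al.Bnd.LU
import Pool.Agent.Lib.MP_c6e9f4_al.Bnd.SE
import Pool.Agent.Lib.MP_c6e9f4_al.Nil.L2

/-!
ROW LD (130 lines). Subgroups `H` of `Perm (Fin n)` with `Lay B m H`, `B := S.sup id`.
Proof. `C0, k0` from `Pw S B a`, `C, k` from `lay_num a C0 k0`, `E := exp (C (√n + n^a) (log n)^k)`. Induction on `m` over all `H`. `m = 0`: `H` trivial, `DU.of_subsingleton`, `E ^ 0 = 1`. Step: `few_normals B H` gives `q ≤ n (Nat.log 2 n + 1)` (card_perm_log) and `N j`.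
The homs `f : H →* Abelianization H`, `g : H →* ∀ j, H ⧸ N j`. An element `x` with `f x = 1`, `g x = 1` is in `KK B H`: for `M ⊲ H` with all `a b a⁻¹ b⁻¹ ∈ M` we have `commutator H ≤ M` (`Subgroup.commutator_le` / `commutator_def`, `Abelianization.ker_of`), and for `M.index ≤ B` few_normals applies. `DU.ext` for
`F := f.prod g : H →* Abelianization H × ∀ j, H ⧸ N j`, whose target has `DU ≤ exp (20 √n log²n) * exp (C0 q^a log(q+2)^k0) ≤ E` (`DU_two` with the projections, `DU_abelianization`, `Pw` for `Fin q` if `q ≥ 1`: `Nat.card (H ⧸ N j) = (N j).index ≤ B`, SS.of_surjective; `q = 0`: subsingleton), and the kernel of `F` embeds in `KK B H`, which is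
isomorphic to the subgroup `(KK B H).map H.subtype` of `Perm (Fin n)`, which satisfies `SS S` and `Lay B m` (SS.of_injective, Lay.of_injective): induction hypothesis `E ^ m`.
-/

set_option autoImplicit false

namespace Pool.Agent.Lib.MP_c6e9f4_al.Bnd

open Pool.Agent.Lib.MP_c6e9f4_al.Exp (Bad DB LenFun)
open Pool.Agent.Lib.MP_c6e9f4_al.Nil (DU)

theorem DU_of_Lay (S : Finset ℕ) (a : ℝ) (ha0 : 0 ≤ a) (ha1 : a ≤ 1) (h : ∀ β, Pw S β a) :
    ∃ (C : ℝ) (k : ℕ), 0 ≤ C ∧ ∀ n : ℕ, 2 ≤ n → ∀ (m : ℕ) (H : Subgroup (Equiv.Perm (Fin n))),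
      SS S H → Lay (S.sup id) m H →
      DU H (Real.exp (C * (Real.sqrt n + (n : ℝ) ^ a) * Real.log n ^ k) ^ m) := by
  obtain ⟨C0, k0, hC0, h0⟩ := h (S.sup id)
  obtain ⟨C, k, hC, hnum⟩ := lay_num a ha0 ha1 C0 hC0 k0
  refine ⟨C, k, hC, fun n hn => ?_⟩
  set E := Real.exp (C * (Real.sqrt n + (n : ℝ) ^ a) * Real.log n ^ k) with hE
  intro m
  induction m with
  | zero =>
    intro H _ hL
    have h1 : ∀ g : H, g = 1 := hL
    have : Subsingleton H := ⟨fun x y => by rw [h1 x, h1 y]⟩
    simpa using DU.of_subsingleton H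
  | succ m ih =>
    intro H hS hL
    obtain ⟨q, N, hq, hN, hall⟩ := few_normals (S.sup id) H
    have hq' : q ≤ n * (Nat.log 2 n + 1) := hq.trans (card_perm_log hn H)
    have hNn : ∀ j, (N j).Normal := fun j => (hN j).1
    let g : H →* ∀ j, H ⧸ N j := MonoidHom.pi (fun j => QuotientGroup.mk' (N j))
    let F : H →* Abelianization H × ∀ j, H ⧸ N j := (Abelianization.of).prod g
    -- the quotient
    have hpi : DU (∀ j, H ⧸ N j) (Real.exp (C0 * (q : ℝ) ^ a * Real.log ((q : ℝ) + 2) ^ k0)) := by
      rcases Nat.eq_zero_or_pos q with h1 | h1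
      · subst h1
        refine (DU.of_subsingleton _).mono (Real.one_le_exp ?_)
        have : (0 : ℝ) ≤ Real.log (((0 : ℕ) : ℝ) + 2) := Real.log_nonneg (by norm_num)
        positivity
      · have h2 := h0 (Fin q) (fun j => H ⧸ N j) (by rw [Fintype.card_fin]; exact h1) (fun j => ⟨inferInstance, by
          rw [← Subgroup.index_eq_card]; exact (hN j).2, SS.of_surjective hS (QuotientGroup.mk' (N j))
            (QuotientGroup.mk'_surjective (N j))⟩)
        simpa using h2
    have hT : DU (Abelianization H × ∀ j, H ⧸ N j) E := by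
      have h1 := DU_two (MonoidHom.fst (Abelianization H) (∀ j, H ⧸ N j))
        (MonoidHom.snd (Abelianization H) (∀ j, H ⧸ N j)) (fun x hx hy => Prod.ext hx hy)
        (Nil.DU_abelianization n hn H) hpi
      refine h1.mono ?_
      rw [← Real.exp_add]
      exact Real.exp_le_exp.2 (hnum n q hn hq')
    -- the kernel
    have hker : F.ker ≤ KK (S.sup id) H := by
      intro x hx
      have hx1 : F x = 1 := hx
      have hxa : Abelianization.of x = 1 := congrArg Prod.fst hx1
      have hxg : ∀ j, x ∈ N j := by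
        intro j
        have h1 : g x = 1 := congrArg Prod.snd hx1
        have h2 : (QuotientGroup.mk' (N j)) x = 1 := congrFun h1 j
        exact (QuotientGroup.eq_one_iff x).1 h2
      have hxc : x ∈ commutator H := (QuotientGroup.eq_one_iff x).1 hxa
      refine Subgroup.mem_sInf.2 ?_
      rintro M ⟨hM, h1 | h1⟩
      · have h2 : commutator H ≤ M := by
          rw [commutator_def]
          refine Subgroup.commutator_le.2 fun u _ v _ => ?_
          rw [commutatorElement_def]
          exact h1 u v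
        exact h2 hxc
      · exact hall M hM h1.2 x hxg
    let e := (KK (S.sup id) H).equivMapOfInjective H.subtype H.subtype_injective
    have hK : DU ((KK (S.sup id) H).map H.subtype) (E ^ m) := by
      refine ih _ ?_ ?_
      · exact SS.of_injective hS ((KK (S.sup id) H).subtype.comp e.symm.toMonoidHom)
          ((KK (S.sup id) H).subtype_injective.comp e.symm.injective)
      · have h1 : Lay (S.sup id) m (KK (S.sup id) H) := hL
        exact h1.of_injective e.symm.toMonoidHom e.symm.injective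
    have hker2 : DU F.ker (E ^ m) :=
      hK.of_injective (e.toMonoidHom.comp (Subgroup.inclusion hker))
        (e.injective.comp (Subgroup.inclusion_injective hker))
    have h3 := DU.ext F hT hker2
    rwa [← pow_succ'] at h3

end Pool.Agent.Lib.MP_c6e9f4_al.Bnd
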