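import Pool.Agent.Lib.MP_c6e9f4_al.Bnd.BDefs

/-!
ROW MC (150 lines). Order of such an `N` if it is transitive on `X`: `|N| ≤ |X| ^ (B + 1)`.
* card_le_of_commute: fix `x0`; `c ↦ c • x0` is injective on `C`: if `c • x0 = c' • x0` then for all `n ∈ N`: `c • n • x0 = n • c • x0 = n • c' • x0 = c' • n • x0`, so `c = c'` (faithful).
* card_le_of_struct: fix `x0`. Choose a finset `A` of members of `𝒯` (`𝒯` is finite) with `2 ^ A.card ≤ |Δ|`, `Δ := {n • x0 | n ∈ N_A}`, `N_A := sSup A`, and `A.card` maximal (`A = ∅` works). Claim `Δ = X`. Otherwise some `T ∈ 𝒯` does not map `Δ` into `Δ` (if all did, then `N = sSup 𝒯` would, but `N` is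
  transitive and `x0 ∈ Δ`); `T ∉ A`. `A' := insert T A`. `N_A` is normalised by `N` (join of normalised subgroups), so `N_{A'}` maps `N_A`-orbits to `N_A`-orbits, the orbit `Δ'` of `x0` under `N_{A'}` is a disjoint union of translates `t • Δ` (`t ∈ N_{A'}`; two translates are equal or disjoint), at least two of
  them (`Δ` and some `t • Δ ≠ Δ`, `t ∈ T`), so `|Δ'| ≥ 2 |Δ| ≥ 2 ^ A'.card`: contradiction. So `N_A` is transitive and `2 ^ A.card ≤ |X|`. `|N_A| ≤ B ^ A.card` (induction: `|T ⊔ M| ≤ |T| |M|` when `M` is normalised by `T`: `Subgroup.mul_normal` type facts, or the map `T × M → T ⊔ M` is onto as `T`, `M` commute here: `T` commutes with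
  every member of `A`, so with `N_A`) `≤ 2 ^ (B * A.card) ≤ |X| ^ B`. `C := sSup (𝒯 \ A)` commutes with `N_A`, so `|C| ≤ |X|` by card_le_of_commute, and `N = N_A ⊔ C`, `|N| ≤ |N_A| |C|`.
-/

set_option autoImplicit false

namespace Pool.Agent.Lib.MP_c6e9f4_al.Bnd

open Pool.Agent.Lib.MP_c6e9f4_al.Exp (Bad DB LenFun)
open Pool.Agent.Lib.MP_c6e9f4_al.Nil (DU)

theorem card_le_of_commute {G X : Type} [Group G] [Finite G] [Fintype X] [Nonempty X]
    [MulAction G X] [FaithfulSMul G X] (N C : Subgroup G) (htr : ∀ x y : X, ∃ n ∈ N, n • x = y)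
    (hc : ∀ n ∈ N, ∀ c ∈ C, n * c = c * n) : Nat.card C ≤ Fintype.card X := by
  obtain ⟨x0⟩ := ‹Nonempty X›
  rw [← Nat.card_eq_fintype_card]
  refine Nat.card_le_card_of_injective (fun c : C => (c : G) • x0) ?_
  intro c c' h
  have h' : (c : G) • x0 = (c' : G) • x0 := h
  apply Subtype.ext
  apply FaithfulSMul.eq_of_smul_eq_smul (α := X)
  intro x
  obtain ⟨n, hn, rfl⟩ := htr x0 x
  rw [smul_smul, smul_smul, ← hc n hn c c.2, ← hc n hn c' c'.2, mul_smul, mul_smul, h']

private theorem MC_comm_sSup {G : Type} [Group G] (S S' : Set (Subgroup G))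
    (h : ∀ T ∈ S, ∀ T' ∈ S', ∀ t ∈ T, ∀ t' ∈ T', t * t' = t' * t) :
    ∀ a ∈ sSup S, ∀ b ∈ sSup S', a * b = b * a := by
  have h1 : ∀ T' ∈ S', sSup S ≤ Subgroup.centralizer (T' : Set G) := by
    intro T' hT'
    refine sSup_le fun T hT t ht => ?_
    rw [Subgroup.mem_centralizer_iff]
    intro t' ht'
    exact (h T hT T' hT' t ht t' ht').symm
  have h2 : sSup S' ≤ Subgroup.centralizer ((sSup S : Subgroup G) : Set G) :=
    sSup_le fun T' hT' => Subgroup.le_centralizer_iff.1 (h1 T' hT')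
  intro a ha b hb
  exact (Subgroup.mem_centralizer_iff.1 (h2 hb) a ha)

private theorem MC_card_sup {G : Type} [Group G] [Finite G] (P Q : Subgroup G)
    (h : ∀ a ∈ P, ∀ b ∈ Q, a * b = b * a) :
    Nat.card (P ⊔ Q : Subgroup G) ≤ Nat.card P * Nat.card Q := by
  have hr : (P.subtype.noncommCoprod Q.subtype (fun a b => h a a.2 b b.2)).range = P ⊔ Q := by
    rw [MonoidHom.noncommCoprod_range, Subgroup.range_subtype, Subgroup.range_subtype]
  rw [← hr, ← Nat.card_prod]
  exact Nat.card_le_card_of_surjective _ (MonoidHom.rangeRestrict_surjective _)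

private theorem MC_card_sSup {G : Type} [Group G] [Finite G] (B : ℕ) (A : Finset (Subgroup G))
    (h1 : ∀ T ∈ A, Nat.card T ≤ B)
    (h2 : ∀ T ∈ A, ∀ T' ∈ A, T ≠ T' → ∀ t ∈ T, ∀ t' ∈ T', t * t' = t' * t) :
    Nat.card (sSup (A : Set (Subgroup G)) : Subgroup G) ≤ B ^ A.card := by
  classical
  induction A using Finset.induction_on with
  | empty => simp
  | insert T A hT ih =>
    rw [Finset.coe_insert, sSup_insert, Finset.card_insert_of_notMem hT, pow_succ, mul_comm]
    refine (MC_card_sup T _ ?_).trans (Nat.mul_le_mul (h1 T (Finset.mem_insert_self _ _)) (ih ?_ ?_))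
    · intro a ha b hb
      have := MC_comm_sSup {T} (A : Set (Subgroup G)) ?_ a ?_ b hb
      · exact this
      · intro T1 hT1 T' hT' t ht t' ht'
        rw [Set.mem_singleton_iff] at hT1
        subst hT1
        refine h2 T1 (Finset.mem_insert_self _ _) T' (Finset.mem_insert_of_mem hT') ?_ t ht t' ht'
        rintro rfl
        exact hT hT'
      · rw [sSup_singleton]; exact ha
    · exact fun T' hT' => h1 T' (Finset.mem_insert_of_mem hT')
    · exact fun T1 hT1 T' hT' => h2 T1 (Finset.mem_insert_of_mem hT1) T' (Finset.mem_insert_of_mem hT')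

theorem card_le_of_struct {G X : Type} [Group G] [Finite G] [Fintype X] [Nonempty X]
    [MulAction G X] [FaithfulSMul G X] (N : Subgroup G) (htr : ∀ x y : X, ∃ n ∈ N, n • x = y)
    (B : ℕ) (𝒯 : Set (Subgroup G)) (h1 : ∀ T ∈ 𝒯, T ≤ N ∧ Nat.card T ≤ B ∧
      ∀ n ∈ N, ∀ t ∈ T, n * t * n⁻¹ ∈ T)
    (h2 : ∀ T ∈ 𝒯, ∀ T' ∈ 𝒯, T ≠ T' → ∀ t ∈ T, ∀ t' ∈ T', t * t' = t' * t) (h3 : N = sSup 𝒯) :
    Nat.card N ≤ Fintype.card X ^ (B + 1) := by
  classical
  obtain ⟨x0⟩ := ‹Nonempty X›
  have hfin : 𝒯.Finite := Set.toFinite _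
  let D : Finset (Subgroup G) → Set X := fun A => {y | ∃ n ∈ sSup (A : Set (Subgroup G)), n • x0 = y}
  have hx0 : ∀ A, x0 ∈ D A := fun A => ⟨1, one_mem _, one_smul _ _⟩
  have hne : (hfin.toFinset.powerset.filter fun A => 2 ^ A.card ≤ Nat.card (D A)).Nonempty := by
    refine ⟨∅, ?_⟩
    rw [Finset.mem_filter]
    refine ⟨by simp, ?_⟩
    haveI : Nonempty (D ∅) := ⟨⟨x0, hx0 ∅⟩⟩
    have : 0 < Nat.card (D ∅) := Nat.card_pos
    simpa using this
  obtain ⟨A, hA, hmax⟩ := Finset.exists_max_image _ Finset.card hne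
  rw [Finset.mem_filter, Finset.mem_powerset] at hA
  obtain ⟨hA1, hA2⟩ := hA
  have hA𝒯 : ∀ T ∈ A, T ∈ 𝒯 := fun T hT => (Set.Finite.mem_toFinset _).1 (hA1 hT)
  -- the orbit is everything
  have hall : ∀ y : X, y ∈ D A := by
    by_contra hcon
    push Not at hcon
    obtain ⟨z, hz⟩ := hcon
    have hex : ∃ T ∈ 𝒯, ∃ t ∈ T, ∃ y ∈ D A, t • y ∉ D A := by
      by_contra hno
      push Not at hno
      let S : Subgroup G :=
        { carrier := {g | (∀ y ∈ D A, g • y ∈ D A) ∧ ∀ y ∈ D A, g⁻¹ • y ∈ D A}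
          mul_mem' := by
            rintro a b ⟨ha, ha'⟩ ⟨hb, hb'⟩
            refine ⟨fun y hy => ?_, fun y hy => ?_⟩
            · rw [mul_smul]; exact ha _ (hb _ hy)
            · rw [mul_inv_rev, mul_smul]; exact hb' _ (ha' _ hy)
          one_mem' := ⟨fun y hy => by rwa [one_smul], fun y hy => by rwa [inv_one, one_smul]⟩
          inv_mem' := by
            rintro a ⟨ha, ha'⟩
            exact ⟨ha', by rw [inv_inv]; exact ha⟩ }
      have hNS : N ≤ S := by
        rw [h3]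
        refine sSup_le fun T hT t ht => ?_
        exact ⟨fun y hy => hno T hT t ht y hy, fun y hy => hno T hT t⁻¹ (inv_mem ht) y hy⟩
      obtain ⟨n, hn, hnz⟩ := htr x0 z
      exact hz (hnz ▸ (hNS hn).1 x0 (hx0 A))
    obtain ⟨T, hT, t, ht, y, hy, hty⟩ := hex
    have hTA : T ∉ A := by
      intro hTA
      obtain ⟨n, hn, rfl⟩ := hy
      apply hty
      refine ⟨t * n, mul_mem ?_ hn, mul_smul _ _ _⟩
      exact (le_sSup (show T ∈ (A : Set (Subgroup G)) from hTA)) ht
    have hcomm : ∀ n ∈ sSup (A : Set (Subgroup G)), n * t = t * n := by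
      intro n hn
      refine MC_comm_sSup (A : Set (Subgroup G)) {T} ?_ n hn t (by rw [sSup_singleton]; exact ht)
      intro T1 hT1 T' hT' t1 ht1 t' ht'
      rw [Set.mem_singleton_iff] at hT'
      subst hT'
      refine h2 T1 (hA𝒯 T1 hT1) T' hT ?_ t1 ht1 t' ht'
      rintro rfl
      exact hTA hT1
    have hle : sSup (A : Set (Subgroup G)) ≤ sSup ((insert T A : Finset (Subgroup G)) : Set (Subgroup G)) :=
      sSup_le_sSup (by rw [Finset.coe_insert]; exact Set.subset_insert _ _)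
    have htle : t ∈ sSup ((insert T A : Finset (Subgroup G)) : Set (Subgroup G)) :=
      (le_sSup (show T ∈ ((insert T A : Finset (Subgroup G)) : Set (Subgroup G)) from by simp)) ht
    have hdisj : Disjoint (D A) ((fun y => t • y) '' D A) := by
      rw [Set.disjoint_left]
      rintro w ⟨m, hm, hmw⟩ ⟨w', ⟨m', hm', rfl⟩, hw⟩
      -- w = m • x0 = t • m' • x0
      apply hty
      obtain ⟨n, hn, rfl⟩ := hy
      refine ⟨n * m'⁻¹ * m, mul_mem (mul_mem hn (inv_mem hm')) hm, ?_⟩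
      have hw' : t • m' • x0 = w := hw
      have h4 : m • x0 = m' • t • x0 := by
        rw [hmw, ← hw', smul_smul, smul_smul, hcomm m' hm']
      rw [mul_smul, h4, mul_smul, inv_smul_smul, smul_smul, smul_smul, hcomm n hn]
    have hsub : D A ∪ ((fun y => t • y) '' D A) ⊆ D (insert T A) := by
      rintro w (⟨m, hm, hmw⟩ | ⟨w', ⟨m', hm', rfl⟩, hw⟩)
      · exact ⟨m, hle hm, hmw⟩
      · exact ⟨t * m', mul_mem htle (hle hm'), by rw [mul_smul]; exact hw⟩
    have hcard : 2 * Nat.card (D A) ≤ Nat.card (D (insert T A)) := by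
      have e1 : (D A ∪ ((fun y => t • y) '' D A)).ncard = 2 * (D A).ncard := by
        rw [Set.ncard_union_eq hdisj (Set.toFinite _) (Set.toFinite _),
          Set.ncard_image_of_injective _ (MulAction.injective t)]
        ring
      have e2 := Set.ncard_le_ncard hsub (Set.toFinite _)
      rw [e1] at e2
      exact e2
    have hmem : insert T A ∈ hfin.toFinset.powerset.filter fun A => 2 ^ A.card ≤ Nat.card (D A) := by
      rw [Finset.mem_filter, Finset.mem_powerset]
      refine ⟨?_, ?_⟩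
      · intro T' hT'
        rcases Finset.mem_insert.1 hT' with rfl | h
        · exact (Set.Finite.mem_toFinset _).2 hT
        · exact hA1 h
      · rw [Finset.card_insert_of_notMem hTA, pow_succ]
        omega
    have := hmax _ hmem
    rw [Finset.card_insert_of_notMem hTA] at this
    omega
  have htrA : ∀ x y : X, ∃ n ∈ sSup (A : Set (Subgroup G)), n • x = y := by
    intro x y
    obtain ⟨n, hn, rfl⟩ := hall x
    obtain ⟨m, hm, rfl⟩ := hall y
    exact ⟨m * n⁻¹, mul_mem hm (inv_mem hn), by rw [smul_smul, inv_mul_cancel_right]⟩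
  have hcX : 2 ^ A.card ≤ Fintype.card X := by
    refine hA2.trans ?_
    rw [← Nat.card_eq_fintype_card]
    exact Nat.card_le_card_of_injective (fun y : D A => (y : X)) Subtype.val_injective
  have hNA : Nat.card (sSup (A : Set (Subgroup G)) : Subgroup G) ≤ B ^ A.card :=
    MC_card_sSup B A (fun T hT => (h1 T (hA𝒯 T hT)).2.1)
      (fun T hT T' hT' => h2 T (hA𝒯 T hT) T' (hA𝒯 T' hT'))
  have hcm : ∀ n ∈ sSup (A : Set (Subgroup G)), ∀ c ∈ sSup (𝒯 \ (A : Set (Subgroup G))), n * c = c * n :=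
    MC_comm_sSup _ _ fun T hT T' hT' => h2 T (hA𝒯 T hT) T' hT'.1 (by rintro rfl; exact hT'.2 hT)
  have hC : Nat.card (sSup (𝒯 \ (A : Set (Subgroup G))) : Subgroup G) ≤ Fintype.card X := by
    haveI : Nonempty X := ⟨x0⟩
    exact card_le_of_commute _ _ htrA hcm
  have hN : N = sSup (A : Set (Subgroup G)) ⊔ sSup (𝒯 \ (A : Set (Subgroup G))) := by
    rw [h3, ← sSup_union, Set.union_diff_cancel (fun T hT => hA𝒯 T hT)]
  rw [hN]
  refine (MC_card_sup _ _ hcm).trans ?_
  have h5 : B ^ A.card ≤ Fintype.card X ^ B := by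
    calc B ^ A.card ≤ (2 ^ B) ^ A.card := Nat.pow_le_pow_left (Nat.lt_two_pow_self).le _
      _ = (2 ^ A.card) ^ B := by rw [← pow_mul, ← pow_mul, mul_comm]
      _ ≤ Fintype.card X ^ B := Nat.pow_le_pow_left hcX _
  rw [pow_succ]
  exact Nat.mul_le_mul (hNA.trans h5) hC

end Pool.Agent.Lib.MP_c6e9f4_al.Bnd
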