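import Pool.Agent.Lib.MP_c6e9f4_al.Bnd.MB
import Pool.Agent.Lib.MP_c6e9f4_al.Bnd.MC
import Pool.Agent.Lib.MP_c6e9f4_al.Nil.P1

/-!
ROW MD (110 lines). The order of a primitive group of degree `k` with `SS S` is at most `2 ^ (c (log2 k)^2)`, `c := 4 (B+1)^2 + 2`, `B := S.sup id`, `L := Nat.log 2 k ≥ 1`, `k < 2 ^ (L + 1) ≤ 2 ^ (2 L)`.
Proof. `G` is not trivial (transitive on `≥ 2` points). Take `N ≠ ⊥` normal of minimal order. `N` is transitive: it acts nontrivially (faithful), `MulAction.IsQuasiPreprimitive.isPretransitive_of_normal` (see the proof of `card_le_of_primitive` in Nil/P1). `|N| ≤ k ^ (B + 1)`: if `N` is commutative by card_le_of_commute (`C = N`), otherwise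
by minnormal_struct and card_le_of_struct. Let `s` generate `N`, `s.card ≤ Nat.log 2 |N| ≤ 2 L (B + 1)` (`exists_gen` of Nil/P1). The map `G → X × (s → N)`, `g ↦ (g • x0, v ↦ g v g⁻¹)` is injective (copy from Nil/P1: `k := h⁻¹ g` fixes `x0` and commutes with `N`, so `k • n • x0 = n • x0`). So
`|G| ≤ k * |N| ^ s.card ≤ 2 ^ (2 L) * (2 ^ (2 L (B+1))) ^ (2 L (B + 1)) ≤ 2 ^ (c L^2)`.
-/

set_option autoImplicit false

namespace Pool.Agent.Lib.MP_c6e9f4_al.Bnd

open Pool.Agent.Lib.MP_c6e9f4_al.Exp (Bad DB LenFun)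
open Pool.Agent.Lib.MP_c6e9f4_al.Nil (DU)

private theorem md_arith (B L k n g : ℕ) (hL : 1 ≤ L) (hk : k < 2 ^ (L + 1)) (hn : n ≤ k ^ (B + 1))
    (hg : g ≤ k * n ^ Nat.log 2 n) : g ≤ 2 ^ ((4 * (B + 1) ^ 2 + 2) * L ^ 2) := by
  have hk2 : k ≤ 2 ^ (2 * L) := hk.le.trans (Nat.pow_le_pow_right (by norm_num) (by omega))
  have hn2 : n ≤ 2 ^ (2 * L * (B + 1)) := by
    refine hn.trans ((Nat.pow_le_pow_left hk2 _).trans (le_of_eq ?_))
    rw [← pow_mul]
  have hlog : Nat.log 2 n ≤ 2 * L * (B + 1) := by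
    refine (Nat.log_mono_right hn2).trans (le_of_eq ?_)
    exact Nat.log_pow (by norm_num) _
  have h1 : n ^ Nat.log 2 n ≤ 2 ^ (2 * L * (B + 1) * (2 * L * (B + 1))) := by
    refine (Nat.pow_le_pow_left hn2 _).trans ?_
    rw [← pow_mul]
    exact Nat.pow_le_pow_right (by norm_num) (Nat.mul_le_mul_left _ hlog)
  refine hg.trans ((Nat.mul_le_mul hk2 h1).trans ?_)
  rw [← pow_add]
  refine Nat.pow_le_pow_right (by norm_num) ?_
  nlinarith [Nat.mul_le_mul_left L hL]

private theorem md_main (S : Finset ℕ) (G X : Type) [Group G] [Finite G] [Fintype X]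
    [MulAction G X] [FaithfulSMul G X] [MulAction.IsPreprimitive G X] (hX2 : 2 ≤ Fintype.card X)
    (hSS : SS S G) : ∃ n : ℕ, n ≤ Fintype.card X ^ (S.sup id + 1) ∧
      Nat.card G ≤ Fintype.card X * n ^ Nat.log 2 n := by
  classical
  have hX : 0 < Fintype.card X := by omega
  obtain ⟨x, y, hxy⟩ := Fintype.exists_pair_of_one_lt_card (α := X) (by omega)
  haveI : Nonempty X := ⟨x⟩
  have hnt : (⊤ : Subgroup G) ≠ ⊥ := by
    intro h
    obtain ⟨g, hg⟩ := MulAction.exists_smul_eq G x y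
    have hg1 : g ∈ (⊥ : Subgroup G) := by rw [← h]; trivial
    rw [Subgroup.mem_bot.mp hg1, one_smul] at hg
    exact hxy hg
  obtain ⟨N, hNmin⟩ := Set.Finite.exists_minimal (Set.toFinite {N : Subgroup G | N.Normal ∧ N ≠ ⊥})
    ⟨⊤, inferInstance, hnt⟩
  have hN : N.Normal := hNmin.prop.1
  have hN0 : N ≠ ⊥ := hNmin.prop.2
  have hmin : ∀ M : Subgroup G, M.Normal → M ≤ N → M ≠ ⊥ → M = N := fun M h1 h2 h3 =>
    hNmin.eq_of_le (y := M) ⟨h1, h3⟩ h2
  have htr : MulAction.IsPretransitive N X := by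
    refine MulAction.IsQuasiPreprimitive.isPretransitive_of_normal (N := N) ?_
    intro hfix
    apply hN0
    rw [eq_bot_iff]
    intro v hv
    rw [Subgroup.mem_bot]
    apply FaithfulSMul.eq_of_smul_eq_smul (α := X)
    intro y
    have hy : y ∈ MulAction.fixedPoints N X := by rw [hfix]; trivial
    have := MulAction.mem_fixedPoints.mp hy ⟨v, hv⟩
    rw [one_smul]
    exact this
  have htr' : ∀ a b : X, ∃ n ∈ N, n • a = b := by
    intro a b
    obtain ⟨v, hv⟩ := MulAction.exists_smul_eq N a b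
    exact ⟨v, v.2, hv⟩
  refine ⟨Nat.card N, ?_, ?_⟩
  · by_cases hc : ∀ a ∈ N, ∀ b ∈ N, a * b = b * a
    · refine (card_le_of_commute N N htr' hc).trans ?_
      calc Fintype.card X = Fintype.card X ^ 1 := (pow_one _).symm
        _ ≤ _ := Nat.pow_le_pow_right hX (by omega)
    · push Not at hc
      obtain ⟨a, ha, b, hb, hab⟩ := hc
      obtain ⟨𝒯, h1, h2, h3⟩ := minnormal_struct hSS N hN hN0 hmin ⟨a, ha, b, hb, hab⟩
      exact card_le_of_struct N htr' _ 𝒯 h1 h2 h3
  · obtain ⟨s, hs, hs'⟩ := Pool.Agent.Lib.MP_c6e9f4_al.Nil.exists_gen N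
    have hinj : Function.Injective (fun g : G => ((g • x, fun t : s => MulAut.conjNormal g (t : N)) : X × (s → N))) := by
      intro g h hgh
      have h1 : g • x = h • x := congrArg Prod.fst hgh
      have h2 : ∀ t : s, (g * (t : N) * g⁻¹ : G) = h * (t : N) * h⁻¹ := by
        intro t
        have h3 : MulAut.conjNormal g (t : N) = MulAut.conjNormal h (t : N) := congrFun (congrArg Prod.snd hgh) t
        have h4 := congrArg (fun v : N => (v : G)) h3
        simpa [MulAut.conjNormal_apply] using h4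
      obtain ⟨k, hk⟩ : ∃ k : G, k = h⁻¹ * g := ⟨_, rfl⟩
      have hkx : k • x = x := by rw [hk, mul_smul, h1, inv_smul_smul]
      have hks : ∀ v : N, k * (v : G) = (v : G) * k := by
        have hle : Subgroup.closure (s : Set N) ≤ (Subgroup.centralizer ({k} : Set G)).subgroupOf N := by
          rw [Subgroup.closure_le]
          intro t ht
          rw [SetLike.mem_coe, Subgroup.mem_subgroupOf, Subgroup.mem_centralizer_iff]
          intro y hy
          rw [Set.mem_singleton_iff.mp hy, hk]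
          have h5 := h2 ⟨t, ht⟩
          have h6 : (g * (t : G) * g⁻¹ : G) = h * (t : G) * h⁻¹ := h5
          have h7 : g * (t : G) = h * (t : G) * h⁻¹ * g := by rw [← h6]; group
          rw [mul_assoc, h7]; group
        intro v
        have hv : v ∈ Subgroup.closure (s : Set N) := by rw [hs']; trivial
        have h8 := hle hv
        rw [Subgroup.mem_subgroupOf, Subgroup.mem_centralizer_iff] at h8
        exact h8 k rfl
      have hk1 : k = 1 := by
        apply FaithfulSMul.eq_of_smul_eq_smul (α := X)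
        intro y
        obtain ⟨v, hv⟩ := MulAction.exists_smul_eq N x y
        have e4 : (v : G) • x = y := hv
        rw [← e4, smul_smul, hks v, mul_smul, hkx, one_smul]
      rw [hk1] at hk
      exact (inv_mul_eq_one.mp hk.symm).symm
    have h1 := Nat.card_le_card_of_injective _ hinj
    rw [Nat.card_prod, Nat.card_fun, Nat.card_eq_fintype_card (α := X), Nat.card_eq_fintype_card (α := s),
      Fintype.card_coe] at h1
    exact h1.trans (Nat.mul_le_mul_left _ (Nat.pow_le_pow_right Nat.card_pos hs))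

theorem card_prim (S : Finset ℕ) : ∃ c : ℕ, ∀ (G X : Type) [Group G] [Finite G] [Fintype X]
    [MulAction G X] [FaithfulSMul G X] [MulAction.IsPreprimitive G X], 2 ≤ Fintype.card X →
    SS S G → Nat.card G ≤ 2 ^ (c * Nat.log 2 (Fintype.card X) ^ 2) := by
  refine ⟨4 * (S.sup id + 1) ^ 2 + 2, ?_⟩
  intro G X _ _ _ _ _ _ hX2 hSS
  obtain ⟨n, hn, hg⟩ := md_main S G X hX2 hSS
  exact md_arith (S.sup id) _ _ n _ (Nat.log_pos (by norm_num) hX2)
    (Nat.lt_pow_succ_log_self (by norm_num) _) hn hg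

end Pool.Agent.Lib.MP_c6e9f4_al.Bnd
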