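import Pool.Agent.Lib.MP_c6e9f4_al.Bnd.LC
import Pool.Agent.Lib.MP_c6e9f4_al.Bnd.MD
import Pool.Agent.Lib.MP_c6e9f4_al.Nil.T1

/-!
ROW LL (100 lines). COPY of Nil/T2 (`derived_length`) with `Lay (S.sup id)` in place of the derived series: `c` from `card_prim S`; strong induction on `N`; orbits: Lay.family (ds_family); transitive case: `exists_prim` (Nil/T1) gives `Y, Q, f`, `k := card Y`, `SS S Q` (SS.of_surjective), `Nat.card Q ≤ 2 ^ (c a^2)`, `a := Nat.log 2 k`, so
`Lay _ (c a^2) Q` by lay_card and Lay.mono (`Nat.log 2 (2 ^ t) = t`, `Nat.log_mono_right`); the kernel has orbits of length `≤ N / k`, `Lay _ (c b^2) f.ker`, `b := Nat.log 2 (N / k)`; Lay.ext; `a + b ≤ Nat.log 2 N`, `c a^2 + c b^2 ≤ c (a + b)^2`. If `card X ≤ 1` the group is trivial: `Lay _ 0`.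
-/

set_option autoImplicit false

namespace Pool.Agent.Lib.MP_c6e9f4_al.Bnd

open Pool.Agent.Lib.MP_c6e9f4_al.Exp (Bad DB LenFun)
open Pool.Agent.Lib.MP_c6e9f4_al.Nil (DU exists_prim)

/-- the transitive case -/
private theorem ll_trans (S : Finset ℕ) (c : ℕ)
    (hc : ∀ (G X : Type) [Group G] [Finite G] [Fintype X] [MulAction G X] [FaithfulSMul G X]
      [MulAction.IsPreprimitive G X], 2 ≤ Fintype.card X → SS S G →
      Nat.card G ≤ 2 ^ (c * Nat.log 2 (Fintype.card X) ^ 2)) (N : ℕ)
    (ih : ∀ N' < N, ∀ (G X : Type) [Group G] [Finite G] [Fintype X]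
      [MulAction G X] [FaithfulSMul G X], SS S G → (∀ x : X, Nat.card (MulAction.orbit G x) ≤ N') →
      Lay (S.sup id) (c * Nat.log 2 N' ^ 2) G)
    (G X : Type) [Group G] [Finite G] [Fintype X] [MulAction G X] [FaithfulSMul G X]
    [MulAction.IsPretransitive G X] (hS : SS S G) (hN : Fintype.card X ≤ N) :
    Lay (S.sup id) (c * Nat.log 2 N ^ 2) G := by
  rcases Nat.lt_or_ge (Fintype.card X) 2 with h1 | h2
  · have hs : Subsingleton X := Fintype.card_le_one_iff_subsingleton.1 (by omega)
    have h0 : Lay (S.sup id) 0 G := fun g =>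
      FaithfulSMul.eq_of_smul_eq_smul (α := X) fun x => Subsingleton.elim _ _
    exact h0.mono (Nat.zero_le _)
  · obtain ⟨Y, _, Q, f, hY, hsurj, hprim, horb⟩ := exists_prim G X h2
    have : Nonempty Y := Fintype.card_pos_iff.1 (by omega)
    have hSQ : SS S Q := hS.of_surjective f hsurj
    have := hprim
    set k := Fintype.card Y with hk
    set a := Nat.log 2 k with ha
    have hQ : Nat.card Q ≤ 2 ^ (c * a ^ 2) := hc Q Y hY hSQ
    have hlogQ : Nat.log 2 (Nat.card Q) ≤ c * a ^ 2 := by
      have h3 := Nat.log_mono_right (b := 2) hQ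
      rwa [Nat.log_pow (by norm_num)] at h3
    have hdQ : Lay (S.sup id) (c * a ^ 2) Q := (lay_card S Q hSQ).mono hlogQ
    obtain ⟨x0⟩ : Nonempty X := Fintype.card_pos_iff.1 (by omega)
    have hkN : k ≤ N := by
      have h3 := horb x0
      have h4 : 1 ≤ Nat.card (MulAction.orbit f.ker x0) :=
        Nat.card_pos_iff.2 ⟨⟨⟨x0, MulAction.mem_orbit_self x0⟩⟩, inferInstance⟩
      nlinarith
    have hN0 : N / k < N := Nat.div_lt_self (by omega) hY
    have hker : Lay (S.sup id) (c * Nat.log 2 (N / k) ^ 2) f.ker := by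
      refine ih (N / k) hN0 f.ker X (hS.of_injective f.ker.subtype f.ker.subtype_injective) fun x => ?_
      rw [Nat.le_div_iff_mul_le (by omega)]
      exact (horb x).trans hN
    have hG := Lay.ext f hdQ hker
    set b := Nat.log 2 (N / k) with hb
    have hab : a + b ≤ Nat.log 2 N := by
      refine Nat.le_log_of_pow_le (by norm_num) ?_
      rw [pow_add]
      have h3 : 2 ^ a ≤ k := Nat.pow_log_le_self 2 (by omega)
      have h4 : 2 ^ b ≤ N / k := Nat.pow_log_le_self 2 (Nat.div_pos hkN (by omega)).ne'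
      exact (Nat.mul_le_mul h3 h4).trans (Nat.mul_div_le N k)
    have hle : c * a ^ 2 + c * b ^ 2 ≤ c * Nat.log 2 N ^ 2 := by
      rw [← mul_add]
      refine Nat.mul_le_mul_left c ?_
      nlinarith [Nat.pow_le_pow_left hab 2, Nat.zero_le (a * b)]
    exact hG.mono hle

theorem lay_length (S : Finset ℕ) : ∃ c : ℕ, ∀ (N : ℕ) (G X : Type) [Group G] [Finite G]
    [Fintype X] [MulAction G X] [FaithfulSMul G X], SS S G →
    (∀ x : X, Nat.card (MulAction.orbit G x) ≤ N) →
    Lay (S.sup id) (c * Nat.log 2 N ^ 2) G := by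
  obtain ⟨c, hc⟩ := card_prim S
  refine ⟨c, fun N => ?_⟩
  induction N using Nat.strong_induction_on with
  | _ N ih =>
    intro G X _ _ _ _ _ hS hN
    refine Lay.family (ι := X) (K := fun x => (MulAction.toPermHom G (MulAction.orbit G x)).range)
      (fun x => (MulAction.toPermHom G (MulAction.orbit G x)).rangeRestrict) ?_ ?_
    · intro g hg
      refine FaithfulSMul.eq_of_smul_eq_smul (α := X) fun x => ?_
      have h1 := hg x
      have h2 : MulAction.toPermHom G (MulAction.orbit G x) g = 1 := by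
        have := congrArg Subtype.val h1
        simpa using this
      have h3 : (MulAction.toPermHom G (MulAction.orbit G x) g) ⟨x, MulAction.mem_orbit_self x⟩ =
          ⟨x, MulAction.mem_orbit_self x⟩ := by
        rw [h2]
        rfl
      have h4 := congrArg Subtype.val h3
      rw [one_smul]
      exact h4
    · intro x
      let _ : Fintype (MulAction.orbit G x) := Fintype.ofFinite _
      have : MulAction.IsPretransitive (MulAction.toPermHom G (MulAction.orbit G x)).range (MulAction.orbit G x) := by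
        refine ⟨fun y z => ?_⟩
        obtain ⟨g, hg⟩ := MulAction.exists_smul_eq G y z
        exact ⟨⟨MulAction.toPermHom G (MulAction.orbit G x) g, ⟨g, rfl⟩⟩, hg⟩
      refine ll_trans S c hc N ih _ (MulAction.orbit G x)
        (hS.of_surjective _ (MulAction.toPermHom G (MulAction.orbit G x)).rangeRestrict_surjective) ?_
      rw [← Nat.card_eq_fintype_card]
      exact hN x

end Pool.Agent.Lib.MP_c6e9f4_al.Bnd
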