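import Pool.Agent.Lib.MP_c6e9f4_al.Bnd.OU
import Pool.Agent.Lib.MP_c6e9f4_al.Bnd.LD
import Pool.Agent.Lib.MP_c6e9f4_al.Bnd.LL
import Pool.Agent.Lib.MP_c6e9f4_al.Bnd.LU
import Pool.Agent.Lib.MP_c6e9f4_al.Nil.B2

/-!
ROW FN (110 lines). Assembly. `s := max S.card 1`, `e := 1 - (1/2)^s ≥ 1/2`, `a := 1 - (1/2)^S.card ≤ e`.
* DU_bounded: `outer S.card S rfl`, `DU_of_Lay`, and `lay_length` with `X := Fin n`, `N := n`: `Lay _ m H`, `m := c (Nat.log 2 n)^2 ≤ 3 c (log n)^2`. `√n + n^a ≤ 2 n^e` (`√n = n^(1/2)`). So `DU H (exp (C' n^e (log n)^(k+2)))`, `C' := 6 c C`.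
* permIndex_bounded: as `permIndex_solvable` in Nil/S3: `DU.ext` for `QuotientGroup.mk' N`, `DU.card (H ⧸ N)`, `N` is isomorphic to a subgroup of `Perm (Fin n)` (`N.map H.subtype`; SS.of_injective, DU.of_injective), `permIndex_le_of_DU`, the factor 4 is absorbed with exp_absorb.
-/

set_option autoImplicit false

namespace Pool.Agent.Lib.MP_c6e9f4_al.Bnd

open Pool.Agent.Lib.MP_c6e9f4_al
open Pool.Agent.Lib.MP_c6e9f4_al.Exp (Bad DB LenFun)
open Pool.Agent.Lib.MP_c6e9f4_al.Nil (DU)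

private lemma fn_log {n : ℕ} (hn : 2 ≤ n) : ((Nat.log 2 n ^ 2 : ℕ) : ℝ) ≤ 3 * Real.log n ^ 2 := by
  have h1 : 2 ^ (Nat.log 2 n) ≤ n := Nat.pow_log_le_self 2 (by omega)
  have h2 : ((2 : ℝ)) ^ (Nat.log 2 n) ≤ n := by exact_mod_cast h1
  have h3 : (Nat.log 2 n : ℝ) * Real.log 2 ≤ Real.log n := by
    rw [← Real.log_pow]
    exact Real.log_le_log (by positivity) h2
  have h4 := Real.log_two_gt_d9
  have h6 : (0 : ℝ) ≤ (Nat.log 2 n : ℝ) := Nat.cast_nonneg _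
  have h5 : (0 : ℝ) ≤ Real.log n := Real.log_natCast_nonneg n
  set a : ℝ := (Nat.log 2 n : ℝ) with ha
  set L : ℝ := Real.log n with hL
  have h7 : a ≤ 1.5 * L := by nlinarith
  push_cast
  rw [← ha]
  nlinarith

private lemma fn_pow (S : Finset ℕ) {n : ℕ} (hn : 2 ≤ n) :
    Real.sqrt n + (n : ℝ) ^ (1 - (1 / 2 : ℝ) ^ S.card) ≤
      2 * (n : ℝ) ^ (1 - (1 / 2 : ℝ) ^ max S.card 1) := by
  have hn1 : (1 : ℝ) ≤ n := by exact_mod_cast (by omega : 1 ≤ n)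
  have h1 : Real.sqrt n ≤ (n : ℝ) ^ (1 - (1 / 2 : ℝ) ^ max S.card 1) := by
    rw [Real.sqrt_eq_rpow]
    refine Real.rpow_le_rpow_of_exponent_le hn1 ?_
    have h2 : (1 / 2 : ℝ) ^ max S.card 1 ≤ (1 / 2 : ℝ) ^ 1 :=
      pow_le_pow_of_le_one (by norm_num) (by norm_num) (le_max_right _ _)
    rw [pow_one] at h2
    linarith
  have h3 : (n : ℝ) ^ (1 - (1 / 2 : ℝ) ^ S.card) ≤ (n : ℝ) ^ (1 - (1 / 2 : ℝ) ^ max S.card 1) := by
    refine Real.rpow_le_rpow_of_exponent_le hn1 ?_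
    have h2 : (1 / 2 : ℝ) ^ max S.card 1 ≤ (1 / 2 : ℝ) ^ S.card :=
      pow_le_pow_of_le_one (by norm_num) (by norm_num) (le_max_left _ _)
    linarith
  linarith

theorem DU_bounded (S : Finset ℕ) : ∃ (C : ℝ) (k : ℕ), 0 ≤ C ∧ ∀ n : ℕ, 2 ≤ n →
    ∀ H : Subgroup (Equiv.Perm (Fin n)), SS S H →
    DU H (Real.exp (C * (n : ℝ) ^ (1 - (1 / 2 : ℝ) ^ max S.card 1) * Real.log n ^ k)) := by
  have ha0 : (0 : ℝ) ≤ 1 - (1 / 2 : ℝ) ^ S.card := by
    have h : (1 / 2 : ℝ) ^ S.card ≤ 1 := pow_le_one₀ (by norm_num) (by norm_num)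
    linarith
  have ha1 : 1 - (1 / 2 : ℝ) ^ S.card ≤ 1 := by
    have h : (0 : ℝ) ≤ (1 / 2 : ℝ) ^ S.card := by positivity
    linarith
  obtain ⟨C, k, hC, hDU⟩ := DU_of_Lay S (1 - (1 / 2 : ℝ) ^ S.card) ha0 ha1 (fun β => outer S.card S rfl β)
  obtain ⟨c, hc⟩ := lay_length S
  refine ⟨6 * c * C, k + 2, by positivity, fun n hn H hS => ?_⟩
  have hlay : Lay (S.sup id) (c * Nat.log 2 n ^ 2) H := by
    apply hc n H (Fin n) hS
    intro x
    calc Nat.card (MulAction.orbit H x) ≤ Nat.card (Fin n) :=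
          Nat.card_le_card_of_injective (fun y : MulAction.orbit H x => (y : Fin n)) Subtype.val_injective
      _ = n := by simp
  have h1 := hDU n hn _ H hS hlay
  refine h1.mono ?_
  rw [← Real.exp_nat_mul]
  apply Real.exp_le_exp.mpr
  have h2 := fn_log hn
  have h3 := fn_pow S hn
  have hL : 0 ≤ Real.log (n : ℝ) := Real.log_natCast_nonneg n
  set E : ℝ := (n : ℝ) ^ (1 - (1 / 2 : ℝ) ^ max S.card 1) with hE
  set A : ℝ := Real.sqrt n + (n : ℝ) ^ (1 - (1 / 2 : ℝ) ^ S.card) with hA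
  have hA0 : 0 ≤ A := by positivity
  have hc0 : (0 : ℝ) ≤ c := Nat.cast_nonneg c
  have h4 : ((c * Nat.log 2 n ^ 2 : ℕ) : ℝ) ≤ c * (3 * Real.log n ^ 2) := by
    rw [Nat.cast_mul]
    exact mul_le_mul_of_nonneg_left h2 hc0
  calc ((c * Nat.log 2 n ^ 2 : ℕ) : ℝ) * (C * A * Real.log n ^ k)
      ≤ (c * (3 * Real.log n ^ 2)) * (C * (2 * E) * Real.log n ^ k) := by
        refine mul_le_mul h4 ?_ (by positivity) (by positivity)
        refine mul_le_mul_of_nonneg_right ?_ (by positivity)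
        exact mul_le_mul_of_nonneg_left h3 hC
    _ = 6 * c * C * E * Real.log n ^ (k + 2) := by ring

theorem permIndex_bounded (S : Finset ℕ) : ∃ (C : ℝ) (k : ℕ), ∀ n : ℕ, 2 ≤ n →
    ∀ (H : Subgroup (Equiv.Perm (Fin n))) (N : Subgroup H), N.Normal → SS S N →
    (permIndex H : ℝ) ≤ N.index *
      Real.exp (C * (n : ℝ) ^ (1 - (1 / 2 : ℝ) ^ max S.card 1) * Real.log n ^ k) := by
  obtain ⟨C, k, hC, hDU⟩ := DU_bounded S
  obtain ⟨C', hC', habs⟩ := exp_absorb k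
  refine ⟨C' + C, k, fun n hn H N hN hS => ?_⟩
  have := hN
  set e : ℝ := 1 - (1 / 2 : ℝ) ^ max S.card 1 with he
  have he0 : 0 ≤ e := by
    have h : (1 / 2 : ℝ) ^ max S.card 1 ≤ 1 := pow_le_one₀ (by norm_num) (by norm_num)
    linarith
  -- the normal subgroup as a permutation group
  have hinj : Function.Injective (H.subtype.subgroupMap N) := by
    intro x y hxy
    have := congrArg Subtype.val hxy
    simp only [MonoidHom.subgroupMap_apply_coe] at this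
    exact Subtype.val_injective (Subtype.val_injective this)
  have hmap : SS S (N.map H.subtype) :=
    hS.of_surjective (H.subtype.subgroupMap N) (MonoidHom.subgroupMap_surjective H.subtype N)
  have h1 := hDU n hn (N.map H.subtype) hmap
  have h2 : DU N (Real.exp (C * (n : ℝ) ^ e * Real.log n ^ k)) :=
    h1.of_injective (H.subtype.subgroupMap N) hinj
  have h3 : DU (QuotientGroup.mk' N).ker (Real.exp (C * (n : ℝ) ^ e * Real.log n ^ k)) := by
    rw [QuotientGroup.ker_mk']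
    exact h2
  have h4 := Nil.DU.ext (QuotientGroup.mk' N) (Nil.DU.card (H ⧸ N)) h3
  have h5 := Nil.permIndex_le_of_DU h4
  have h6 : Nat.card (H ⧸ N) = N.index := rfl
  rw [h6] at h5
  have h7 := habs n e hn he0
  have h8 : Real.exp ((C' + C) * (n : ℝ) ^ e * Real.log n ^ k) =
      Real.exp (C' * (n : ℝ) ^ e * Real.log n ^ k) * Real.exp (C * (n : ℝ) ^ e * Real.log n ^ k) := by
    rw [← Real.exp_add]
    apply congrArg
    ring
  rw [h8]
  calc (permIndex H : ℝ) ≤ 4 * (N.index * Real.exp (C * (n : ℝ) ^ e * Real.log n ^ k)) := h5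
    _ = N.index * (4 * Real.exp (C * (n : ℝ) ^ e * Real.log n ^ k)) := by ring
    _ ≤ N.index * (Real.exp (C' * (n : ℝ) ^ e * Real.log n ^ k) *
          Real.exp (C * (n : ℝ) ^ e * Real.log n ^ k)) := by
        gcongr

end Pool.Agent.Lib.MP_c6e9f4_al.Bnd
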