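import Pool.Agent.Lib.MP_c6e9f4_al.Bnd.BDefs

/-!
ROW GO (150 lines). Goursat for nonabelian (only simplicity is used) simple groups `T i`, all of the same finite order `b`.
For a subgroup `H` of `∀ i, T i` and coordinates `i j` with `Full H i` let `N1 := {t : T i | ∃ h ∈ H, h i = t ∧ h j = 1}`: a subgroup of `T i`, normal since `H` is full at `i`
(conjugate by `h' ∈ H`), hence `⊥` or `⊤` (`IsSimpleGroup.eq_bot_or_eq_top_of_normal`).
* lnk_refl: `T i` is nontrivial: no `h` has `h i = 1` and `h i = t ≠ 1`. lnk_symm: swap.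
* lnk_iso: both full. If `N1 = ⊤` then every `(s, t)` is reached: `h j = t`, `g j = 1`, `g i = s * (h i)⁻¹`, `(g h) i = s`, `(g h) j = t`: contradiction to `Lnk`. So `N1 = ⊥`, and by symmetry
  (lnk_symm) the same with `i`, `j` exchanged. So for `h h' ∈ H`: `h i = h' i ↔ h j = h' j` (look at `h * h'⁻¹`). Define `φ t := (choose h) j`; a multiplicative bijection.
* full_of_lnk: `Lnk H i j`, `Full V i`, `V ≤ H`: by lnk_iso `g j = φ (g i)` for `g ∈ V`. lnk_trans: both full; if the projection to `(i, k)` were everything, then taking the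
  isomorphisms `g k = ψ (φ (g i))` gives a contradiction. lnk_mono: `Full V i`, `Full V j`; not onto the product since `V ≤ H`.
* cl_congr, mem_cl: `cl H i = filter (Lnk H i)`. cl_subset: from lnk_mono. cl_pos: `i ∈ cl H i`.
* pair_one: if `Full H j`: `¬ Lnk` gives it directly with `(t, 1)`. If not `Full H j`: `N1 = ⊤` gives it. If `N1 = ⊥` then `h j ↦ h i` is a well defined map of `P_j := {h j | h ∈ H}` onto `T i`, so
  `Nat.card (T j) = b = Nat.card (T i) ≤ Nat.card P_j`, so `P_j` is everything: contradiction to `¬ Full H j`. (Case `Full H j` includes nothing else; if `i = j` then `Lnk` holds.)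
-/

set_option autoImplicit false

namespace Pool.Agent.Lib.MP_c6e9f4_al.Bnd

open Pool.Agent.Lib.MP_c6e9f4_al.Exp (Bad DB LenFun)
open Pool.Agent.Lib.MP_c6e9f4_al.Nil (DU)

section

variable {ι : Type} {T : ι → Type} [∀ i, Group (T i)] {b : ℕ}

/-- the elements of the coordinate `i` of the members of `H` which are trivial at `j` -/
private def goN (H : Subgroup (∀ i, T i)) (i j : ι) : Subgroup (T i) where
  carrier := {t | ∃ h ∈ H, h i = t ∧ h j = 1}
  mul_mem' := by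
    rintro a b ⟨h, hH, rfl, hj⟩ ⟨g, gH, rfl, gj⟩
    exact ⟨h * g, H.mul_mem hH gH, rfl, by rw [Pi.mul_apply, hj, gj, one_mul]⟩
  one_mem' := ⟨1, H.one_mem, rfl, rfl⟩
  inv_mem' := by
    rintro a ⟨h, hH, rfl, hj⟩
    exact ⟨h⁻¹, H.inv_mem hH, rfl, by rw [Pi.inv_apply, hj, inv_one]⟩

private theorem goN_cases (hT : ∀ i, Simp b (T i)) {H : Subgroup (∀ i, T i)} {i : ι} (j : ι) (h : Full H i) :
    goN H i j = ⊥ ∨ goN H i j = ⊤ := by
  have := (hT i).simple
  have hn : (goN H i j).Normal := by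
    refine ⟨?_⟩
    rintro n ⟨g, gH, rfl, gj⟩ t
    obtain ⟨x, xH, rfl⟩ := h t
    exact ⟨x * g * x⁻¹, H.mul_mem (H.mul_mem xH gH) (H.inv_mem xH), rfl, by
      rw [Pi.mul_apply, Pi.mul_apply, Pi.inv_apply, gj, mul_one, mul_inv_cancel]⟩
  exact IsSimpleGroup.eq_bot_or_eq_top_of_normal (goN H i j) hn

private theorem goN_bot (hT : ∀ i, Simp b (T i)) {H : Subgroup (∀ i, T i)} {i j : ι} (h : Lnk H i j) :
    goN H i j = ⊥ := by
  rcases goN_cases hT j h.1 with h0 | h0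
  · exact h0
  · exfalso
    apply h.2.2
    intro s t
    obtain ⟨x, xH, hx⟩ := h.2.1 t
    have h1 : s * (x i)⁻¹ ∈ goN H i j := by rw [h0]; exact Subgroup.mem_top _
    obtain ⟨g, gH, g1, g2⟩ := h1
    exact ⟨g * x, H.mul_mem gH xH, by rw [Pi.mul_apply, g1, inv_mul_cancel_right],
      by rw [Pi.mul_apply, g2, one_mul, hx]⟩

private theorem go_eq {H : Subgroup (∀ i, T i)} {i j : ι} (h : goN H i j = ⊥) {g g' : ∀ i, T i}
    (hg : g ∈ H) (hg' : g' ∈ H) (e : g j = g' j) : g i = g' i := by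
  have h1 : (g * g'⁻¹) i ∈ goN H i j :=
    ⟨g * g'⁻¹, H.mul_mem hg (H.inv_mem hg'), rfl, by rw [Pi.mul_apply, Pi.inv_apply, e, mul_inv_cancel]⟩
  rw [h, Subgroup.mem_bot, Pi.mul_apply, Pi.inv_apply] at h1
  exact mul_inv_eq_one.1 h1

private theorem go_lnk_symm {H : Subgroup (∀ i, T i)} {i j : ι} (h : Lnk H i j) : Lnk H j i :=
  ⟨h.2.1, h.1, fun hall => h.2.2 fun s t => by
    obtain ⟨g, gH, h1, h2⟩ := hall t s
    exact ⟨g, gH, h2, h1⟩⟩

theorem lnk_refl (hT : ∀ i, Simp b (T i)) {H : Subgroup (∀ i, T i)} {i : ι} (h : Full H i) :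
    Lnk H i i := by
  refine ⟨h, h, fun hall => ?_⟩
  have := (hT i).simple
  obtain ⟨t, ht⟩ := exists_ne (1 : T i)
  obtain ⟨g, _, h1, h2⟩ := hall 1 t
  exact ht (h2.symm.trans h1)

theorem lnk_symm {H : Subgroup (∀ i, T i)} {i j : ι} (h : Lnk H i j) : Lnk H j i := go_lnk_symm h

theorem lnk_iso (hT : ∀ i, Simp b (T i)) {H : Subgroup (∀ i, T i)} {i j : ι} (h : Lnk H i j) :
    ∃ φ : T i ≃* T j, ∀ g ∈ H, g j = φ (g i) := by
  have hb := goN_bot hT h
  have hb' := goN_bot hT (go_lnk_symm h)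
  choose pick pH pe using h.1
  let f : T i →* T j := MonoidHom.mk' (fun t => pick t j) (by
    intro s t
    have h1 := go_eq hb' (pH (s * t)) (H.mul_mem (pH s) (pH t)) (by rw [pe, Pi.mul_apply, pe, pe])
    rw [h1, Pi.mul_apply])
  have hf : ∀ g ∈ H, g j = f (g i) := fun g hg => go_eq hb' hg (pH (g i)) (pe (g i)).symm
  refine ⟨MulEquiv.ofBijective f ⟨fun s t e => ?_, fun t => ?_⟩, hf⟩
  · have h1 := go_eq hb (pH s) (pH t) e
    rwa [pe, pe] at h1
  · obtain ⟨g, hg, rfl⟩ := h.2.1 t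
    exact ⟨g i, (hf g hg).symm⟩

theorem lnk_trans (hT : ∀ i, Simp b (T i)) {H : Subgroup (∀ i, T i)} {i j k : ι}
    (h : Lnk H i j) (h' : Lnk H j k) : Lnk H i k := by
  obtain ⟨φ, hφ⟩ := lnk_iso hT h
  obtain ⟨ψ, hψ⟩ := lnk_iso hT h'
  refine ⟨h.1, h'.2.1, fun hall => ?_⟩
  have := (hT k).simple
  obtain ⟨t, ht⟩ := exists_ne (1 : T k)
  obtain ⟨g, hg, h1, h2⟩ := hall 1 t
  apply ht
  rw [← h2, hψ g hg, hφ g hg, h1, map_one, map_one]

theorem full_mono {V H : Subgroup (∀ i, T i)} (h : V ≤ H) {i : ι} (hi : Full V i) :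
    Full H i := fun t => by
  obtain ⟨g, hg, e⟩ := hi t
  exact ⟨g, h hg, e⟩

theorem full_of_lnk (hT : ∀ i, Simp b (T i)) {V H : Subgroup (∀ i, T i)} (h : V ≤ H) {i j : ι}
    (hij : Lnk H i j) (hi : Full V i) : Full V j := by
  obtain ⟨φ, hφ⟩ := lnk_iso hT hij
  intro t
  obtain ⟨g, hg, e⟩ := hi (φ.symm t)
  exact ⟨g, hg, by rw [hφ g (h hg), e, MulEquiv.apply_symm_apply]⟩

theorem lnk_mono (hT : ∀ i, Simp b (T i)) {V H : Subgroup (∀ i, T i)} (h : V ≤ H) {i j : ι}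
    (hi : Full V i) (hij : Lnk H i j) : Lnk V i j := ⟨hi, full_of_lnk hT h hij hi, fun hall => hij.2.2 fun s t => by
    obtain ⟨g, gV, h1, h2⟩ := hall s t
    exact ⟨g, h gV, h1, h2⟩⟩

theorem pair_one (hT : ∀ i, Simp b (T i)) {H : Subgroup (∀ i, T i)} {i j : ι} (hi : Full H i)
    (hij : ¬ Lnk H i j) : ∀ t : T i, ∃ g ∈ H, g i = t ∧ g j = 1 := by
  intro t
  by_cases hj : Full H j
  · have h1 : ∀ (s : T i) (t : T j), ∃ h ∈ H, h i = s ∧ h j = t := by
      by_contra hcon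
      exact hij ⟨hi, hj, hcon⟩
    exact h1 t 1
  · rcases goN_cases hT j hi with h0 | h0
    · exfalso
      apply hj
      have := (hT j).fin
      have := (hT i).fin
      set P : Subgroup (T j) := H.map (Pi.evalMonoidHom T j) with hP
      have hx : ∀ x : P, ∃ g ∈ H, g j = x := fun x => by
        obtain ⟨g, hg, e⟩ := Subgroup.mem_map.1 x.2
        exact ⟨g, hg, e⟩
      choose pick pH pe using hx
      have hs : Function.Surjective fun x : P => pick x i := by
        intro s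
        obtain ⟨g, hg, e⟩ := hi s
        refine ⟨⟨g j, Subgroup.mem_map.2 ⟨g, hg, rfl⟩⟩, ?_⟩
        rw [← e]
        exact go_eq h0 (pH _) hg (pe _)
      have hc : Nat.card (T i) ≤ Nat.card P := Nat.card_le_card_of_surjective _ hs
      rw [(hT i).card, ← (hT j).card] at hc
      have htop : P = ⊤ := Subgroup.eq_top_of_le_card P hc
      intro s
      have h1 : s ∈ P := by rw [htop]; exact Subgroup.mem_top _
      obtain ⟨g, hg, e⟩ := Subgroup.mem_map.1 h1
      exact ⟨g, hg, e⟩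
    · have h1 : t ∈ goN H i j := by rw [h0]; exact Subgroup.mem_top _
      exact h1

variable [Fintype ι]

theorem mem_cl {H : Subgroup (∀ i, T i)} {i j : ι} : j ∈ cl H i ↔ Lnk H i j := by
  simp [cl]

theorem self_mem_cl (hT : ∀ i, Simp b (T i)) {H : Subgroup (∀ i, T i)} {i : ι} (h : Full H i) :
    i ∈ cl H i := mem_cl.2 (lnk_refl hT h)

theorem cl_congr (hT : ∀ i, Simp b (T i)) {H : Subgroup (∀ i, T i)} {i j : ι} (h : Lnk H i j) :
    cl H i = cl H j := by
  ext k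
  rw [mem_cl, mem_cl]
  exact ⟨fun h1 => lnk_trans hT (lnk_symm h) h1, fun h1 => lnk_trans hT h h1⟩

theorem cl_subset (hT : ∀ i, Simp b (T i)) {V H : Subgroup (∀ i, T i)} (h : V ≤ H) {i : ι}
    (hi : Full V i) : cl H i ⊆ cl V i := by
  intro k hk
  rw [mem_cl] at hk ⊢
  exact lnk_mono hT h hi hk

end

end Pool.Agent.Lib.MP_c6e9f4_al.Bnd
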