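import Pool.Agent.Lib.MP_c6e9f4_al.Bnd.SE
import Pool.Agent.Lib.MP_c6e9f4_al.Nil.E1

/-!
ROW PF (70 lines). Families of groups of prime order at most `β`: `DU ≤ (r β + 1) ^ β`, `r := card ι`.
Proof. For `p` let `I_p := {i | Nat.card (G i) = p}` and `A_p := ∀ i : I_p, G i`; for `p` prime it is commutative (`isCyclic_of_prime_card`, `IsCyclic.commGroup`, or: groups of prime order are commutative), `x ^ p = 1` (`pow_card_eq_one'`), of order `p ^ |I_p| ≤ p ^ r` (`Nat.card_pi`), so
`DU A_p (r (p - 1) + 1)` (DU_elementary; build the `CommGroup` instance with the given multiplication), and `r (p-1) + 1 ≤ r β + 1`. The map `(∀ i, G i) →* ∀ p : (primes ≤ β), A_p` is injective; there are at most `β` primes `≤ β` (subset of `Finset.Icc 1 β`): `DU.pi`, `DU.of_injective`, `DU.mono`.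
-/

set_option autoImplicit false

namespace Pool.Agent.Lib.MP_c6e9f4_al.Bnd

open Pool.Agent.Lib.MP_c6e9f4_al.Exp (Bad DB LenFun)
open Pool.Agent.Lib.MP_c6e9f4_al.Nil (DU DU.pi DU.mono DU.of_injective DU.of_subsingleton DU_elementary)

/-- The coordinates of one prime order. -/
private theorem PF_one (β : ℕ) (ι : Type) [Fintype ι] (G : ι → Type) [∀ i, Group (G i)] (p : ℕ) [Fact p.Prime]
    (hβ : p ≤ β) : DU (∀ i : {i : ι // Nat.card (G i) = p}, G i) ((Fintype.card ι : ℝ) * β + 1) := by
  classical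
  have hp : p.Prime := Fact.out
  have hfin : ∀ i : {i : ι // Nat.card (G i) = p}, Finite (G i) := fun i =>
    Nat.finite_of_card_ne_zero (by rw [i.2]; exact hp.ne_zero)
  have hcomm : ∀ (i : {i : ι // Nat.card (G i) = p}) (x y : G i), x * y = y * x := by
    intro i x y
    have : IsCyclic (G i) := isCyclic_of_prime_card i.2
    exact (IsCyclic.commGroup (α := G i)).mul_comm x y
  let inst : CommGroup (∀ i : {i : ι // Nat.card (G i) = p}, G i) :=
    { (inferInstance : Group (∀ i : {i : ι // Nat.card (G i) = p}, G i)) with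
      mul_comm := fun x y => funext fun i => hcomm i (x i) (y i) }
  have h1 : ∀ a : (∀ i : {i : ι // Nat.card (G i) = p}, G i), a ^ p = 1 := by
    intro a
    funext i
    have h2 : (a i) ^ Nat.card (G i) = 1 := pow_card_eq_one'
    rw [i.2] at h2
    exact h2
  have h3 : Nat.card (∀ i : {i : ι // Nat.card (G i) = p}, G i) ≤ p ^ Fintype.card ι := by
    rw [Nat.card_pi, Finset.prod_congr rfl fun i _ => i.2, Finset.prod_const, Finset.card_univ]
    exact Nat.pow_le_pow_right hp.pos (Fintype.card_subtype_le _)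
  have h4 := DU_elementary (A := ∀ i : {i : ι // Nat.card (G i) = p}, G i) p h1 (Fintype.card ι) h3
  refine h4.mono ?_
  have h5 : Fintype.card ι * (p - 1) + 1 ≤ Fintype.card ι * β + 1 := by
    have : Fintype.card ι * (p - 1) ≤ Fintype.card ι * β := Nat.mul_le_mul_left _ (by omega)
    omega
  calc ((Fintype.card ι * (p - 1) + 1 : ℕ) : ℝ) ≤ ((Fintype.card ι * β + 1 : ℕ) : ℝ) := by exact_mod_cast h5
    _ = (Fintype.card ι : ℝ) * β + 1 := by push_cast; ring

theorem DU_prime_family (β : ℕ) (ι : Type) [Fintype ι] (G : ι → Type) [∀ i, Group (G i)]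
    (h : ∀ i, (Nat.card (G i)).Prime ∧ Nat.card (G i) ≤ β) :
    DU (∀ i, G i) (((Fintype.card ι : ℝ) * β + 1) ^ β) := by
  classical
  have key : ∀ k : Fin β, DU (∀ i : {i : ι // Nat.card (G i) = (k : ℕ) + 1}, G i)
      ((Fintype.card ι : ℝ) * β + 1) := by
    intro k
    by_cases hp : ((k : ℕ) + 1).Prime
    · have := Fact.mk hp
      exact PF_one β ι G ((k : ℕ) + 1) (by omega)
    · have he : IsEmpty {i : ι // Nat.card (G i) = (k : ℕ) + 1} :=
        ⟨fun i => hp (i.2 ▸ (h i.1).1)⟩
      refine (DU.of_subsingleton _).mono ?_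
      have : 0 ≤ (Fintype.card ι : ℝ) * β := by positivity
      linarith
  have h1 := DU.pi (fun k : Fin β => ∀ i : {i : ι // Nat.card (G i) = (k : ℕ) + 1}, G i)
    (fun _ => (Fintype.card ι : ℝ) * β + 1) key
  rw [Finset.prod_const, Finset.card_univ, Fintype.card_fin] at h1
  let f : (∀ i, G i) →* (∀ k : Fin β, ∀ i : {i : ι // Nat.card (G i) = (k : ℕ) + 1}, G i) :=
    { toFun := fun x _ i => x i
      map_one' := rfl
      map_mul' := fun _ _ => rfl }
  refine h1.of_injective f fun x y hxy => ?_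
  funext i
  have h2 := (h i).1.pos
  have h3 := (h i).2
  have h4 : Nat.card (G i) = (((⟨Nat.card (G i) - 1, by omega⟩ : Fin β) : ℕ)) + 1 := by
    show Nat.card (G i) = Nat.card (G i) - 1 + 1
    omega
  exact congrFun (congrFun hxy ⟨Nat.card (G i) - 1, by omega⟩) ⟨i, h4⟩

end Pool.Agent.Lib.MP_c6e9f4_al.Bnd
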