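import Pool.Agent.Lib.MP_c6e9f4_al.Bnd.MX
import Pool.Agent.Lib.MP_c6e9f4_al.Bnd.PF

/-!
ROW IN (130 lines). From simple groups to groups of bounded order. Induction on `β`.
`β = 0`: a finite group has positive order and `card ι ≥ 1`: impossible; `C = 0`, `k = 0`. `β = 1` (step from 0): all groups are trivial, `DU.of_subsingleton`. Step `β → β + 1`, `β ≥ 1`: choose `N i` by `max_normal`. The map `F : (∀ i, G i) →* (∀ i, G i ⧸ N i)`; its kernel embeds in `∀ i, N i`, whose `DU` is bounded by the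
induction hypothesis (`SS.of_injective`). The quotients `Q i := G i ⧸ N i`: let `I1 := {i | (Nat.card (Q i)).Prime ∧ Nat.card (Q i) ≤ β + 1}`, `I2 := {i | i ∉ I1 ∧ ∃ b ∈ S, Simp b (Q i)}`; outside `Q i` is trivial. `DU_two` for the restrictions to `I1` and `I2`: `DU_prime_family (β + 1)`:
`(r (β+1) + 1)^(β+1) ≤ exp (c r^a log (r+2))`, as `log (r (β+1) + 1) ≤ log (β + 2) + log (r + 2) ≤ (1 + log (β+2)) log (r+2)` and `r ^ a ≥ 1`; and `QQ` for `I2` if it is nonempty (otherwise `DU.of_subsingleton`), monotone in the number `card I2 ≤ r` (`a ≥ 0`).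
In total `exp ((C1 + C2 + c) r^a log(r+2)^(max k1 k2 1))` as `log (r+2) ≥ log 3 ≥ 1`.
-/

set_option autoImplicit false

namespace Pool.Agent.Lib.MP_c6e9f4_al.Bnd

open Pool.Agent.Lib.MP_c6e9f4_al.Exp (Bad DB LenFun)
open Pool.Agent.Lib.MP_c6e9f4_al.Nil (DU)

private theorem IN_num (β r k1 k2 : ℕ) (hr : 1 ≤ r) (a C1 C2 : ℝ) (ha : 0 ≤ a) (hC1 : 0 ≤ C1)
    (hC2 : 0 ≤ C2) (r1 : ℕ) (hr1 : r1 ≤ r) (d2 : ℝ)
    (hd2 : d2 ≤ Real.exp (C2 * (r : ℝ) ^ a * Real.log ((r : ℝ) + 2) ^ k2)) :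
    ((((r1 : ℝ) * ((β + 1 : ℕ) : ℝ) + 1) ^ (β + 1)) * d2) *
        Real.exp (C1 * (r : ℝ) ^ a * Real.log ((r : ℝ) + 2) ^ k1) ≤
      Real.exp ((C1 + C2 + ((β : ℝ) + 1) * (1 + Real.log ((β : ℝ) + 2))) * (r : ℝ) ^ a *
        Real.log ((r : ℝ) + 2) ^ (k1 + k2 + 1)) := by
  have hr' : (1 : ℝ) ≤ r := by exact_mod_cast hr
  have hβ0 : (0 : ℝ) ≤ β := Nat.cast_nonneg β
  have hra : (1 : ℝ) ≤ (r : ℝ) ^ a := Real.one_le_rpow hr' ha
  set L : ℝ := Real.log ((r : ℝ) + 2) with hL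
  have hL1 : 1 ≤ L := by
    rw [hL, Real.le_log_iff_exp_le (by linarith)]
    have := Real.exp_one_lt_d9
    linarith
  have hL0 : 0 ≤ L := by linarith
  have hlb : 0 ≤ Real.log ((β : ℝ) + 2) := Real.log_nonneg (by linarith)
  set M : ℝ := L ^ (k1 + k2 + 1) with hM
  have hM1 : L ^ k1 ≤ M := pow_le_pow_right₀ hL1 (by omega)
  have hM2 : L ^ k2 ≤ M := pow_le_pow_right₀ hL1 (by omega)
  have hM3 : L ≤ M := by
    calc L = L ^ 1 := (pow_one L).symm
      _ ≤ M := pow_le_pow_right₀ hL1 (by omega)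
  have hr1' : (r1 : ℝ) ≤ r := by exact_mod_cast hr1
  have hr10 : (0 : ℝ) ≤ r1 := Nat.cast_nonneg r1
  have hb0 : (0 : ℝ) < (r1 : ℝ) * ((β + 1 : ℕ) : ℝ) + 1 := by positivity
  have hb : (r1 : ℝ) * ((β + 1 : ℕ) : ℝ) + 1 ≤ ((β : ℝ) + 2) * ((r : ℝ) + 2) := by
    push_cast
    nlinarith [mul_le_mul_of_nonneg_right hr1' (by linarith : (0 : ℝ) ≤ (β : ℝ) + 1)]
  have hlog : Real.log ((r1 : ℝ) * ((β + 1 : ℕ) : ℝ) + 1) ≤ (1 + Real.log ((β : ℝ) + 2)) * L := by
    calc Real.log ((r1 : ℝ) * ((β + 1 : ℕ) : ℝ) + 1)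
        ≤ Real.log (((β : ℝ) + 2) * ((r : ℝ) + 2)) := Real.log_le_log hb0 hb
      _ = Real.log ((β : ℝ) + 2) + L := by
          rw [Real.log_mul (by linarith) (by linarith)]
      _ ≤ (1 + Real.log ((β : ℝ) + 2)) * L := by nlinarith
  have hpow : ((r1 : ℝ) * ((β + 1 : ℕ) : ℝ) + 1) ^ (β + 1) ≤
      Real.exp ((((β : ℝ) + 1) * (1 + Real.log ((β : ℝ) + 2))) * (r : ℝ) ^ a * M) := by
    rw [← Real.exp_log (pow_pos hb0 (β + 1)), Real.log_pow]
    apply Real.exp_le_exp.2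
    push_cast at hlog ⊢
    have h1 : ((β : ℝ) + 1) * Real.log ((r1 : ℝ) * ((β : ℝ) + 1) + 1) ≤
        ((β : ℝ) + 1) * ((1 + Real.log ((β : ℝ) + 2)) * L) :=
      mul_le_mul_of_nonneg_left hlog (by linarith)
    have h2 : L ≤ (r : ℝ) ^ a * M := by nlinarith
    have h3 : ((β : ℝ) + 1) * ((1 + Real.log ((β : ℝ) + 2)) * L) ≤
        ((β : ℝ) + 1) * ((1 + Real.log ((β : ℝ) + 2)) * ((r : ℝ) ^ a * M)) :=
      mul_le_mul_of_nonneg_left (mul_le_mul_of_nonneg_left h2 (by linarith)) (by linarith)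
    calc ((β : ℝ) + 1) * Real.log ((r1 : ℝ) * ((β : ℝ) + 1) + 1)
        ≤ ((β : ℝ) + 1) * ((1 + Real.log ((β : ℝ) + 2)) * ((r : ℝ) ^ a * M)) := h1.trans h3
      _ = _ := by ring
  have hd2' : d2 ≤ Real.exp (C2 * (r : ℝ) ^ a * M) := by
    refine hd2.trans (Real.exp_le_exp.2 ?_)
    exact mul_le_mul_of_nonneg_left hM2 (by positivity)
  have h3 : Real.exp (C1 * (r : ℝ) ^ a * L ^ k1) ≤ Real.exp (C1 * (r : ℝ) ^ a * M) :=
    Real.exp_le_exp.2 (mul_le_mul_of_nonneg_left hM1 (by positivity))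
  calc ((((r1 : ℝ) * ((β + 1 : ℕ) : ℝ) + 1) ^ (β + 1)) * d2) *
        Real.exp (C1 * (r : ℝ) ^ a * L ^ k1)
      ≤ (Real.exp ((((β : ℝ) + 1) * (1 + Real.log ((β : ℝ) + 2))) * (r : ℝ) ^ a * M) *
          Real.exp (C2 * (r : ℝ) ^ a * M)) * Real.exp (C1 * (r : ℝ) ^ a * M) := by
        refine mul_le_mul ?_ h3 (Real.exp_pos _).le (by positivity)
        calc ((r1 : ℝ) * ((β + 1 : ℕ) : ℝ) + 1) ^ (β + 1) * d2
            ≤ ((r1 : ℝ) * ((β + 1 : ℕ) : ℝ) + 1) ^ (β + 1) * Real.exp (C2 * (r : ℝ) ^ a * M) :=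
              mul_le_mul_of_nonneg_left hd2' (by positivity)
          _ ≤ _ := mul_le_mul_of_nonneg_right hpow (Real.exp_pos _).le
    _ = _ := by
        rw [← Real.exp_add, ← Real.exp_add]
        congr 1
        ring

theorem inner (S : Finset ℕ) (a : ℝ) (ha : 0 ≤ a) (h : QQ S a) (β : ℕ) : Pw S β a := by
  classical
  obtain ⟨C2, k2, hC2, h2⟩ := h
  induction β with
  | zero =>
    refine ⟨0, 0, le_rfl, ?_⟩
    intro ι _ G _ hι hG
    exfalso
    obtain ⟨i⟩ : Nonempty ι := Fintype.card_pos_iff.1 hι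
    obtain ⟨hf, hc, _⟩ := hG i
    haveI := hf
    have := Nat.card_pos (α := G i)
    omega
  | succ β ih =>
    obtain ⟨C1, k1, hC1, h1⟩ := ih
    have hlb : 0 ≤ Real.log ((β : ℝ) + 2) :=
      Real.log_nonneg (by linarith [(Nat.cast_nonneg β : (0 : ℝ) ≤ (β : ℝ))])
    refine ⟨C1 + C2 + ((β : ℝ) + 1) * (1 + Real.log ((β : ℝ) + 2)), k1 + k2 + 1,
      by positivity, ?_⟩
    intro ι _ G _ hι hG
    haveI hfin : ∀ i, Finite (G i) := fun i => (hG i).1
    rcases Nat.eq_zero_or_pos β with hβ | hβ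
    · haveI : ∀ i, Subsingleton (G i) := by
        intro i
        have hc := (hG i).2.1
        have hp := Nat.card_pos (α := G i)
        rw [hβ] at hc
        exact (Nat.card_eq_one_iff_unique.1 (by omega)).1
      refine (DU.of_subsingleton (∀ i, G i)).mono ?_
      apply Real.one_le_exp
      have hL : 0 ≤ Real.log ((Fintype.card ι : ℝ) + 2) :=
        Real.log_nonneg (by linarith [(Nat.cast_nonneg (Fintype.card ι) : (0 : ℝ) ≤ (Fintype.card ι : ℝ))])
      positivity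
    · choose N hN hNc hNq using fun i => max_normal hβ (hG i).2.1 (hG i).2.2
      haveI : ∀ i, (N i).Normal := hN
      set F : (∀ i, G i) →* (∀ i, G i ⧸ N i) :=
        { toFun := fun x i => (QuotientGroup.mk (x i) : G i ⧸ N i)
          map_one' := by funext i; rfl
          map_mul' := by intro x y; funext i; rfl } with hF
      let I1 : Set ι := {i | (Nat.card (G i ⧸ N i)).Prime ∧ Nat.card (G i ⧸ N i) ≤ β + 1}
      let I2 : Set ι := {i | i ∉ I1 ∧ ∃ b ∈ S, Simp b (G i ⧸ N i)}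
      have hI1 : Fintype.card I1 ≤ Fintype.card ι :=
        Fintype.card_le_of_injective Subtype.val Subtype.val_injective
      have hI2 : Fintype.card I2 ≤ Fintype.card ι :=
        Fintype.card_le_of_injective Subtype.val Subtype.val_injective
      have hA : DU (∀ i : I1, G i ⧸ N i)
          (((Fintype.card I1 : ℝ) * ((β + 1 : ℕ) : ℝ) + 1) ^ (β + 1)) :=
        DU_prime_family (β + 1) I1 (fun i => G i ⧸ N i) (fun i => i.2)
      obtain ⟨d2, hd2, hB⟩ : ∃ d2 : ℝ, d2 ≤ Real.exp (C2 * (Fintype.card ι : ℝ) ^ a *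
          Real.log ((Fintype.card ι : ℝ) + 2) ^ k2) ∧ DU (∀ i : I2, G i ⧸ N i) d2 := by
        rcases Nat.eq_zero_or_pos (Fintype.card I2) with h0 | h0
        · haveI : IsEmpty I2 := Fintype.card_eq_zero_iff.1 h0
          refine ⟨1, ?_, DU.of_subsingleton _⟩
          apply Real.one_le_exp
          have hL : 0 ≤ Real.log ((Fintype.card ι : ℝ) + 2) :=
            Real.log_nonneg (by linarith [(Nat.cast_nonneg (Fintype.card ι) : (0 : ℝ) ≤ (Fintype.card ι : ℝ))])
          positivity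
        · refine ⟨_, ?_, h2 I2 (fun i => G i ⧸ N i) h0 (fun i => ⟨i.2.2,
            SS.of_surjective (hG i).2.2 (QuotientGroup.mk' (N i))
              (QuotientGroup.mk'_surjective (N i))⟩)⟩
          have hc : (Fintype.card I2 : ℝ) ≤ Fintype.card ι := by exact_mod_cast hI2
          have hc0 : (0 : ℝ) ≤ (Fintype.card I2 : ℝ) := Nat.cast_nonneg _
          apply Real.exp_le_exp.2
          have e1 : (Fintype.card I2 : ℝ) ^ a ≤ (Fintype.card ι : ℝ) ^ a :=
            Real.rpow_le_rpow hc0 hc ha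
          have e2 : Real.log ((Fintype.card I2 : ℝ) + 2) ^ k2 ≤
              Real.log ((Fintype.card ι : ℝ) + 2) ^ k2 :=
            pow_le_pow_left₀ (Real.log_nonneg (by linarith))
              (Real.log_le_log (by linarith) (by linarith)) k2
          have e3 : 0 ≤ Real.log ((Fintype.card I2 : ℝ) + 2) ^ k2 :=
            pow_nonneg (Real.log_nonneg (by linarith)) k2
          exact mul_le_mul (mul_le_mul_of_nonneg_left e1 hC2) e2 e3 (by positivity)
      have hQ : DU (∀ i, G i ⧸ N i)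
          ((((Fintype.card I1 : ℝ) * ((β + 1 : ℕ) : ℝ) + 1) ^ (β + 1)) * d2) := by
        refine DU_two (res I1) (res I2) ?_ hA hB
        intro x hx1 hx2
        funext i
        by_cases hi1 : i ∈ I1
        · exact congrFun hx1 ⟨i, hi1⟩
        · by_cases hi2 : i ∈ I2
          · exact congrFun hx2 ⟨i, hi2⟩
          · rcases hNq i with h3 | h3 | h3
            · exact h3 (x i)
            · exact absurd h3 hi1
            · exact absurd ⟨hi1, h3⟩ hi2
      have hK : DU F.ker (Real.exp (C1 * (Fintype.card ι : ℝ) ^ a *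
          Real.log ((Fintype.card ι : ℝ) + 2) ^ k1)) := by
        have hN1 := h1 ι (fun i => N i) hι (fun i => ⟨inferInstance, hNc i,
          SS.of_injective (hG i).2.2 (N i).subtype (N i).subtype_injective⟩)
        have hmem : ∀ (x : F.ker) (i : ι), (x : ∀ i, G i) i ∈ N i := by
          intro x i
          have hx : F (x : ∀ i, G i) = 1 := x.2
          exact (QuotientGroup.eq_one_iff _).1 (congrFun hx i)
        refine hN1.of_injective
          { toFun := fun x i => (⟨(x : ∀ i, G i) i, hmem x i⟩ : N i)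
            map_one' := by funext i; rfl
            map_mul' := by intro x y; funext i; rfl } ?_
        intro x y hxy
        apply Subtype.ext
        funext i
        exact congrArg Subtype.val (congrFun hxy i)
      refine (DU.ext F hQ hK).mono ?_
      exact IN_num β (Fintype.card ι) k1 k2 hι a C1 C2 ha hC1 hC2 (Fintype.card I1) hI1 d2 hd2

end Pool.Agent.Lib.MP_c6e9f4_al.Bnd
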