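import Pool.Agent.Lib.MP_c6e9f4_al.Bnd.KG
import Pool.Agent.Lib.MP_c6e9f4_al.Bnd.CF

/-!
ROW KB (80 lines). All blocks together: `nsq (Avg (V 0 ++ ... ++ V (m-1)) g) ≤ (1 - κ) ^ (m - nbad) * nsq g`.
Proof. For a list `L` of blocks (entries in `H`) prove `nsq (Avg L.flatten g) ≤ (1 - κ) ^ (number of good blocks in L) * nsq g` by induction on `L`: `Avg (v ++ L.flatten) g = Avg v (Avg L.flatten g)` (avg_append), and `Avg L.flatten g` has
the properties (h0), (h1) by AN_avg with Nn_conj (and avg_zero); so `good_contract` or `nsq_avg_le`. `0 ≤ 1 - κ ≤ 1` (`Lam ≥ 1` since `b ≥ 1`; if `ι` is empty `J` is empty and no block is good: then use only `0 ≤ 1 - κ` for the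
power... the good count is then 0; note `kap b r ≤ 1` holds whenever `Lam b r ≥ 1`, and for `b = 0`, `kap = 0`). For `L = List.ofFn V` the number of good blocks is `m - nbad` (`List.countP`, `List.ofFn`, Finset.filter card; a convenient form:
`∏ k, (if GoodFor .. then 1 - κ else 1)` by induction on `m` with `Fin.prod_univ_succ`, `List.ofFn_succ`).
-/

set_option autoImplicit false

namespace Pool.Agent.Lib.MP_c6e9f4_al.Bnd

open Pool.Agent.Lib.MP_c6e9f4_al.Exp (Bad DB LenFun)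
open Pool.Agent.Lib.MP_c6e9f4_al.Nil (DU)

private theorem KB_kap (b r : ℕ) : 0 ≤ 1 - kap b r ∧ 1 - kap b r ≤ 1 := by
  unfold kap
  rcases Nat.eq_zero_or_pos (Lam b r) with h | h
  · rw [h]; simp
  · have h1 : (1 : ℝ) ≤ (Lam b r : ℝ) := by exact_mod_cast h
    have h2 : (1 : ℝ) ≤ ((r * b + 1 : ℕ) : ℝ) := by
      exact_mod_cast Nat.succ_le_succ (Nat.zero_le (r * b))
    have h3 : (1 : ℝ) ≤ (Lam b r : ℝ) ^ 2 := one_le_pow₀ h1
    have h4 : (1 : ℝ) ≤ ((r * b + 1 : ℕ) : ℝ) ^ 2 := one_le_pow₀ h2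
    have h5 : (1 : ℝ) ≤ (Lam b r : ℝ) ^ 2 * ((r * b + 1 : ℕ) : ℝ) ^ 2 := one_le_mul_of_one_le_of_one_le h3 h4
    have h6 : (1 : ℝ) ≤ 32 * (Lam b r : ℝ) ^ 2 * ((r * b + 1 : ℕ) : ℝ) ^ 2 := by nlinarith
    have h7 : 1 / (32 * (Lam b r : ℝ) ^ 2 * ((r * b + 1 : ℕ) : ℝ) ^ 2) ≤ 1 := by
      rw [div_le_one (by linarith)]; exact h6
    have h8 : 0 ≤ 1 / (32 * (Lam b r : ℝ) ^ 2 * ((r * b + 1 : ℕ) : ℝ) ^ 2) := by positivity
    constructor <;> linarith

open Classical in
private theorem KB_aux {ι : Type} [Fintype ι] {T : ι → Type} [∀ i, Group (T i)]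
    [Fintype (∀ i, T i)] {b : ℕ} (hT : ∀ i, Simp b (T i)) (H : Subgroup (∀ i, T i)) (J : Finset ι)
    (hJf : ∀ i ∈ J, Full H i) (g : (∀ i, T i) → ℝ)
    (h0 : ∀ i ∈ J, AN (Nn H i) g = fun _ => 0)
    (h1 : ∀ i, Full H i → i ∉ J → AN (Nn H i) g = g) :
    ∀ {m : ℕ} (V : Fin m → List (∀ i, T i)), (∀ k, ∀ v ∈ V k, v ∈ H) →
    nsq (Avg (List.ofFn V).flatten g) ≤
      (∏ k, (if GoodFor (gen (V k)) H J then 1 - kap b (Fintype.card ι) else 1)) * nsq g := by
  intro m
  induction m with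
  | zero =>
    intro V _
    simp [Avg]
  | succ m ih =>
    intro V hV
    rw [List.ofFn_succ, List.flatten_cons, avg_append, Fin.prod_univ_succ]
    have hmem : ∀ c ∈ (List.ofFn (fun i : Fin m => V i.succ)).flatten, c ∈ H := by
      intro c hc
      rw [List.mem_flatten] at hc
      obtain ⟨l, hl, hcl⟩ := hc
      rw [List.mem_ofFn] at hl
      obtain ⟨k, rfl⟩ := hl
      exact hV k.succ c hcl
    set g' := Avg (List.ofFn (fun i : Fin m => V i.succ)).flatten g with hg'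
    have e0 : ∀ i, AN (Nn H i) g' = Avg (List.ofFn (fun i : Fin m => V i.succ)).flatten (AN (Nn H i) g) := by
      intro i
      exact AN_avg (Nn H i) _ (fun c hc => Nn_conj i c (hmem c hc)) g
    have h0' : ∀ i ∈ J, AN (Nn H i) g' = fun _ => 0 := by
      intro i hi
      rw [e0 i, h0 i hi, avg_zero]
    have h1' : ∀ i, Full H i → i ∉ J → AN (Nn H i) g' = g' := by
      intro i hi hiJ
      rw [e0 i, h1 i hi hiJ]
    have hih := ih (fun i => V i.succ) (fun k => hV k.succ)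
    obtain ⟨hk0, hk1⟩ := KB_kap b (Fintype.card ι)
    have hstep : nsq (Avg (V 0) g') ≤
        (if GoodFor (gen (V 0)) H J then 1 - kap b (Fintype.card ι) else 1) * nsq g' := by
      split_ifs with hgd
      · exact good_contract hT (V 0) H (hV 0) J hJf hgd g' h0' h1'
      · rw [one_mul]; exact nsq_avg_le _ _
    refine hstep.trans ?_
    have hc0 : 0 ≤ (if GoodFor (gen (V 0)) H J then 1 - kap b (Fintype.card ι) else (1 : ℝ)) := by
      split_ifs
      · exact hk0
      · exact zero_le_one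
    calc _ ≤ (if GoodFor (gen (V 0)) H J then 1 - kap b (Fintype.card ι) else 1) *
          ((∏ k : Fin m, (if GoodFor (gen (V k.succ)) H J then 1 - kap b (Fintype.card ι) else 1)) * nsq g) :=
        mul_le_mul_of_nonneg_left hih hc0
      _ = _ := by rw [mul_assoc]

theorem block_contract {ι : Type} [Fintype ι] {T : ι → Type} [∀ i, Group (T i)]
    [Fintype (∀ i, T i)] {b : ℕ} (hT : ∀ i, Simp b (T i)) {m : ℕ} (V : Fin m → List (∀ i, T i))
    (H : Subgroup (∀ i, T i)) (hV : ∀ k, ∀ v ∈ V k, v ∈ H) (J : Finset ι)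
    (hJf : ∀ i ∈ J, Full H i) (g : (∀ i, T i) → ℝ)
    (h0 : ∀ i ∈ J, AN (Nn H i) g = fun _ => 0)
    (h1 : ∀ i, Full H i → i ∉ J → AN (Nn H i) g = g) :
    nsq (Avg (List.ofFn V).flatten g) ≤
      (1 - kap b (Fintype.card ι)) ^ (m - nbad (fun k => gen (V k)) H J) * nsq g := by
  classical
  have h := KB_aux hT H J hJf g h0 h1 V hV
  refine h.trans (le_of_eq ?_)
  congr 1
  rw [Finset.prod_ite, Finset.prod_const, Finset.prod_const_one, mul_one]
  congr 1
  unfold nbad
  have hc := Finset.card_filter_add_card_filter_not (s := (Finset.univ : Finset (Fin m)))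
    (fun k => GoodFor (gen (V k)) H J)
  rw [Finset.card_univ, Fintype.card_fin] at hc
  have e2 : (Finset.univ.filter (fun k : Fin m => GoodFor (gen (V k)) H J)).card =
      m - (Finset.univ.filter (fun k : Fin m => ¬ GoodFor (gen (V k)) H J)).card := by
    omega
  convert e2 using 3


end Pool.Agent.Lib.MP_c6e9f4_al.Bnd
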