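import Pool.Agent.Lib.MP_c6e9f4_al.Bnd.AV

/-!
ROW OL (120 lines). Ordered form of a lemma of Olson: if every bad list with entries in `K` has length at most `d - 1`, then for every list `l` in `K` the
number of sublists (index subsets) with product 1 is at least `2 ^ (l.length - d)`; here `Avg l (ind {1}) 1` is this number divided by `2 ^ l.length`.
* db_of_du: lift a list with entries in `K` to the subtype (`List.attach`, see Nil/B1 `DU.ext`); badness is reflected by the injective `K.subtype`.
* olson_lb: induction, `Avg l f ≥ 0` for `f ≥ 0` (avg_nonneg), `lt v f 1 ≥ 0`.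
* bad_avg: prove `Avg l (ind {1}) x = (number of sublists in l.sublists with product x) / 2 ^ length` by induction, or: by induction on `l` prove that for
  every `x`, if no nonempty sublist has product `x` then `Avg l (ind {1}) x = (1/2) ^ length * ind {1} x`; step: `Avg (v :: l) f x = (Avg l f x + Avg l f (v⁻¹ x)) / 2`, apply the
  induction hypothesis to `x`, and to `v⁻¹ x` (no nonempty sublist `s` of `l` has product `v⁻¹ x`, as `v :: s` has product `x`; and `v⁻¹ x ≠ 1`, as `[v]` has product `x`).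
* avg_ker: induction: `Avg l (fun x => F (φ x)) x = Avg (l.map φ) F (φ x)`, and `ind φ.ker = fun x => ind {1} (φ x)`.
* avg_congr: induction.
* olson_move: if `s` is a sublist of `l` then for all `P` and `f` there is `z` with `z.length = l.length`, entries in `K`, and `lt P (Avg l f) = Avg z (lt (P * s.prod) f)`.
  (`z` independent of `f`; the statement below has `z` before `f`.) Induction on the sublist relation, with the operator identities
  `lt P ((F + lt a F)/2) = (lt P F + lt (P a P⁻¹) (lt P F))/2` (case `a` not in `s`; new entry `P a P⁻¹`) and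
  `(F + lt a F)/2 = (F' + lt a⁻¹ F')/2`, `F' = lt a F` (case `a` in `s`; new entry `P a⁻¹ P⁻¹`... precisely
  `lt P ((F + lt a F)/2) = (lt (P a) F + lt (P a⁻¹ P⁻¹) (lt (P a) F))/2`, and continue with `P a` in place of `P`).
* olson: strong induction on the length of `l`. If `l` is bad then `l.length + 1 ≤ d` and olson_lb gives the claim. Otherwise there is a nonempty sublist `x :: s'` with
  product 1, so `l = p ++ x :: q` with `s'` a sublist of `q` (`List.cons_sublist_iff`: `∃ r1 r2, l = r1 ++ r2 ∧ x ∈ r1 ∧ s'.Sublist r2`, or an own induction).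
  `Avg l f = (Avg (p ++ q) f + Avg p (lt x (Avg q f)))/2` and by olson_move with `P = x` : `lt x (Avg q f) = Avg z (lt (x * s'.prod) f) = Avg z f`, so the second
  term is `Avg (p ++ z) f`. Both lists have length `l.length - 1`.
-/

set_option autoImplicit false

namespace Pool.Agent.Lib.MP_c6e9f4_al.Bnd

open Pool.Agent.Lib.MP_c6e9f4_al.Exp (Bad DB LenFun)
open Pool.Agent.Lib.MP_c6e9f4_al.Nil (DU)

variable {G : Type} [Group G]

theorem db_of_du (K : Subgroup G) {d : ℝ} (h : DU K d) : DB (K : Set G) d := by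
  intro l hl hb
  obtain ⟨w, hw⟩ : ∃ w : List K, w.map K.subtype = l :=
    ⟨l.attach.map (fun g => (⟨g.1, hl g.1 g.2⟩ : K)), by
      rw [List.map_map]
      exact l.attach_map_subtype_val⟩
  have hwb : Bad w := by
    intro s hs hne h1
    refine hb (s.map K.subtype) ?_ (fun h => hne (List.map_eq_nil_iff.1 h)) ?_
    · rw [← hw]
      exact hs.map _
    · rw [← map_list_prod, h1, map_one]
  have h2 := h w (fun g _ => Set.mem_univ g) hwb
  rwa [← hw, List.length_map]

private theorem OL_cons (v : G) (l : List G) (f : G → ℝ) (x : G) :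
    Avg (v :: l) f x = (Avg l f x + Avg l f (v⁻¹ * x)) / 2 := rfl

omit [Group G] in
private theorem OL_ind_nonneg (A : Set G) (x : G) : 0 ≤ ind A x := by
  unfold ind
  split_ifs <;> norm_num

private theorem OL_ind_one : ind ({1} : Set G) 1 = 1 := by
  unfold ind
  rw [if_pos (Set.mem_singleton 1)]

theorem olson_lb (l : List G) : (1 / 2 : ℝ) ^ l.length ≤ Avg l (ind {1}) 1 := by
  induction l with
  | nil =>
    show (1 / 2 : ℝ) ^ 0 ≤ ind {1} 1
    rw [OL_ind_one, pow_zero]
  | cons v l ih =>
    rw [OL_cons, List.length_cons, pow_succ]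
    have h1 := avg_nonneg l (ind {1}) (OL_ind_nonneg {1}) (v⁻¹ * 1)
    linarith

private theorem OL_bad (l : List G) : ∀ x : G, (∀ s : List G, s.Sublist l → s ≠ [] → s.prod ≠ x) →
    Avg l (ind {1}) x = (1 / 2 : ℝ) ^ l.length * ind {1} x := by
  induction l with
  | nil =>
    intro x _
    show ind {1} x = (1 / 2 : ℝ) ^ 0 * ind {1} x
    rw [pow_zero, one_mul]
  | cons v l ih =>
    intro x hx
    have h1 := ih x (fun s hs => hx s (hs.cons v))
    have h2 := ih (v⁻¹ * x) (fun s hs _ he => by
      refine hx (v :: s) (hs.cons_cons v) (List.cons_ne_nil _ _) ?_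
      rw [List.prod_cons, he, mul_inv_cancel_left])
    have h3 : ind ({1} : Set G) (v⁻¹ * x) = 0 := by
      unfold ind
      rw [if_neg]
      intro h
      refine hx [v] ((List.nil_sublist l).cons_cons v) (List.cons_ne_nil _ _) ?_
      rw [List.prod_singleton]
      exact inv_mul_eq_one.1 (Set.mem_singleton_iff.1 h)
    rw [OL_cons, h1, h2, h3, List.length_cons, pow_succ]
    ring

theorem bad_avg (l : List G) (hl : Bad l) : Avg l (ind {1}) 1 = (1 / 2 : ℝ) ^ l.length := by
  rw [OL_bad l 1 hl, OL_ind_one, mul_one]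

private theorem OL_ker {K : Type} [Group K] (φ : G →* K) (F : K → ℝ) (l : List G) :
    ∀ x : G, Avg l (fun y => F (φ y)) x = Avg (l.map φ) F (φ x) := by
  induction l with
  | nil => exact fun x => rfl
  | cons v l ih =>
    intro x
    rw [List.map_cons, OL_cons, OL_cons, ih, ih, map_mul, map_inv]

theorem avg_ker {K : Type} [Group K] (φ : G →* K) (l : List G) :
    Avg l (ind (φ.ker : Set G)) 1 = Avg (l.map φ) (ind {1}) 1 := by
  have h1 : ind (φ.ker : Set G) = fun y => ind ({1} : Set K) (φ y) := by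
    funext y
    unfold ind
    by_cases h : φ y = 1
    · rw [if_pos (Set.mem_singleton_iff.2 h), if_pos (show y ∈ (φ.ker : Set G) from φ.mem_ker.2 h)]
    · rw [if_neg (fun h' => h (Set.mem_singleton_iff.1 h')),
        if_neg (fun h' : y ∈ (φ.ker : Set G) => h (φ.mem_ker.1 h'))]
  rw [h1, OL_ker, map_one]

theorem avg_congr (H : Subgroup G) (l : List G) (hl : ∀ g ∈ l, g ∈ H) (f f' : G → ℝ)
    (h : ∀ x ∈ H, f x = f' x) : ∀ x ∈ H, Avg l f x = Avg l f' x := by
  induction l with
  | nil => exact h
  | cons v l ih =>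
    intro x hx
    have h1 := ih (fun g hg => hl g (List.mem_cons_of_mem v hg))
    rw [OL_cons, OL_cons, h1 x hx, h1 _ (H.mul_mem (H.inv_mem (hl v List.mem_cons_self)) hx)]

theorem olson_move (K : Subgroup G) (l s : List G) (hs : s.Sublist l) (hl : ∀ g ∈ l, g ∈ K)
    (P : G) (hP : P ∈ K) : ∃ z : List G, z.length = l.length ∧ (∀ g ∈ z, g ∈ K) ∧
      ∀ f : G → ℝ, lt P (Avg l f) = Avg z (lt (P * s.prod) f) := by
  induction hs generalizing P with
  | slnil =>
    refine ⟨[], rfl, fun g hg => absurd hg List.not_mem_nil, fun f => ?_⟩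
    rw [List.prod_nil, mul_one]
    rfl
  | @cons s l a _ ih =>
    obtain ⟨z, h1, h2, h3⟩ := ih (fun g hg => hl g (List.mem_cons_of_mem a hg)) P hP
    refine ⟨(P * a * P⁻¹) :: z, by rw [List.length_cons, List.length_cons, h1], ?_, fun f => ?_⟩
    · intro g hg
      rcases List.mem_cons.1 hg with rfl | hg
      · exact K.mul_mem (K.mul_mem hP (hl a List.mem_cons_self)) (K.inv_mem hP)
      · exact h2 g hg
    · funext x
      rw [OL_cons, ← h3 f]
      show (Avg l f (P⁻¹ * x) + Avg l f (a⁻¹ * (P⁻¹ * x))) / 2 =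
        (Avg l f (P⁻¹ * x) + Avg l f (P⁻¹ * ((P * a * P⁻¹)⁻¹ * x))) / 2
      rw [show P⁻¹ * ((P * a * P⁻¹)⁻¹ * x) = a⁻¹ * (P⁻¹ * x) by group]
  | @cons_cons s l a _ ih =>
    obtain ⟨z, h1, h2, h3⟩ := ih (fun g hg => hl g (List.mem_cons_of_mem a hg)) (P * a)
      (K.mul_mem hP (hl a List.mem_cons_self))
    refine ⟨(P * a⁻¹ * P⁻¹) :: z, by rw [List.length_cons, List.length_cons, h1], ?_, fun f => ?_⟩
    · intro g hg
      rcases List.mem_cons.1 hg with rfl | hg
      · exact K.mul_mem (K.mul_mem hP (K.inv_mem (hl a List.mem_cons_self))) (K.inv_mem hP)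
      · exact h2 g hg
    · funext x
      rw [List.prod_cons, ← mul_assoc, OL_cons, ← h3 f]
      show (Avg l f (P⁻¹ * x) + Avg l f (a⁻¹ * (P⁻¹ * x))) / 2 =
        (Avg l f ((P * a)⁻¹ * x) + Avg l f ((P * a)⁻¹ * ((P * a⁻¹ * P⁻¹)⁻¹ * x))) / 2
      rw [show (P * a)⁻¹ * ((P * a⁻¹ * P⁻¹)⁻¹ * x) = P⁻¹ * x by group,
        show (P * a)⁻¹ * x = a⁻¹ * (P⁻¹ * x) by group]
      ring

private theorem OL_split (p q : List G) (x : G) (f : G → ℝ) (y : G) :
    Avg (p ++ x :: q) f y = (Avg p (Avg q f) y + Avg p (lt x (Avg q f)) y) / 2 := by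
  rw [avg_append]
  have h1 : Avg (x :: q) f = fun y => (1 / 2 : ℝ) * (Avg q f y + lt x (Avg q f) y) := by
    funext y
    show (Avg q f y + lt x (Avg q f) y) / 2 = _
    ring
  rw [h1, avg_smul, avg_add]
  show (1 / 2 : ℝ) * (Avg p (Avg q f) y + Avg p (lt x (Avg q f)) y) = _
  ring

theorem olson (K : Subgroup G) (d : ℕ) (hd : DB (K : Set G) d) (l : List G)
    (hl : ∀ g ∈ l, g ∈ K) : (1 / 2 : ℝ) ^ d ≤ Avg l (ind {1}) 1 := by
  induction hn : l.length using Nat.strong_induction_on generalizing l with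
  | _ n ih =>
    by_cases hb : Bad l
    · have h1 : l.length + 1 ≤ d := by exact_mod_cast hd l hl hb
      refine le_trans ?_ (olson_lb l)
      exact pow_le_pow_of_le_one (by norm_num) (by norm_num) (by omega)
    · unfold Bad at hb
      push Not at hb
      obtain ⟨s, hs, hne, h1⟩ := hb
      obtain ⟨x, s', rfl⟩ := List.exists_cons_of_ne_nil hne
      obtain ⟨r₁, r₂, rfl, hx, hs'⟩ := List.cons_sublist_iff.1 hs
      obtain ⟨p, q₁, rfl⟩ := List.append_of_mem hx
      have e1 : p ++ x :: q₁ ++ r₂ = p ++ x :: (q₁ ++ r₂) := by simp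
      rw [e1] at hl hn ⊢
      have hs2 : s'.Sublist (q₁ ++ r₂) := hs'.trans (List.sublist_append_right q₁ r₂)
      generalize q₁ ++ r₂ = q at hl hn hs2 ⊢
      have hlp : ∀ g ∈ p, g ∈ K := fun g hg => hl g (List.mem_append_left _ hg)
      have hlx : x ∈ K := hl x (List.mem_append_right _ List.mem_cons_self)
      have hlq : ∀ g ∈ q, g ∈ K := fun g hg => hl g (List.mem_append_right _ (List.mem_cons_of_mem x hg))
      obtain ⟨z, h2, h3, h4⟩ := olson_move K q s' hs2 hlq x hlx
      have h5 : lt x (Avg q (ind {1})) = Avg z (ind {1}) := by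
        rw [h4, ← List.prod_cons, h1, lt_one]
      rw [OL_split, h5, ← avg_append, ← avg_append]
      rw [List.length_append, List.length_cons] at hn
      have h6 := ih (p ++ q).length (by rw [List.length_append]; omega) (p ++ q) (fun g hg =>
        (List.mem_append.1 hg).elim (hlp g) (hlq g)) rfl
      have h7 := ih (p ++ z).length (by rw [List.length_append]; omega) (p ++ z) (fun g hg =>
        (List.mem_append.1 hg).elim (hlp g) (h3 g)) rfl
      linarith

end Pool.Agent.Lib.MP_c6e9f4_al.Bnd
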