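import Pool.Agent.Lib.MP_c6e9f4_al.Bnd.NN
import Pool.Agent.Lib.MP_c6e9f4_al.Bnd.OL

/-!
# The fixed part

Let `H = gen W`, let `U` be the set of the coordinates which are not full for `H`, and let `N` be the subgroup of
the elements of `H` which are trivial on `U`.  A function which is fixed by all averages over the subgroups
`Nn H i`, `i` full, is invariant under `N`; hence the projection `g` of the indicator of `1` onto these functions
is `ind N / |N|`, and `ip (Avg W g) g = Avg W (ind N) 1 / |N|`, which is bounded below by `olson`.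
-/

set_option autoImplicit false

namespace Pool.Agent.Lib.MP_c6e9f4_al.Bnd

open Pool.Agent.Lib.MP_c6e9f4_al.Exp (Bad DB LenFun)
open Pool.Agent.Lib.MP_c6e9f4_al.Nil (DU)

private theorem KF_ind_mem {X : Type} {A : Set X} {x : X} (h : x ∈ A) : ind A x = 1 := by
  unfold ind
  rw [if_pos h]

private theorem KF_ind_not {X : Type} {A : Set X} {x : X} (h : x ∉ A) : ind A x = 0 := by
  unfold ind
  rw [if_neg h]

private theorem KF_ind_congr {X : Type} {A : Set X} {x y : X} (h : x ∈ A ↔ y ∈ A) : ind A x = ind A y := by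
  by_cases hx : x ∈ A
  · rw [KF_ind_mem hx, KF_ind_mem (h.1 hx)]
  · rw [KF_ind_not hx, KF_ind_not fun hy => hx (h.2 hy)]

private theorem KF_sum {G : Type} [Group G] [Fintype G] (N : Subgroup G) :
    ∑ x, ind (N : Set G) x = (Nat.card N : ℝ) := by
  classical
  unfold ind
  rw [Finset.sum_boole]
  congr 1
  rw [Nat.card_eq_fintype_card, Fintype.card_subtype]
  rfl

/-- the inner product of `ind N / |N|` with an `N`-invariant function -/
private theorem KF_ip {G : Type} [Group G] [Fintype G] (N : Subgroup G) (h : G → ℝ)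
    (hh : ∀ n ∈ N, lt n h = h) : ip (fun x => ind (N : Set G) x / (Nat.card N : ℝ)) h = h 1 := by
  have h1 : ∀ x, ind (N : Set G) x / (Nat.card N : ℝ) * h x = ind (N : Set G) x / (Nat.card N : ℝ) * h 1 := by
    intro x
    by_cases hx : x ∈ (N : Set G)
    · have h2 : h 1 = h x := by
        have h3 := congrFun (hh x⁻¹ (N.inv_mem hx)) 1
        have h4 : lt x⁻¹ h 1 = h x := by simp [lt]
        rw [← h3, h4]
      rw [h2]
    · rw [KF_ind_not hx, zero_div, zero_mul, zero_mul]
  unfold ip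
  rw [Finset.sum_congr rfl fun x _ => h1 x, ← Finset.sum_mul, ← Finset.sum_div, KF_sum, div_self, one_mul]
  have h5 : 0 < Nat.card N := Nat.card_pos
  exact_mod_cast h5.ne'

private theorem KF_one {G : Type} [Group G] [Fintype G] (h : G → ℝ) : ip (ind {1}) h = h 1 := by
  classical
  unfold ip
  rw [Finset.sum_eq_single 1]
  · rw [KF_ind_mem (Set.mem_singleton 1), one_mul]
  · intro x _ hx
    rw [KF_ind_not (by simpa using hx), zero_mul]
  · intro h1
    exact absurd (Finset.mem_univ _) h1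

theorem fixed_part {ι : Type} [Fintype ι] {T : ι → Type} [∀ i, Group (T i)]
    [Fintype (∀ i, T i)] {b : ℕ} (hT : ∀ i, Simp b (T i)) (W : List (∀ i, T i)) (d : ℕ)
    (hd : DB (((gen W).map (res {i | ¬ Full (gen W) i}) :
      Subgroup (∀ i : {i | ¬ Full (gen W) i}, T i)) : Set (∀ i : {i | ¬ Full (gen W) i}, T i)) d)
    (g : (∀ i, T i) → ℝ) (hg : ∀ i, Full (gen W) i → AN (Nn (gen W) i) g = g)
    (hg' : ∀ h : (∀ i, T i) → ℝ, (∀ i, Full (gen W) i → AN (Nn (gen W) i) h = h) →
      ip g h = ip (ind {1}) h) :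
    (1 / 2 : ℝ) ^ d / (b : ℝ) ^ Fintype.card ι ≤ ip (Avg W g) g := by
  classical
  have hW : ∀ c ∈ W, c ∈ gen W := fun c hc => Subgroup.subset_closure hc
  generalize hH : gen W = H at hd hg hg' hW
  set N : Subgroup (∀ i, T i) := H ⊓ (res {i | ¬ Full H i}).ker with hN
  have hNmem : ∀ u, u ∈ N ↔ u ∈ H ∧ ∀ j, ¬ Full H j → u j = 1 := by
    intro u
    rw [hN, Subgroup.mem_inf, MonoidHom.mem_ker]
    refine and_congr_right fun _ => ⟨fun h1 j hj => congrFun h1 ⟨j, hj⟩, fun h1 => ?_⟩
    funext j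
    exact h1 j.1 j.2
  -- fixed functions are invariant under `N`
  have hinv : ∀ h : (∀ i, T i) → ℝ, (∀ i, Full H i → AN (Nn H i) h = h) → ∀ n ∈ N, lt n h = h := by
    intro h hh n hn
    obtain ⟨hn1, hn2⟩ := (hNmem n).1 hn
    have h1 := Nn_decomp hT n hn1 (Finset.univ.filter fun i => Full H i) (fun i hi => (Finset.mem_filter.1 hi).2)
      (fun j hj => hn2 j fun hj' => hj (Finset.mem_filter.2 ⟨Finset.mem_univ _, hj'⟩))
    refine fix_closure _ h ?_ n h1
    rintro K ⟨i, hi, rfl⟩ m hm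
    have h2 := AN_lt (Nn H i) m hm h
    rwa [hh i (Finset.mem_filter.1 hi).2] at h2
  have hle : ∀ i, Full H i → ∀ n ∈ Nn H i, n ∈ N := by
    intro i hi n hn
    rw [hNmem]
    exact ⟨hn.1, fun j hj => hn.2 j fun hl => hj hl.2.1⟩
  set h0 : (∀ i, T i) → ℝ := fun x => ind (N : Set (∀ i, T i)) x / (Nat.card N : ℝ) with hh0
  have h0fix : ∀ i, Full H i → AN (Nn H i) h0 = h0 := by
    intro i hi
    refine AN_fix _ _ fun n hn => ?_
    funext x
    have h1 := hle i hi n hn
    show ind (N : Set (∀ i, T i)) (n⁻¹ * x) / (Nat.card N : ℝ) = ind (N : Set (∀ i, T i)) x / (Nat.card N : ℝ)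
    congr 1
    refine KF_ind_congr ?_
    show n⁻¹ * x ∈ N ↔ x ∈ N
    exact Subgroup.mul_mem_cancel_left N (N.inv_mem h1)
  have hip : ∀ h : (∀ i, T i) → ℝ, (∀ i, Full H i → AN (Nn H i) h = h) → ip h0 h = h 1 := fun h hh =>
    KF_ip N h (hinv h hh)
  -- the projection is `h0`
  have hgh : g = h0 := by
    have h1 : ∀ i, Full H i → AN (Nn H i) (fun x => g x - h0 x) = fun x => g x - h0 x := by
      intro i hi
      have h2 := AN_add (Nn H i) (fun x => g x - h0 x) h0
      have h3 : (fun x => (fun x => g x - h0 x) x + h0 x) = g := by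
        funext x
        simp
      rw [h3, hg i hi, h0fix i hi] at h2
      funext x
      have h4 := congrFun h2 x
      linarith
    have h5 := hg' _ h1
    rw [KF_one] at h5
    have h6 := hip _ h1
    have h7 : nsq (fun x => g x - h0 x) = ip g (fun x => g x - h0 x) - ip h0 (fun x => g x - h0 x) := by
      unfold nsq ip
      rw [← Finset.sum_sub_distrib]
      exact Finset.sum_congr rfl fun x _ => by ring
    rw [h5, h6, sub_self] at h7
    have h8 := nsq_eq_zero _ h7
    funext x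
    have h9 := congrFun h8 x
    linarith
  have hAfix : ∀ i, Full H i → AN (Nn H i) (Avg W h0) = Avg W h0 := by
    intro i hi
    rw [AN_avg (Nn H i) W (fun c hc => Nn_conj i c (hW c hc)), h0fix i hi]
  have h1 : ip (Avg W g) g = Avg W h0 1 := by
    rw [hgh, ← hip _ hAfix]
    unfold ip
    exact Finset.sum_congr rfl fun x _ => mul_comm _ _
  have h2 : Avg W h0 1 = (Nat.card N : ℝ)⁻¹ * Avg W (ind (N : Set (∀ i, T i))) 1 := by
    have h3 : h0 = fun x => (Nat.card N : ℝ)⁻¹ * ind (N : Set (∀ i, T i)) x := by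
      funext x
      rw [hh0]
      ring
    rw [h3, avg_smul]
  have h3 : Avg W (ind (N : Set (∀ i, T i))) 1 =
      Avg W (ind ((res {i | ¬ Full H i} : (∀ i, T i) →* _).ker : Set (∀ i, T i))) 1 := by
    refine avg_congr H W hW _ _ (fun x hx => ?_) 1 H.one_mem
    have h4 : x ∈ (N : Set (∀ i, T i)) ↔
        x ∈ ((res {i | ¬ Full H i} : (∀ i, T i) →* _).ker : Set (∀ i, T i)) := by
      rw [hN]
      exact ⟨fun h => h.2, fun h => ⟨hx, h⟩⟩
    by_cases h5 : x ∈ (N : Set (∀ i, T i))
    · rw [KF_ind_mem h5, KF_ind_mem (h4.1 h5)]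
    · rw [KF_ind_not h5, KF_ind_not fun h => h5 (h4.2 h)]
  have h4 : (1 / 2 : ℝ) ^ d ≤ Avg W (ind (N : Set (∀ i, T i))) 1 := by
    rw [h3, avg_ker]
    refine olson _ d hd _ fun y hy => ?_
    obtain ⟨c, hc, rfl⟩ := List.mem_map.1 hy
    exact Subgroup.mem_map_of_mem _ (hW c hc)
  have h5 : (Nat.card N : ℝ) ≤ (b : ℝ) ^ Fintype.card ι := by
    have h6 : Nat.card N ≤ Nat.card (∀ i, T i) := Subgroup.card_le_card_group N
    have h7 : Nat.card (∀ i, T i) = b ^ Fintype.card ι := by
      rw [Nat.card_pi, Finset.prod_congr rfl fun i _ => (hT i).card, Finset.prod_const, Finset.card_univ]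
    rw [h7] at h6
    exact_mod_cast h6
  have h6 : (0 : ℝ) < Nat.card N := by
    have h7 : 0 < Nat.card N := Nat.card_pos
    exact_mod_cast h7
  rw [h1, h2, div_eq_inv_mul]
  exact mul_le_mul (inv_anti₀ h6 h5) h4 (by positivity) (by positivity)

end Pool.Agent.Lib.MP_c6e9f4_al.Bnd
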