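import Pool.Agent.Lib.MP_c6e9f4_al.Bnd.WD
import Pool.Agent.Lib.MP_c6e9f4_al.Bnd.AN

/-!
ROW NN (130 lines). The subgroups `Nn H i = {u ∈ H | u j = 1 for all j not linked with i}`.
* Nn_conj: for `h ∈ H`: conjugation preserves `H` and triviality of coordinates (both directions).
* Nn_exists: `step_word` with `S := (H : Set _)` (`Subgroup.closure_eq`), `ρ := 0`, `η := 0`.
* Nn_unique: if `Lnk H i j` then `n j = φ (n i)` (lnk_iso); otherwise both are 1.
* Nn_congr: `Lnk H i k ↔ Lnk H j k` when `Lnk H i j` (lnk_trans, lnk_symm).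
* Nn_comm: supports are in the disjoint sets `cl H i`, `cl H j` (if some `k` is linked with both then `Lnk H i j`).
* Nn_decomp: induction on the number of `j` with `u j ≠ 1`. If `u ≠ 1` take `i` with `u i ≠ 1`, `i ∈ E`, and `n ∈ Nn H i` with `n i = u i`; for `j` linked with `i`: `n j = φ (n i) = φ (u i) = u j`. So `n⁻¹ * u ∈ H` is trivial
  on `cl H i ∋ i` and equals `u` elsewhere; `u = n * (n⁻¹ u)`.
* Nn_fix: if `lt n g = g` for all `n ∈ Nn H i`, all `i ∈ E`, then `lt u g = g` for such `u` (fix_closure).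
-/

set_option autoImplicit false

namespace Pool.Agent.Lib.MP_c6e9f4_al.Bnd

open Pool.Agent.Lib.MP_c6e9f4_al.Exp (Bad DB LenFun)
open Pool.Agent.Lib.MP_c6e9f4_al.Nil (DU)

section

variable {ι : Type} [Fintype ι] {T : ι → Type} [∀ i, Group (T i)] {b : ℕ}

theorem Nn_conj {H : Subgroup (∀ i, T i)} (i : ι) (h : ∀ i, T i) (hh : h ∈ H) :
    ∀ n, n ∈ Nn H i ↔ h * n * h⁻¹ ∈ Nn H i := by
  intro n
  have hH : n ∈ H ↔ h * n * h⁻¹ ∈ H := by
    refine ⟨fun hn => H.mul_mem (H.mul_mem hh hn) (H.inv_mem hh), fun hn => ?_⟩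
    have h1 := H.mul_mem (H.mul_mem (H.inv_mem hh) hn) hh
    have h2 : h⁻¹ * (h * n * h⁻¹) * h = n := by group
    rwa [h2] at h1
  have hc : ∀ j, n j = 1 ↔ (h * n * h⁻¹) j = 1 := by
    intro j
    have e : (h * n * h⁻¹) j = h j * n j * (h j)⁻¹ := rfl
    rw [e, conj_eq_one_iff]
  constructor
  · rintro ⟨h1, h2⟩
    exact ⟨hH.1 h1, fun j hj => (hc j).1 (h2 j hj)⟩
  · rintro ⟨h1, h2⟩
    exact ⟨hH.2 h1, fun j hj => (hc j).2 (h2 j hj)⟩

theorem Nn_exists (hT : ∀ i, Simp b (T i)) {H : Subgroup (∀ i, T i)} {i : ι} (hi : Full H i)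
    (t : T i) : ∃ n ∈ Nn H i, n i = t := by
  have hρ : LenFun (fun _ : (∀ i, T i) => (0 : ℝ)) :=
    ⟨fun _ => le_rfl, rfl, fun _ _ => by simp, fun _ => rfl⟩
  have h := step_word hT (H : Set (∀ i, T i)) (fun _ => 0) hρ 0 le_rfl (fun _ _ => le_rfl) i
    (by rw [Subgroup.closure_eq]; exact hi) t
  rw [Subgroup.closure_eq] at h
  obtain ⟨u, hu, hui, hu1, -⟩ := h
  exact ⟨u, ⟨hu, hu1⟩, hui⟩

theorem Nn_unique (hT : ∀ i, Simp b (T i)) {H : Subgroup (∀ i, T i)} {i : ι} {n n' : ∀ i, T i}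
    (hn : n ∈ Nn H i) (hn' : n' ∈ Nn H i) (h : n i = n' i) : n = n' := by
  funext j
  by_cases hl : Lnk H i j
  · obtain ⟨φ, hφ⟩ := lnk_iso hT hl
    rw [hφ n hn.1, hφ n' hn'.1, h]
  · rw [hn.2 j hl, hn'.2 j hl]

theorem Nn_congr (hT : ∀ i, Simp b (T i)) {H : Subgroup (∀ i, T i)} {i j : ι} (h : Lnk H i j) :
    Nn H i = Nn H j := by
  have hk : ∀ k, Lnk H i k ↔ Lnk H j k := fun k =>
    ⟨fun hik => lnk_trans hT (lnk_symm h) hik, fun hjk => lnk_trans hT h hjk⟩
  ext u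
  constructor
  · rintro ⟨h1, h2⟩
    exact ⟨h1, fun k hk' => h2 k fun hc => hk' ((hk k).1 hc)⟩
  · rintro ⟨h1, h2⟩
    exact ⟨h1, fun k hk' => h2 k fun hc => hk' ((hk k).2 hc)⟩

theorem Nn_comm (hT : ∀ i, Simp b (T i)) {H : Subgroup (∀ i, T i)} {i j : ι} (hi : Full H i)
    (hij : ¬ Lnk H i j) : ∀ n ∈ Nn H i, ∀ n' ∈ Nn H j, n * n' = n' * n := by
  intro n hn n' hn'
  funext k
  show n k * n' k = n' k * n k
  by_cases h1 : Lnk H i k
  · by_cases h2 : Lnk H j k
    · exact absurd (lnk_trans hT h1 (lnk_symm h2)) hij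
    · rw [hn'.2 k h2, mul_one, one_mul]
  · rw [hn.2 k h1, mul_one, one_mul]

theorem Nn_decomp (hT : ∀ i, Simp b (T i)) {H : Subgroup (∀ i, T i)} (u : ∀ i, T i) (hu : u ∈ H)
    (E : Finset ι) (hE : ∀ i ∈ E, Full H i) (hu1 : ∀ j, j ∉ E → u j = 1) :
    u ∈ sSup {N | ∃ i ∈ E, N = Nn H i} := by
  classical
  have key : ∀ m : ℕ, ∀ u : (∀ i, T i), u ∈ H → (∀ j, j ∉ E → u j = 1) →
      (Finset.univ.filter fun j => u j ≠ 1).card ≤ m → u ∈ sSup {N | ∃ i ∈ E, N = Nn H i} := by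
    intro m
    induction m with
    | zero =>
      intro u _ _ hc
      have h0 : (Finset.univ.filter fun j => u j ≠ 1) = ∅ := Finset.card_eq_zero.1 (Nat.le_zero.1 hc)
      have h1 : u = 1 := by
        funext j
        by_contra hj
        have : j ∈ (Finset.univ.filter fun j => u j ≠ 1) := Finset.mem_filter.2 ⟨Finset.mem_univ _, hj⟩
        rw [h0] at this
        simp at this
      rw [h1]
      exact Subgroup.one_mem _
    | succ m ih =>
      intro u hu hu1 hc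
      by_cases h1 : u = 1
      · rw [h1]
        exact Subgroup.one_mem _
      obtain ⟨i, hi⟩ : ∃ i, u i ≠ 1 := by
        by_contra hcon
        push Not at hcon
        exact h1 (funext hcon)
      have hiE : i ∈ E := by
        by_contra hcon
        exact hi (hu1 i hcon)
      obtain ⟨n, hn, hni⟩ := Nn_exists hT (hE i hiE) (u i)
      have hl : ∀ j, Lnk H i j → (n⁻¹ * u) j = 1 := by
        intro j hj
        obtain ⟨φ, hφ⟩ := lnk_iso hT hj
        show (n j)⁻¹ * u j = 1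
        rw [hφ n hn.1, hφ u hu, hni, inv_mul_cancel]
      have hnl : ∀ j, ¬ Lnk H i j → (n⁻¹ * u) j = u j := by
        intro j hj
        show (n j)⁻¹ * u j = u j
        rw [hn.2 j hj, inv_one, one_mul]
      have hu' : n⁻¹ * u ∈ H := H.mul_mem (H.inv_mem hn.1) hu
      have hlt : (Finset.univ.filter fun j => (n⁻¹ * u) j ≠ 1).card <
          (Finset.univ.filter fun j => u j ≠ 1).card := by
        refine Finset.card_lt_card ⟨fun j hj => ?_, fun hsub => ?_⟩
        · rw [Finset.mem_filter] at hj ⊢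
          refine ⟨hj.1, ?_⟩
          by_cases hlj : Lnk H i j
          · exact absurd (hl j hlj) hj.2
          · have := hj.2
            rwa [hnl j hlj] at this
        · have h2 : i ∈ (Finset.univ.filter fun j => u j ≠ 1) :=
            Finset.mem_filter.2 ⟨Finset.mem_univ _, hi⟩
          have h3 := hsub h2
          rw [Finset.mem_filter] at h3
          exact h3.2 (hl i (lnk_refl hT (hE i hiE)))
      have h4 := ih (n⁻¹ * u) hu' (fun j hj => by
        by_cases hlj : Lnk H i j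
        · exact hl j hlj
        · rw [hnl j hlj]
          exact hu1 j hj) (by omega)
      have h5 : n ∈ sSup {N | ∃ i ∈ E, N = Nn H i} :=
        (le_sSup (show Nn H i ∈ {N | ∃ i ∈ E, N = Nn H i} from ⟨i, hiE, rfl⟩)) hn
      have h6 := Subgroup.mul_mem _ h5 h4
      rwa [mul_inv_cancel_left] at h6
  exact key _ u hu hu1 le_rfl

end

end Pool.Agent.Lib.MP_c6e9f4_al.Bnd
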