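import Pool.Agent.Lib.MP_c6e9f4_al.Bnd.TG
import Pool.Agent.Lib.MP_c6e9f4_al.Bnd.CT
import Pool.Agent.Lib.MP_c6e9f4_al.Bnd.NN

/-!
ROW KG (150 lines). A good block contracts. `r := card ι`, `κ := kap b r = 1/(32 Λ² (r b + 1)²)`, `Λ := Lam b r`.
Proof. `toggles` with `B0 := (1 - κ) * nsq g`: it suffices that `nsq (Avg z g') ≤ (1 - κ) nsq g`, `g' := lt c g`, for every list `z` with `gen z = gen V`, `2 ^ z.length ≤ Nat.card (gen V)` and `c ∈ gen V ≤ H`.
`nsq g' = nsq g`, and `g'` has the same properties (h0), (h1) as `g` (AN_conj with Nn_conj). Suppose `(1 - κ) nsq g' < nsq (Avg z g')`. By `contraction`, all `x ∈ z` have `ρ x ≤ η := 2 * z.length * √κ * √nsq g'`, where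
`ρ h := √nsq (lt h g' - g')` is a length function (`lenFun_vec`). `z.length ≤ r * b`: `Nat.card (gen V) ≤ b ^ r ≤ 2 ^ (b * r)`.
Let `i ∈ J` be as in `GoodFor (gen V) H J`, and `n ∈ Nn H i`; put `t := n i`. By `step_word` with `S := {x | x ∈ z}` (`closure S = gen z = gen V`) there is `u ∈ gen V` with `u i = t`, `u j = 1` for `j ∉ cl (gen V) i`, `ρ u ≤ Λ η`.
Then `v := n⁻¹ * u ∈ H` and `lt v g' = g'`: `v` is trivial at all `j ∈ J`: if `j ∈ cl H i` then `u j = φ (u i) = φ (n i) = n j`; if `j ∈ J`, `j ∉ cl H i` then `j ∉ cl (gen V) i` by goodness, so `u j = 1`, and `n j = 1`. And `v` is trivial at all `j`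
not full for `H` (then `j` is not linked with `i`, neither for `H` nor for `gen V`, full_mono). So with `E := {j full for H, j ∉ J}` Nn_decomp and (h1) for `g'` (`AN (Nn H j) g' = g'` implies `lt n' g' = g'` for `n' ∈ Nn H j` by AN_lt), fix_closure: `lt v g' = g'`. So
`lt u g' = lt n (lt v g') = lt n g'` and `√nsq (lt n g' - g') = ρ u ≤ Λ η`. This holds for all `n ∈ Nn H i`, and `AN (Nn H i) g' = 0`: by AN_bound `√nsq g' ≤ Λ η = 2 Λ z.length √κ √nsq g'`. As
`2 Λ z.length √κ ≤ 2 Λ r b /(√32 Λ (r b + 1)) < 1` (`Λ ≥ 1` as `b ≥ 1`), `nsq g' = 0`; but then `(1 - κ) * 0 < nsq (Avg z g') ≤ nsq g' = 0`, contradiction.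
-/

set_option autoImplicit false

namespace Pool.Agent.Lib.MP_c6e9f4_al.Bnd

open Pool.Agent.Lib.MP_c6e9f4_al.Exp (Bad DB LenFun)
open Pool.Agent.Lib.MP_c6e9f4_al.Nil (DU)

private theorem KG_len {ι : Type} [Fintype ι] {T : ι → Type} [∀ i, Group (T i)]
    [Fintype (∀ i, T i)] {b : ℕ} (hT : ∀ i, Simp b (T i)) (K : Subgroup (∀ i, T i)) (n : ℕ)
    (h : 2 ^ n ≤ Nat.card K) : n ≤ Fintype.card ι * b := by
  have h1 : Nat.card K ≤ Nat.card (∀ i, T i) := Subgroup.card_le_card_group K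
  have h2 : Nat.card (∀ i, T i) = b ^ Fintype.card ι := by
    rw [Nat.card_pi, Finset.prod_congr rfl fun i _ => (hT i).card, Finset.prod_const, Finset.card_univ]
  have h3 : b ^ Fintype.card ι ≤ 2 ^ (Fintype.card ι * b) := by
    rw [mul_comm, pow_mul]
    exact Nat.pow_le_pow_left Nat.lt_two_pow_self.le _
  have h4 : 2 ^ n ≤ 2 ^ (Fintype.card ι * b) := by
    rw [h2] at h1
    exact h.trans (h1.trans h3)
  exact (Nat.pow_le_pow_iff_right (by norm_num)).1 h4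

private theorem KG_num (b r n : ℕ) (hn : n ≤ r * b) :
    0 ≤ kap b r ∧ (Lam b r : ℝ) * (2 * (n : ℝ) * Real.sqrt (kap b r)) < 1 := by
  have hk : 0 ≤ kap b r := by
    unfold kap
    positivity
  refine ⟨hk, ?_⟩
  have hs := Real.sqrt_nonneg (kap b r)
  have hs2 := Real.sq_sqrt hk
  have hL : (0 : ℝ) ≤ (Lam b r : ℝ) := Nat.cast_nonneg _
  have hn0 : (0 : ℝ) ≤ (n : ℝ) := Nat.cast_nonneg _
  rcases eq_or_lt_of_le hL with h0 | hpos
  · rw [← h0]
    norm_num
  · have hn1 : (n : ℝ) < ((r * b + 1 : ℕ) : ℝ) := by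
      exact_mod_cast Nat.lt_succ_of_le hn
    have h1 : ((Lam b r : ℝ) * (2 * (n : ℝ) * Real.sqrt (kap b r))) ^ 2 < 1 := by
      have e1 : ((Lam b r : ℝ) * (2 * (n : ℝ) * Real.sqrt (kap b r))) ^ 2 =
          4 * (Lam b r : ℝ) ^ 2 * (n : ℝ) ^ 2 * kap b r := by
        rw [mul_pow, mul_pow, mul_pow, hs2]
        ring
      rw [e1]
      unfold kap
      have hc : (0 : ℝ) < ((r * b + 1 : ℕ) : ℝ) := lt_of_le_of_lt hn0 hn1
      rw [mul_one_div, div_lt_one (by positivity)]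
      have h2 : (n : ℝ) ^ 2 < ((r * b + 1 : ℕ) : ℝ) ^ 2 := by
        nlinarith
      have h3 : (Lam b r : ℝ) ^ 2 * (n : ℝ) ^ 2 ≤ (Lam b r : ℝ) ^ 2 * ((r * b + 1 : ℕ) : ℝ) ^ 2 :=
        mul_le_mul_of_nonneg_left h2.le (by positivity)
      have h4 : 0 < (Lam b r : ℝ) ^ 2 * ((r * b + 1 : ℕ) : ℝ) ^ 2 := by positivity
      nlinarith
    have h5 : 0 ≤ (Lam b r : ℝ) * (2 * (n : ℝ) * Real.sqrt (kap b r)) := by positivity
    nlinarith

private theorem KG_lt {ι : Type} [Fintype ι] {T : ι → Type} [∀ i, Group (T i)]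
    [Fintype (∀ i, T i)] {b : ℕ} (hT : ∀ i, Simp b (T i)) (W H : Subgroup (∀ i, T i))
    (hWH : W ≤ H) (J : Finset ι) (i : ι)
    (hi2 : ∀ j ∈ cl W i, j ∈ J → j ∈ cl H i) (g : (∀ i, T i) → ℝ)
    (h1 : ∀ i, Full H i → i ∉ J → AN (Nn H i) g = g) (n u : ∀ i, T i) (hn : n ∈ Nn H i)
    (hu : u ∈ W) (hui : u i = n i) (hu1 : ∀ j, ¬ Lnk W i j → u j = 1) : lt u g = lt n g := by
  classical
  have hvH : n⁻¹ * u ∈ H := H.mul_mem (H.inv_mem hn.1) (hWH hu)
  have hv : lt (n⁻¹ * u) g = g := by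
    refine fix_closure {N | ∃ i ∈ Finset.univ.filter (fun j => Full H j ∧ j ∉ J), N = Nn H i} g
      ?_ _ (Nn_decomp hT _ hvH _ ?_ ?_)
    · rintro N ⟨j, hj, rfl⟩ m hm
      rw [Finset.mem_filter] at hj
      have h2 := h1 j hj.2.1 hj.2.2
      have h3 := AN_lt (Nn H j) m hm g
      rwa [h2] at h3
    · intro j hj
      rw [Finset.mem_filter] at hj
      exact hj.2.1
    · intro j hj
      by_cases hL : Lnk H i j
      · obtain ⟨φ, hφ⟩ := lnk_iso hT hL
        rw [Pi.mul_apply, Pi.inv_apply, hφ u (hWH hu), hφ n hn.1, hui, inv_mul_cancel]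
      · have h2 : n j = 1 := hn.2 j hL
        have h3 : ¬ Lnk W i j := by
          intro hL2
          apply hL
          by_cases hJ : j ∈ J
          · exact mem_cl.1 (hi2 j (mem_cl.2 hL2) hJ)
          · exfalso
            apply hj
            rw [Finset.mem_filter]
            exact ⟨Finset.mem_univ _, full_mono hWH hL2.2.1, hJ⟩
        rw [Pi.mul_apply, Pi.inv_apply, h2, hu1 j h3, inv_one, one_mul]
  have e : u = n * (n⁻¹ * u) := by rw [mul_inv_cancel_left]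
  rw [e, lt_mul, hv]

theorem good_contract {ι : Type} [Fintype ι] {T : ι → Type} [∀ i, Group (T i)]
    [Fintype (∀ i, T i)] {b : ℕ} (hT : ∀ i, Simp b (T i)) (V : List (∀ i, T i))
    (H : Subgroup (∀ i, T i)) (hV : ∀ v ∈ V, v ∈ H) (J : Finset ι) (hJf : ∀ i ∈ J, Full H i)
    (hgood : GoodFor (gen V) H J) (g : (∀ i, T i) → ℝ)
    (h0 : ∀ i ∈ J, AN (Nn H i) g = fun _ => 0)
    (h1 : ∀ i, Full H i → i ∉ J → AN (Nn H i) g = g) :
    nsq (Avg V g) ≤ (1 - kap b (Fintype.card ι)) * nsq g := by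
  apply toggles
  intro z c hz hlen hc
  by_contra hlt
  push Not at hlt
  have hVH : gen V ≤ H := by
    unfold gen
    rw [Subgroup.closure_le]
    intro v hv
    exact hV v hv
  obtain ⟨i, hiJ, hiF, hi2⟩ := hgood
  have hcH : c ∈ H := hVH hc
  have h0' : AN (Nn H i) (lt c g) = fun _ => 0 := by
    rw [AN_conj (Nn H i) c (Nn_conj i c hcH), h0 i hiJ]
    rfl
  have h1' : ∀ i, Full H i → i ∉ J → AN (Nn H i) (lt c g) = lt c g := by
    intro j hj hjJ
    rw [AN_conj (Nn H j) c (Nn_conj j c hcH), h1 j hj hjJ]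
  have hns : nsq (lt c g) = nsq g := nsq_lt c g
  rw [← hns] at hlt
  obtain ⟨hk0, hk1⟩ := KG_num b (Fintype.card ι) z.length (KG_len hT _ _ hlen)
  have hcon := contraction z (lt c g) (kap b (Fintype.card ι)) hk0 hlt.le
  have hcl : Subgroup.closure {x | x ∈ z} = gen V := hz
  have hb : Real.sqrt (nsq (lt c g)) ≤ (Lam b (Fintype.card ι) : ℝ) *
      (2 * z.length * Real.sqrt (kap b (Fintype.card ι)) * Real.sqrt (nsq (lt c g))) := by
    refine AN_bound (Nn H i) (lt c g) h0' _ ?_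
    intro n hn
    obtain ⟨u, hu, hui, hu1, hu2⟩ := step_word hT {x | x ∈ z} _ (lenFun_vec (lt c g))
      (2 * z.length * Real.sqrt (kap b (Fintype.card ι)) * Real.sqrt (nsq (lt c g)))
      (by positivity) hcon i (by rw [hcl]; exact hiF) (n i)
    rw [hcl] at hu hu1
    have h3 := KG_lt hT (gen V) H hVH J i hi2 (lt c g) h1' n u hn hu hui hu1
    rw [← h3]
    exact hu2
  have hs : Real.sqrt (nsq (lt c g)) = 0 := by
    have h5 := Real.sqrt_nonneg (nsq (lt c g))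
    by_contra hne
    have hpos : 0 < Real.sqrt (nsq (lt c g)) := lt_of_le_of_ne h5 (Ne.symm hne)
    have h6 : (Lam b (Fintype.card ι) : ℝ) *
      (2 * z.length * Real.sqrt (kap b (Fintype.card ι)) * Real.sqrt (nsq (lt c g))) =
      (Lam b (Fintype.card ι) : ℝ) * (2 * z.length * Real.sqrt (kap b (Fintype.card ι))) *
      Real.sqrt (nsq (lt c g)) := by ring
    rw [h6] at hb
    nlinarith [mul_lt_mul_of_pos_right hk1 hpos]
  have hz0 : nsq (lt c g) = 0 := (Real.sqrt_eq_zero (nsq_nonneg _)).1 hs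
  have h7 := nsq_avg_le z (lt c g)
  rw [hz0] at hlt h7
  rw [mul_zero] at hlt
  linarith

end Pool.Agent.Lib.MP_c6e9f4_al.Bnd
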