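import Pool.Agent.Lib.MP_c6e9f4_al.Bnd.BDefs

/-!
ROW KN (70 lines). Numerical inequality. `κ := kap b r = 1/(32 Λ² (r b + 1)²)`, `Λ = Lam b r ≥ 1`, `m ≥ mm b r d = 128 Λ² (r b + 1)² (d + 2 + r b)`, `x := d + 2 + r b`.
`κ m ≥ 4 x`. `1 - κ ≤ exp (-κ)`, `0 ≤ 1 - κ`, `m - m/4 ≥ 3 m / 4` (nat division), so `√((1 - κ)^(m - m/4)) ≤ exp (-3 κ m / 8) ≤ exp (-(3/2) x) ≤ (1/4)^x` (`exp (3/2) ≥ 4`: `exp 1 > 2.7182`, `2.7182^3 > 16`). `(1/2)^L ≤ (1/2)^m ≤ (1/4)^x`. `b ^ r ≤ 2 ^ (r b)`, so the right side is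
`≥ (1/2)^(d + r b) = 4 (1/2)^x`. And `2 (1/4)^x < 4 (1/2)^x`.
-/

set_option autoImplicit false

namespace Pool.Agent.Lib.MP_c6e9f4_al.Bnd

open Pool.Agent.Lib.MP_c6e9f4_al.Exp (Bad DB LenFun)
open Pool.Agent.Lib.MP_c6e9f4_al.Nil (DU)

theorem key_num (b r d m L : ℕ) (hb : 1 ≤ b) (hm : mm b r d ≤ m) (hL : m ≤ L) :
    (1 / 2 : ℝ) ^ L + Real.sqrt ((1 - kap b r) ^ (m - m / 4)) <
      (1 / 2 : ℝ) ^ d / (b : ℝ) ^ r := by
  have hb0 : 0 < b := hb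
  have hLam : 1 ≤ Lam b r := by
    unfold Lam
    exact Nat.one_le_iff_ne_zero.mpr (by positivity)
  obtain ⟨x, hx⟩ : ∃ x : ℕ, x = d + 2 + r * b := ⟨_, rfl⟩
  obtain ⟨K, hK⟩ : ∃ K : ℕ, K = Lam b r ^ 2 * (r * b + 1) ^ 2 := ⟨_, rfl⟩
  have hK1 : 1 ≤ K := by
    rw [hK]
    exact Nat.one_le_iff_ne_zero.mpr (by positivity)
  have hK1' : (1 : ℝ) ≤ K := by exact_mod_cast hK1
  have hkap : kap b r = 1 / (32 * (K : ℝ)) := by
    unfold kap
    rw [hK]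
    push_cast
    ring_nf
  have hmx : 128 * K * x ≤ m := by
    have h1 : mm b r d = 128 * K * x := by
      unfold mm
      rw [hK, hx]
      ring
    rw [← h1]
    exact hm
  have hmx' : (128 : ℝ) * K * x ≤ m := by exact_mod_cast hmx
  have hκ0 : 0 < kap b r := by rw [hkap]; positivity
  have hκ1 : kap b r ≤ 1 := by
    rw [hkap, div_le_one (by positivity)]
    linarith
  have hκm : 4 * (x : ℝ) ≤ kap b r * m := by
    rw [hkap, div_mul_eq_mul_div, one_mul, le_div_iff₀ (by positivity)]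
    nlinarith
  have hx0 : (0 : ℝ) ≤ x := Nat.cast_nonneg _
  have hN : 3 / 4 * (m : ℝ) ≤ ((m - m / 4 : ℕ) : ℝ) := by
    have h1 : 3 * m ≤ 4 * (m - m / 4) := by omega
    have h2 : (3 : ℝ) * m ≤ 4 * ((m - m / 4 : ℕ) : ℝ) := by exact_mod_cast h1
    linarith
  have hsq : Real.sqrt ((1 - kap b r) ^ (m - m / 4)) ≤ (1 / 4 : ℝ) ^ x := by
    rw [Real.sqrt_le_left (by positivity)]
    have h1 : (1 - kap b r) ^ (m - m / 4) ≤ Real.exp (-(kap b r)) ^ (m - m / 4) := by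
      apply pow_le_pow_left₀ (by linarith)
      have := Real.add_one_le_exp (-(kap b r))
      linarith
    have h2 : Real.exp (-(kap b r)) ^ (m - m / 4) ≤ Real.exp (-(3 * (x : ℝ))) := by
      rw [← Real.exp_nat_mul]
      apply Real.exp_le_exp.mpr
      nlinarith
    have h3 : Real.exp (-(3 * (x : ℝ))) ≤ ((1 / 4 : ℝ) ^ x) ^ 2 := by
      have h4 : Real.exp (-(3 * (x : ℝ))) = Real.exp (-3) ^ x := by
        rw [← Real.exp_nat_mul]
        ring_nf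
      rw [h4, ← pow_mul, mul_comm x 2, pow_mul]
      apply pow_le_pow_left₀ (Real.exp_pos _).le
      rw [Real.exp_neg]
      have h5 : (16 : ℝ) ≤ Real.exp 3 := by
        have h6 := Real.exp_one_gt_d9
        have h7 : Real.exp 3 = Real.exp 1 ^ 3 := by
          rw [← Real.exp_nat_mul]
          norm_num
        rw [h7]
        calc (16 : ℝ) ≤ 2.7 ^ 3 := by norm_num
          _ ≤ Real.exp 1 ^ 3 := by
            apply pow_le_pow_left₀ (by norm_num)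
            linarith
      calc (Real.exp 3)⁻¹ ≤ (16 : ℝ)⁻¹ := by
            apply inv_anti₀ (by norm_num) h5
        _ = (1 / 4 : ℝ) ^ 2 := by norm_num
    exact h1.trans (h2.trans h3)
  have hL2 : (1 / 2 : ℝ) ^ L ≤ (1 / 4 : ℝ) ^ x := by
    have h1 : 2 * x ≤ L := by
      have h2 : 2 * x ≤ 128 * K * x := by nlinarith [Nat.zero_le x]
      omega
    calc (1 / 2 : ℝ) ^ L ≤ (1 / 2 : ℝ) ^ (2 * x) :=
          pow_le_pow_of_le_one (by norm_num) (by norm_num) h1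
      _ = (1 / 4 : ℝ) ^ x := by
          rw [pow_mul]
          norm_num
  have hR : 4 * (1 / 2 : ℝ) ^ x ≤ (1 / 2 : ℝ) ^ d / (b : ℝ) ^ r := by
    have h1 : (b : ℝ) ^ r ≤ 2 ^ (r * b) := by
      have h2 : b ≤ 2 ^ b := Nat.lt_two_pow_self.le
      have h3 : b ^ r ≤ (2 ^ b) ^ r := Nat.pow_le_pow_left h2 r
      rw [← pow_mul, mul_comm b r] at h3
      exact_mod_cast h3
    have hbr : (0 : ℝ) < (b : ℝ) ^ r := by positivity
    rw [le_div_iff₀ hbr]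
    calc 4 * (1 / 2 : ℝ) ^ x * (b : ℝ) ^ r ≤ 4 * (1 / 2 : ℝ) ^ x * 2 ^ (r * b) := by
          apply mul_le_mul_of_nonneg_left h1
          positivity
      _ = (1 / 2 : ℝ) ^ d := by
          rw [hx, pow_add, pow_add]
          have h4 : (1 / 2 : ℝ) ^ (r * b) * 2 ^ (r * b) = 1 := by
            rw [← mul_pow]
            norm_num
          calc 4 * ((1 / 2 : ℝ) ^ d * (1 / 2 : ℝ) ^ 2 * (1 / 2 : ℝ) ^ (r * b)) * 2 ^ (r * b) =
                (1 / 2 : ℝ) ^ d * (4 * (1 / 2 : ℝ) ^ 2) * ((1 / 2 : ℝ) ^ (r * b) * 2 ^ (r * b)) := by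
                ring
            _ = (1 / 2 : ℝ) ^ d := by rw [h4]; norm_num
  have hlt : 2 * (1 / 4 : ℝ) ^ x < 4 * (1 / 2 : ℝ) ^ x := by
    have h1 : (1 / 4 : ℝ) ^ x ≤ (1 / 2 : ℝ) ^ x :=
      pow_le_pow_left₀ (by norm_num) (by norm_num) x
    have h2 : (0 : ℝ) < (1 / 2 : ℝ) ^ x := by positivity
    linarith
  linarith

end Pool.Agent.Lib.MP_c6e9f4_al.Bnd
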