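import Pool.Agent.Lib.MP_c6e9f4_al.Bnd.KB
import Pool.Agent.Lib.MP_c6e9f4_al.Bnd.KF
import Pool.Agent.Lib.MP_c6e9f4_al.Bnd.KN
import Pool.Agent.Lib.MP_c6e9f4_al.Bnd.AB
import Pool.Agent.Lib.MP_c6e9f4_al.Bnd.OL

/-!
ROW KY (110 lines). The key theorem: `W = V 0 ++ .. ++ V (m-1)` is not bad. `H := gen W`, `r := card ι`, `κ := kap b r`.
Proof. Suppose `W` is bad. `ip (Avg W δ) δ = Avg W δ 1 = (1/2)^W.length` for `δ := ind {1}` (bad_avg), `nsq δ = 1`, `m ≤ W.length` (nonempty blocks). Apply `abstract_decomp` with `X := ∀ i, T i` (finite: each `T i` is), `E := ι`, `s := {i | Full H i}`, `A i := AN (Nn H i)`,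
`M := Avg W`, `θ := √((1 - κ)^(m - m/4))`, `f := δ`. Hypotheses: AN_add, AN_idem, AN_symm; hcomm: if `Lnk H e e'` then `Nn H e = Nn H e'` (Nn_congr), else Nn_comm and AN_comm; avg_add; AN_avg with Nn_conj. hcontr: if `J` is closed under the classes of `H` (`∀ i ∈ J, cl H i ⊆ J`), use
`count_fail` (V k := gen (V k) ≤ H): `nbad ≤ m/4`, and `block_contract` with `(1 - κ)^(m - nbad) ≤ (1 - κ)^(m - m/4)` (`0 ≤ 1 - κ ≤ 1`), `θ ^ 2 = (1 - κ)^(m - m/4)`. If `J` is not closed: `i ∈ J`, `j ∉ J`, `Lnk H i j` (so `j ∈ s`): `0 = A i g = A j g = g`, so `g = 0` and `nsq (M g) = 0` (avg_zero).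
We get `g` with `ip (Avg W g) g - θ ≤ (1/2)^W.length`; `fixed_part` gives `(1/2)^d / b^r ≤ ip (Avg W g) g`: contradiction to `key_num` with `L := W.length`. (If `ι` is empty: `b` may be arbitrary; then every list is a list of ones, and `W` is not
empty as `m ≥ 1`, so it is not bad; otherwise `b ≥ 1` by `Simp`. `m ≥ mm b r d ≥ 1` needs `b ≥ 1`, for `ι` empty and `b = 0` the hypothesis `hb` is used: it is an hypothesis of the theorem.)
-/

set_option autoImplicit false

namespace Pool.Agent.Lib.MP_c6e9f4_al.Bnd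

open Pool.Agent.Lib.MP_c6e9f4_al.Exp (Bad DB LenFun)
open Pool.Agent.Lib.MP_c6e9f4_al.Nil (DU)

private theorem ky_len {α : Type} : ∀ {m : ℕ} (V : Fin m → List α), (∀ k, V k ≠ []) →
    m ≤ (List.ofFn V).flatten.length := by
  intro m
  induction m with
  | zero => intro V _; exact Nat.zero_le _
  | succ m ih =>
    intro V hV
    rw [List.ofFn_succ, List.flatten_cons, List.length_append]
    have h1 := ih (fun i => V i.succ) (fun k => hV k.succ)
    have h2 : 1 ≤ (V 0).length := List.length_pos_iff.mpr (hV 0)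
    omega

private theorem ky_kap (b r : ℕ) : 0 ≤ 1 - kap b r ∧ 1 - kap b r ≤ 1 := by
  unfold kap
  rcases Nat.eq_zero_or_pos (Lam b r) with h | h
  · rw [h]; simp
  · have h1 : (1 : ℝ) ≤ (Lam b r : ℝ) := by exact_mod_cast h
    have h2 : (1 : ℝ) ≤ ((r * b + 1 : ℕ) : ℝ) := by
      exact_mod_cast Nat.succ_le_succ (Nat.zero_le (r * b))
    have h3 : (1 : ℝ) ≤ (Lam b r : ℝ) ^ 2 := one_le_pow₀ h1
    have h4 : (1 : ℝ) ≤ ((r * b + 1 : ℕ) : ℝ) ^ 2 := one_le_pow₀ h2
    have h5 : (1 : ℝ) ≤ (Lam b r : ℝ) ^ 2 * ((r * b + 1 : ℕ) : ℝ) ^ 2 := one_le_mul_of_one_le_of_one_le h3 h4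
    have h6 : (1 : ℝ) ≤ 32 * (Lam b r : ℝ) ^ 2 * ((r * b + 1 : ℕ) : ℝ) ^ 2 := by nlinarith
    have h7 : 1 / (32 * (Lam b r : ℝ) ^ 2 * ((r * b + 1 : ℕ) : ℝ) ^ 2) ≤ 1 := by
      rw [div_le_one (by linarith)]; exact h6
    have h8 : 0 ≤ 1 / (32 * (Lam b r : ℝ) ^ 2 * ((r * b + 1 : ℕ) : ℝ) ^ 2) := by positivity
    constructor <;> linarith

private theorem ky_nsq {G : Type} [Group G] [Fintype G] : nsq (ind ({1} : Set G)) = 1 := by
  classical
  unfold nsq ind
  rw [Finset.sum_eq_single (1 : G)]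
  · simp
  · intro x _ hx
    have : x ∉ ({1} : Set G) := hx
    rw [if_neg this]
    norm_num
  · intro h
    exact absurd (Finset.mem_univ _) h

private theorem ky_ip {G : Type} [Group G] [Fintype G] (f : G → ℝ) : ip f (ind ({1} : Set G)) = f 1 := by
  classical
  unfold ip ind
  rw [Finset.sum_eq_single (1 : G)]
  · simp
  · intro x _ hx
    have : x ∉ ({1} : Set G) := hx
    rw [if_neg this]
    norm_num
  · intro h
    exact absurd (Finset.mem_univ _) h

theorem key {ι : Type} [Fintype ι] {T : ι → Type} [∀ i, Group (T i)] {b : ℕ} (hb : 1 ≤ b)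
    (hT : ∀ i, Simp b (T i)) {m : ℕ} (V : Fin m → List (∀ i, T i)) (hV : ∀ k, V k ≠ []) (d : ℕ)
    (hlight : ∀ i, Full (gen (List.ofFn V).flatten) i →
      8 * nlight (fun k => gen (V k)) (gen (List.ofFn V).flatten) i ≤ m)
    (hd : DB (((gen (List.ofFn V).flatten).map (res {i | ¬ Full (gen (List.ofFn V).flatten) i}) :
      Subgroup (∀ i : {i | ¬ Full (gen (List.ofFn V).flatten) i}, T i)) :
      Set (∀ i : {i | ¬ Full (gen (List.ofFn V).flatten) i}, T i)) d)
    (hm : mm b (Fintype.card ι) d ≤ m) : ¬ Bad (List.ofFn V).flatten := by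
  classical
  intro hbad
  have : ∀ i, Finite (T i) := fun i => (hT i).fin
  haveI : Fintype (∀ i, T i) := Fintype.ofFinite _
  have hlen := ky_len V hV
  have hmem : ∀ v ∈ (List.ofFn V).flatten, v ∈ gen (List.ofFn V).flatten :=
    fun v hv => Subgroup.subset_closure hv
  have hVmem : ∀ k, ∀ v ∈ V k, v ∈ (List.ofFn V).flatten := by
    intro k v hv
    rw [List.mem_flatten]
    exact ⟨V k, (List.mem_ofFn' V _).mpr ⟨k, rfl⟩, hv⟩
  have hVle : ∀ k, gen (V k) ≤ gen (List.ofFn V).flatten :=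
    fun k => Subgroup.closure_mono fun v hv => hVmem k v hv
  obtain ⟨hk0, hk1⟩ := ky_kap b (Fintype.card ι)
  set H := gen (List.ofFn V).flatten with hH
  set W := (List.ofFn V).flatten with hW
  have hmemJ : ∀ i, i ∈ (Finset.univ.filter (fun i => Full H i)) ↔ Full H i := by
    intro i
    simp
  have hθ : Real.sqrt ((1 - kap b (Fintype.card ι)) ^ (m - m / 4)) ^ 2 =
      (1 - kap b (Fintype.card ι)) ^ (m - m / 4) := Real.sq_sqrt (pow_nonneg hk0 _)
  obtain ⟨g, hg1, hg2, hg3⟩ := abstract_decomp (X := ∀ i, T i) (E := ι)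
    (Finset.univ.filter (fun i => Full H i)) (fun i => AN (Nn H i)) (Avg W)
    (fun e _ f g => AN_add (Nn H e) f g) (fun e _ f => AN_idem (Nn H e) f)
    (fun e _ f g => AN_symm (Nn H e) f g)
    (by
      intro e he e' _ f
      by_cases hl : Lnk H e e'
      · rw [Nn_congr hT hl]
      · exact AN_comm _ _ (Nn_comm hT ((hmemJ e).mp he) hl) f)
    (fun f g => avg_add W f g)
    (fun e _ f => (AN_avg (Nn H e) W (fun c hc => Nn_conj e c (hmem c hc)) f).symm)
    (Real.sqrt ((1 - kap b (Fintype.card ι)) ^ (m - m / 4))) (Real.sqrt_nonneg _)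
    (by
      intro J hJs hJ g h0 h1
      have hJf : ∀ i ∈ J, Full H i := fun i hi => (hmemJ i).mp (hJs hi)
      rw [hθ]
      by_cases hc : ∀ i ∈ J, cl H i ⊆ J
      · have hcf := count_fail hT (fun k => gen (V k)) H hVle hlight J hJ hJf hc
        have hbc := block_contract hT V H (fun k v hv => hmem v (hVmem k v hv)) J hJf g h0
          (fun i hi hiJ => h1 i ((hmemJ i).mpr hi) hiJ)
        refine hbc.trans (mul_le_mul_of_nonneg_right ?_ (nsq_nonneg g))
        exact pow_le_pow_of_le_one hk0 hk1 (by omega)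
      · push Not at hc
        obtain ⟨i, hi, hic⟩ := hc
        obtain ⟨j, hj, hjJ⟩ := Finset.not_subset.mp hic
        have hl : Lnk H i j := mem_cl.mp hj
        have e1 : AN (Nn H j) g = g := h1 j ((hmemJ j).mpr hl.2.1) hjJ
        have e2 : AN (Nn H i) g = fun _ => 0 := h0 i hi
        rw [Nn_congr hT hl, e1] at e2
        rw [e2, avg_zero]
        have : nsq (fun _ : (∀ i, T i) => (0 : ℝ)) = 0 := by
          unfold nsq
          exact Finset.sum_eq_zero fun x _ => by norm_num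
        rw [this, mul_zero])
    (ind {1})
  have hfp := fixed_part hT W d hd g (fun i hi => hg1 i ((hmemJ i).mpr hi))
    (fun h hh => hg2 h (fun e he => hh e ((hmemJ e).mp he)))
  rw [ky_nsq, mul_one, ky_ip, bad_avg W hbad] at hg3
  have hkn := key_num b (Fintype.card ι) d m W.length hb hm hlen
  linarith

end Pool.Agent.Lib.MP_c6e9f4_al.Bnd
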