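import Pool.Agent.Lib.MP_c6e9f4_al.Bnd.BDefs

/-!
ROW LA. The series `G, KK B G, ..`.
-/

set_option autoImplicit false

namespace Pool.Agent.Lib.MP_c6e9f4_al.Bnd

open Pool.Agent.Lib.MP_c6e9f4_al.Exp (Bad DB LenFun)
open Pool.Agent.Lib.MP_c6e9f4_al.Nil (DU)

theorem KK_map (B : ℕ) {G G' : Type} [Group G] [Group G'] (f : G →* G') (x : G)
    (hx : x ∈ KK B G) : f x ∈ KK B G' := by
  unfold KK at hx ⊢
  rw [Subgroup.mem_sInf] at hx ⊢
  rintro N ⟨hN, h⟩
  refine hx (N.comap f) ⟨hN.comap f, ?_⟩
  rcases h with h | ⟨h1, h2⟩
  · left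
    intro a b
    have h3 := h (f a) (f b)
    rw [Subgroup.mem_comap]
    simpa using h3
  · right
    have hd : N.relIndex f.range ∣ N.index := Subgroup.relIndex_dvd_index_of_normal N f.range
    rw [Subgroup.index_comap]
    exact ⟨fun h0 => h1 (by rw [h0] at hd; exact Nat.eq_zero_of_zero_dvd hd),
      (Nat.le_of_dvd (Nat.pos_of_ne_zero h1) hd).trans h2⟩

/-- The restriction of a homomorphism to the second terms of the series. -/
private def laMap (B : ℕ) {G G' : Type} [Group G] [Group G'] (f : G →* G') :
    KK B G →* KK B G' :=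
  (f.comp (KK B G).subtype).codRestrict (KK B G') (fun x => KK_map B f x x.2)

private theorem laMap_coe (B : ℕ) {G G' : Type} [Group G] [Group G'] (f : G →* G')
    (x : KK B G) : ((laMap B f x : KK B G') : G') = f (x : G) := rfl

theorem Lay.of_injective {B m : ℕ} {G H : Type} [Group G] [Group H] (h : Lay B m G) (f : H →* G)
    (hf : Function.Injective f) : Lay B m H := by
  induction m generalizing G H with
  | zero =>
    intro g
    apply hf
    rw [map_one]
    exact h (f g)
  | succ m ih =>
    refine ih (G := KK B G) (H := KK B H) h (laMap B f) ?_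
    intro x y hxy
    apply Subtype.ext
    apply hf
    rw [← laMap_coe B f x, ← laMap_coe B f y, hxy]

private theorem la_succ {B m : ℕ} {G : Type} [Group G] (h : Lay B m G) : Lay B (m + 1) G := by
  induction m generalizing G with
  | zero =>
    intro g
    exact Subtype.ext (h (g : G))
  | succ m ih => exact ih (G := KK B G) h

theorem Lay.mono {B m m' : ℕ} {G : Type} [Group G] (h : Lay B m G) (hm : m ≤ m') :
    Lay B m' G := by
  induction m', hm using Nat.le_induction with
  | base => exact h
  | succ n _ ih => exact la_succ ih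

theorem Lay.family {B m : ℕ} {ι G : Type} [Group G] {K : ι → Type} [∀ i, Group (K i)]
    (f : ∀ i, G →* K i) (hf : ∀ g, (∀ i, f i g = 1) → g = 1) (h : ∀ i, Lay B m (K i)) :
    Lay B m G := by
  induction m generalizing G K with
  | zero =>
    intro g
    exact hf g (fun i => h i (f i g))
  | succ m ih =>
    refine ih (G := KK B G) (K := fun i => KK B (K i)) (fun i => laMap B (f i)) ?_ h
    intro g hg
    apply Subtype.ext
    refine hf (g : G) (fun i => ?_)
    rw [← laMap_coe B (f i) g, hg i]
    rfl

theorem Lay.ext {B a b : ℕ} {G K : Type} [Group G] [Group K] (f : G →* K) (hK : Lay B a K)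
    (hN : Lay B b f.ker) : Lay B (a + b) G := by
  induction a generalizing G K with
  | zero =>
    rw [Nat.zero_add]
    refine Lay.of_injective hN
      ((MonoidHom.id G).codRestrict f.ker (fun g => (MonoidHom.mem_ker).2 (hK (f g)))) ?_
    intro x y hxy
    exact congrArg (fun z : f.ker => (z : G)) hxy
  | succ a ih =>
    rw [Nat.add_right_comm]
    refine ih (G := KK B G) (K := KK B K) (laMap B f) hK ?_
    refine Lay.of_injective hN (((KK B G).subtype.comp (laMap B f).ker.subtype).codRestrict
      f.ker (fun g => ?_)) ?_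
    · rw [MonoidHom.mem_ker]
      have h1 : laMap B f (g : KK B G) = 1 := (MonoidHom.mem_ker).1 g.2
      have h2 := laMap_coe B f (g : KK B G)
      rw [h1] at h2
      exact h2.symm
    · intro x y hxy
      have h1 : (((x : KK B G) : G)) = ((y : KK B G) : G) :=
        congrArg (fun z : f.ker => (z : G)) hxy
      exact Subtype.ext (Subtype.ext h1)

end Pool.Agent.Lib.MP_c6e9f4_al.Bnd
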