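import Pool.Agent.Lib.MP_c6e9f4_al.Bnd.SE

/-!
ROW MX (70 lines). Maximal normal subgroups of finite groups.
* exists_max_normal: among the normal subgroups different from `⊤` (`⊥` is one) take one, `N`, of maximal order. `G ⧸ N` is nontrivial, and a normal subgroup `M` of `G ⧸ N` has the normal preimage `M.comap (mk' N) ≥ N`, so it is `N` or `⊤` by maximality.
* simple_cases: if `G ⧸ N` is commutative and simple its order is prime (`IsSimpleGroup.prime_card`, needs a `CommGroup` structure: `{ (inferInstance : Group _) with mul_comm := .. }`); otherwise it is nonabelian and `SS.of_surjective`, `SS.simple` give the order in `S`.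
* max_normal: if `G` is trivial: `N = ⊤`, `Nat.card N = 1 ≤ β`. Otherwise by the above; `2 * Nat.card N ≤ Nat.card G ≤ β + 1 ≤ 2 β`.
-/

set_option autoImplicit false

namespace Pool.Agent.Lib.MP_c6e9f4_al.Bnd

open Pool.Agent.Lib.MP_c6e9f4_al.Exp (Bad DB LenFun)
open Pool.Agent.Lib.MP_c6e9f4_al.Nil (DU)

theorem exists_max_normal (G : Type) [Group G] [Finite G] [Nontrivial G] :
    ∃ (N : Subgroup G) (_ : N.Normal), N ≠ ⊤ ∧ IsSimpleGroup (G ⧸ N) := by
  have hfin : {N : Subgroup G | N.Normal ∧ N ≠ ⊤}.Finite := Set.toFinite _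
  have hne : {N : Subgroup G | N.Normal ∧ N ≠ ⊤}.Nonempty := ⟨⊥, inferInstance, bot_ne_top⟩
  obtain ⟨N, ⟨hNn, hNt⟩, hmax⟩ := hfin.exists_maximal hne
  have hnt : Nontrivial (G ⧸ N) := QuotientGroup.nontrivial_iff.2 hNt
  refine ⟨N, hNn, hNt, { toNontrivial := hnt, eq_bot_or_eq_top_of_normal := fun M hM => ?_ }⟩
  have hsurj : Function.Surjective (QuotientGroup.mk' N) := QuotientGroup.mk'_surjective N
  by_cases ht : M.comap (QuotientGroup.mk' N) = ⊤
  · right
    apply Subgroup.comap_injective hsurj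
    rw [ht, Subgroup.comap_top]
  · left
    have hle : N ≤ M.comap (QuotientGroup.mk' N) := by
      intro x hx
      rw [Subgroup.mem_comap, QuotientGroup.mk'_apply, (QuotientGroup.eq_one_iff x).2 hx]
      exact M.one_mem
    have hnn : (M.comap (QuotientGroup.mk' N)).Normal := hM.comap _
    have hle2 : M.comap (QuotientGroup.mk' N) ≤ N := hmax ⟨hnn, ht⟩ hle
    apply Subgroup.comap_injective hsurj
    rw [le_antisymm hle2 hle, MonoidHom.comap_bot, QuotientGroup.ker_mk']

theorem simple_cases {S : Finset ℕ} {G : Type} [Group G] [Finite G] (hS : SS S G)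
    (N : Subgroup G) [N.Normal] (h : IsSimpleGroup (G ⧸ N)) :
    ((∀ x y : G ⧸ N, x * y = y * x) ∧ (Nat.card (G ⧸ N)).Prime) ∨
      ∃ b ∈ S, Simp b (G ⧸ N) := by
  by_cases hc : ∀ x y : G ⧸ N, x * y = y * x
  · left
    refine ⟨hc, ?_⟩
    let _ : CommGroup (G ⧸ N) := { (inferInstance : Group (G ⧸ N)) with mul_comm := hc }
    exact IsSimpleGroup.prime_card
  · right
    push Not at hc
    exact ⟨_, (hS.of_surjective (QuotientGroup.mk' N) (QuotientGroup.mk'_surjective N)).simple h hc,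
      ⟨h, hc, rfl, inferInstance⟩⟩

theorem max_normal {S : Finset ℕ} {β : ℕ} (hβ : 1 ≤ β) {G : Type} [Group G] [Finite G]
    (hc : Nat.card G ≤ β + 1) (hS : SS S G) :
    ∃ (N : Subgroup G) (_ : N.Normal), Nat.card N ≤ β ∧
      ((∀ x : G ⧸ N, x = 1) ∨ ((Nat.card (G ⧸ N)).Prime ∧ Nat.card (G ⧸ N) ≤ β + 1) ∨
        ∃ b ∈ S, Simp b (G ⧸ N)) := by
  rcases subsingleton_or_nontrivial G with hG | hG
  · refine ⟨⊤, inferInstance, ?_, Or.inl fun x => ?_⟩
    · have : Nat.card (⊤ : Subgroup G) = 1 := Nat.card_unique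
      omega
    · exact Subsingleton.elim _ _
  · obtain ⟨N, hN, hNt, hs⟩ := exists_max_normal G
    have hnt : Nontrivial (G ⧸ N) := hs.toNontrivial
    have h1 : 1 < Nat.card (G ⧸ N) := Finite.one_lt_card
    have h2 := Subgroup.card_eq_card_quotient_mul_card_subgroup N
    have h3 : 0 < Nat.card N := Nat.card_pos
    have h4 : 2 * Nat.card N ≤ Nat.card G := by rw [h2]; exact Nat.mul_le_mul_right _ h1
    have h5 : Nat.card (G ⧸ N) ≤ Nat.card G := by rw [h2]; exact Nat.le_mul_of_pos_right _ h3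
    refine ⟨N, hN, by omega, Or.inr ?_⟩
    rcases simple_cases hS N hs with ⟨-, hp⟩ | hb
    · exact Or.inl ⟨hp, h5.trans hc⟩
    · exact Or.inr hb

end Pool.Agent.Lib.MP_c6e9f4_al.Bnd
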