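import Pool.Agent.Lib.MP_c6e9f4_al.Bnd.LA
import Pool.Agent.Lib.MP_c6e9f4_al.Bnd.MX

/-!
ROW LC (50 lines). Strong induction on `Nat.card G`. `G` trivial: `Nat.log 2 1 = 0`, `Lay _ 0 G`. Otherwise take `N` by exists_max_normal; by simple_cases either `G ⧸ N` is commutative (then `a b a⁻¹ b⁻¹ ∈ N` for all `a b`) or `N.index = b ∈ S`, `b ≤ S.sup id` (`Finset.le_sup`), `N.index ≠ 0`. So `KK (S.sup id) G ≤ N`
(`sInf_le`), `Nat.card (KK ..) ≤ Nat.card N ≤ Nat.card G / 2`, `Nat.log 2 (Nat.card (KK ..)) + 1 ≤ Nat.log 2 (Nat.card G)` (`Nat.log_div_base` or `Nat.log_mul_base`). Induction hypothesis for `KK` (SS.of_injective for the inclusion), Lay.mono, and unfold `Lay (m + 1)`.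
-/

set_option autoImplicit false

namespace Pool.Agent.Lib.MP_c6e9f4_al.Bnd

open Pool.Agent.Lib.MP_c6e9f4_al.Exp (Bad DB LenFun)
open Pool.Agent.Lib.MP_c6e9f4_al.Nil (DU)

theorem lay_card (S : Finset ℕ) : ∀ (G : Type) [Group G] [Finite G], SS S G →
    Lay (S.sup id) (Nat.log 2 (Nat.card G)) G := by
  suffices H : ∀ (n : ℕ) (G : Type) [Group G] [Finite G], Nat.card G ≤ n → SS S G →
      Lay (S.sup id) (Nat.log 2 (Nat.card G)) G from fun G _ _ h => H (Nat.card G) G le_rfl h
  intro n
  induction n with
  | zero =>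
    intro G _ _ hc
    have := Nat.card_pos (α := G)
    omega
  | succ n ih =>
    intro G _ _ hc hS
    by_cases hG : Nontrivial G
    · obtain ⟨N, hN, hNt, hsimp⟩ := exists_max_normal G
      have hcard : Nat.card N * N.index = Nat.card G := N.card_mul_index
      have hidx : 2 ≤ N.index := by
        have h1 : N.index ≠ 1 := fun h => hNt (Subgroup.index_eq_one.mp h)
        have h0 : N.index ≠ 0 := Subgroup.index_ne_zero_of_finite
        omega
      have hKN : KK (S.sup id) G ≤ N := by
        apply sInf_le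
        refine ⟨hN, ?_⟩
        rcases simple_cases hS N hsimp with ⟨h, -⟩ | ⟨b, hb, hs⟩
        · left
          intro x y
          have h1 := h (x : G ⧸ N) (y : G ⧸ N)
          rw [← QuotientGroup.eq_one_iff]
          show (x : G ⧸ N) * (y : G ⧸ N) * (x : G ⧸ N)⁻¹ * (y : G ⧸ N)⁻¹ = 1
          rw [h1]
          group
        · right
          refine ⟨by omega, ?_⟩
          have h1 : N.index = b := by rw [Subgroup.index, hs.card]
          rw [h1]
          exact Finset.le_sup (f := id) hb
      have h2 : Nat.card (KK (S.sup id) G) ≤ Nat.card N :=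
        Nat.card_le_card_of_injective _ (Subgroup.inclusion_injective hKN)
      have h3 : Nat.card (KK (S.sup id) G) * 2 ≤ Nat.card G := by nlinarith
      have h0 : 0 < Nat.card (KK (S.sup id) G) := Nat.card_pos
      have h4 : Nat.log 2 (Nat.card (KK (S.sup id) G)) + 1 ≤ Nat.log 2 (Nat.card G) := by
        rw [← Nat.log_mul_base one_lt_two h0.ne']
        exact Nat.log_mono_right h3
      have h5 : Lay (S.sup id) (Nat.log 2 (Nat.card (KK (S.sup id) G)) + 1) G :=
        ih (KK (S.sup id) G) (by omega) (hS.of_injective (KK (S.sup id) G).subtype (Subgroup.subtype_injective _))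
      exact h5.mono h4
    · have h1 : Subsingleton G := not_nontrivial_iff_subsingleton.mp hG
      have h2 : Nat.log 2 (Nat.card G) = 0 := by
        rw [Nat.card_of_subsingleton (1 : G)]
        simp
      rw [h2]
      intro g
      exact Subsingleton.elim _ _

end Pool.Agent.Lib.MP_c6e9f4_al.Bnd
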