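import Pool.Agent.Lib.MP_c6e9f4_al.Bnd.SE

/-!
ROW MB (150 lines). Structure of a nonabelian minimal normal subgroup `N` of a finite group `G` with `SS S G`.
Proof. Among the subgroups `T ≤ N`, `T ≠ ⊥`, normalised by `N` (`∀ n ∈ N, ∀ t ∈ T, n * t * n⁻¹ ∈ T`; `N` itself is one) take `T` of minimal order. `𝒯 := {g T g⁻¹ | g : G}` (`T.map (MulAut.conj g).toMonoidHom`). Each member is `≤ N` (`N` normal), `≠ ⊥`, normalised by `N`, and minimal with these properties (same
order as `T`, or conjugate back). `sSup 𝒯` is normal in `G`, `≤ N`, `≠ ⊥`, so `= N` (hmin). For `T1 ≠ T2` in `𝒯`: `T1 ⊓ T2` is normalised by `N`; if it were not `⊥` it would equal `T1` and `T2` (minimality); so it is `⊥` and the commutator `t1 t2 t1⁻¹ t2⁻¹ ∈ T1 ⊓ T2` is 1.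
`T1` is simple: a normal subgroup `M` of `T1` (as a subgroup `M'` of `G`) is normalised by `T1` and centralised by all `T2 ≠ T1`, so normalised by `sSup 𝒯 = N` (the normaliser is a subgroup containing all members); by minimality `M' = ⊥` or `M' = T1`. `T1` is not commutative: otherwise all members (conjugates) are
commutative and commute with each other, so `N = sSup 𝒯` is commutative (`Subgroup.closure_induction₂`, or: centraliser arguments). So `SS S T1` (of_injective) and SS.simple: `Nat.card T1 ∈ S`, `≤ S.sup id`.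
-/

set_option autoImplicit false

namespace Pool.Agent.Lib.MP_c6e9f4_al.Bnd

open Pool.Agent.Lib.MP_c6e9f4_al.Exp (Bad DB LenFun)
open Pool.Agent.Lib.MP_c6e9f4_al.Nil (DU)

/-- conjugate subgroup -/
private def mbC {G : Type} [Group G] (T : Subgroup G) (g : G) : Subgroup G :=
  T.map (MulAut.conj g).toMonoidHom

private theorem mb_mem {G : Type} [Group G] {T : Subgroup G} {g x : G} :
    x ∈ mbC T g ↔ ∃ t ∈ T, g * t * g⁻¹ = x := by
  unfold mbC
  rw [Subgroup.mem_map]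
  rfl

private theorem mb_card {G : Type} [Group G] (T : Subgroup G) (g : G) :
    Nat.card (mbC T g) = Nat.card T :=
  (Nat.card_congr (T.equivMapOfInjective (MulAut.conj g).toMonoidHom (MulAut.conj g).injective).toEquiv).symm

theorem minnormal_struct {S : Finset ℕ} {G : Type} [Group G] [Finite G] (hS : SS S G)
    (N : Subgroup G) (hN : N.Normal) (hne : N ≠ ⊥)
    (hmin : ∀ M : Subgroup G, M.Normal → M ≤ N → M ≠ ⊥ → M = N)
    (hna : ∃ x ∈ N, ∃ y ∈ N, x * y ≠ y * x) :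
    ∃ 𝒯 : Set (Subgroup G), (∀ T ∈ 𝒯, T ≤ N ∧ Nat.card T ≤ S.sup id ∧
        ∀ n ∈ N, ∀ t ∈ T, n * t * n⁻¹ ∈ T) ∧
      (∀ T ∈ 𝒯, ∀ T' ∈ 𝒯, T ≠ T' → ∀ t ∈ T, ∀ t' ∈ T', t * t' = t' * t) ∧
      N = sSup 𝒯 := by
  -- the property
  obtain ⟨T0, ⟨hT0N, hT0ne, hT0n⟩, hT0min⟩ := Set.exists_min_image
    {T : Subgroup G | T ≤ N ∧ T ≠ ⊥ ∧ ∀ n ∈ N, ∀ t ∈ T, n * t * n⁻¹ ∈ T} (fun T => Nat.card T)
    (Set.toFinite _) ⟨N, le_refl N, hne, fun n hn t ht => mul_mem (mul_mem hn ht) (inv_mem hn)⟩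
  have hle : ∀ g : G, mbC T0 g ≤ N := by
    intro g x hx
    obtain ⟨t, ht, rfl⟩ := mb_mem.1 hx
    exact hN.conj_mem t (hT0N ht) g
  have hne' : ∀ g : G, mbC T0 g ≠ ⊥ := by
    intro g h
    apply hT0ne
    rw [Subgroup.eq_bot_iff_forall] at h ⊢
    intro t ht
    have h1 := h (g * t * g⁻¹) (mb_mem.2 ⟨t, ht, rfl⟩)
    have h2 : t = g⁻¹ * (g * t * g⁻¹) * g := by group
    rw [h2, h1]
    group
  have hnorm : ∀ g : G, ∀ n ∈ N, ∀ t ∈ mbC T0 g, n * t * n⁻¹ ∈ mbC T0 g := by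
    intro g n hn t ht
    obtain ⟨s, hs, rfl⟩ := mb_mem.1 ht
    refine mb_mem.2 ⟨(g⁻¹ * n * g) * s * (g⁻¹ * n * g)⁻¹, ?_, by group⟩
    apply hT0n _ _ _ hs
    have := hN.conj_mem n hn g⁻¹
    rwa [inv_inv] at this
  have hminT : ∀ g : G, ∀ T' : Subgroup G, T' ≤ mbC T0 g → T' ≠ ⊥ → (∀ n ∈ N, ∀ t ∈ T', n * t * n⁻¹ ∈ T') →
      T' = mbC T0 g := by
    intro g T' h1 h2 h3
    apply Subgroup.eq_of_le_of_card_ge h1
    rw [mb_card]
    exact hT0min T' ⟨h1.trans (hle g), h2, h3⟩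
  -- the supremum
  have hsup : N = ⨆ g : G, mbC T0 g := by
    symm
    apply hmin
    · refine ⟨fun x hx g => ?_⟩
      have h1 : (⨆ h : G, mbC T0 h).map (MulAut.conj g).toMonoidHom ≤ ⨆ h : G, mbC T0 h := by
        rw [Subgroup.map_iSup]
        apply iSup_le
        intro h
        refine le_trans ?_ (le_iSup (fun h => mbC T0 h) (g * h))
        intro y hy
        obtain ⟨z, hz, rfl⟩ := Subgroup.mem_map.1 hy
        obtain ⟨t, ht, rfl⟩ := mb_mem.1 hz
        refine mb_mem.2 ⟨t, ht, ?_⟩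
        show g * h * t * (g * h)⁻¹ = g * (h * t * h⁻¹) * g⁻¹
        group
      exact h1 (Subgroup.mem_map.2 ⟨x, hx, rfl⟩)
    · exact iSup_le hle
    · intro h
      apply hne' 1
      rw [eq_bot_iff, ← h]
      exact le_iSup (fun h => mbC T0 h) 1
  -- different members commute
  have hcomm : ∀ g h : G, mbC T0 g ≠ mbC T0 h → ∀ t ∈ mbC T0 g, ∀ t' ∈ mbC T0 h, t * t' = t' * t := by
    intro g h hgh t ht t' ht'
    have hI : mbC T0 g ⊓ mbC T0 h = ⊥ := by
      by_contra hI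
      have hn : ∀ n ∈ N, ∀ t ∈ mbC T0 g ⊓ mbC T0 h, n * t * n⁻¹ ∈ mbC T0 g ⊓ mbC T0 h := by
        intro n hn t ht
        exact ⟨hnorm g n hn t ht.1, hnorm h n hn t ht.2⟩
      have h1 := hminT g _ inf_le_left hI hn
      have h2 := hminT h _ inf_le_right hI hn
      exact hgh (h1.symm.trans h2)
    have h1 : t * t' * t⁻¹ * t'⁻¹ ∈ mbC T0 g ⊓ mbC T0 h := by
      refine ⟨?_, ?_⟩
      · have h2 : t * t' * t⁻¹ * t'⁻¹ = t * (t' * t⁻¹ * t'⁻¹) := by group
        rw [h2]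
        exact (mbC T0 g).mul_mem ht (hnorm g t' (hle h ht') _ ((mbC T0 g).inv_mem ht))
      · exact (mbC T0 h).mul_mem (hnorm h t (hle g ht) _ ht') ((mbC T0 h).inv_mem ht')
    rw [hI, Subgroup.mem_bot] at h1
    have h3 : t * t' = (t * t' * t⁻¹ * t'⁻¹) * (t' * t) := by group
    rw [h3, h1, one_mul]
  -- not commutative
  have hnc : ∀ g : G, ∃ x y : mbC T0 g, x * y ≠ y * x := by
    intro g
    by_contra hc
    push Not at hc
    have h0 : ∀ s ∈ T0, ∀ t ∈ T0, s * t = t * s := by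
      intro s hs t ht
      have h1 := congrArg Subtype.val (hc ⟨g * s * g⁻¹, mb_mem.2 ⟨s, hs, rfl⟩⟩ ⟨g * t * g⁻¹, mb_mem.2 ⟨t, ht, rfl⟩⟩)
      have h2 : g * s * g⁻¹ * (g * t * g⁻¹) = g * t * g⁻¹ * (g * s * g⁻¹) := h1
      have h3 : s * t = g⁻¹ * (g * s * g⁻¹ * (g * t * g⁻¹)) * g := by group
      rw [h3, h2]
      group
    have h1 : ∀ h k : G, ∀ s ∈ mbC T0 h, ∀ t ∈ mbC T0 k, s * t = t * s := by
      intro h k s hs t ht
      by_cases hhk : mbC T0 h = mbC T0 k
      · rw [← hhk] at ht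
        obtain ⟨s', hs', rfl⟩ := mb_mem.1 hs
        obtain ⟨t', ht', rfl⟩ := mb_mem.1 ht
        have h2 : h * s' * h⁻¹ * (h * t' * h⁻¹) = h * (s' * t') * h⁻¹ := by group
        rw [h2, h0 s' hs' t' ht']
        group
      · exact hcomm h k hhk s hs t ht
    have h2 : ∀ x ∈ ⨆ g : G, mbC T0 g, ∀ k : G, ∀ t ∈ mbC T0 k, x * t = t * x := by
      intro x hx
      refine Subgroup.iSup_induction (fun g => mbC T0 g) (C := fun x => ∀ k : G, ∀ t ∈ mbC T0 k, x * t = t * x) hx ?_ ?_ ?_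
      · intro h x hx k t ht
        exact h1 h k x hx t ht
      · intro k t _
        rw [one_mul, mul_one]
      · intro x y hx hy k t ht
        rw [mul_assoc, hy k t ht, ← mul_assoc, hx k t ht, mul_assoc]
    have h3 : ∀ y ∈ ⨆ g : G, mbC T0 g, ∀ x ∈ ⨆ g : G, mbC T0 g, x * y = y * x := by
      intro y hy
      refine Subgroup.iSup_induction (fun g => mbC T0 g) (C := fun y => ∀ x ∈ ⨆ g : G, mbC T0 g, x * y = y * x) hy ?_ ?_ ?_
      · intro k t ht x hx
        exact h2 x hx k t ht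
      · intro x _
        rw [one_mul, mul_one]
      · intro y z hy hz x hx
        rw [← mul_assoc, hy x hx, mul_assoc, hz x hx, mul_assoc]
    obtain ⟨x, hx, y, hy, hxy⟩ := hna
    rw [hsup] at hx hy
    exact hxy (h3 y hy x hx)
  -- simple
  have hsimple : ∀ g : G, IsSimpleGroup (mbC T0 g) := by
    intro g
    obtain ⟨a, b, hab⟩ := hnc g
    have hnt : Nontrivial (mbC T0 g) := ⟨⟨a * b, b * a, hab⟩⟩
    refine { toNontrivial := hnt, eq_bot_or_eq_top_of_normal := fun M hM => ?_ }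
    by_cases hMb : M = ⊥
    · exact Or.inl hMb
    · right
      have hM'le : M.map (mbC T0 g).subtype ≤ mbC T0 g := Subgroup.map_subtype_le M
      have hM'ne : M.map (mbC T0 g).subtype ≠ ⊥ := by
        intro h
        apply hMb
        exact (Subgroup.map_eq_bot_iff_of_injective M (mbC T0 g).subtype_injective).1 h
      have hM'n : ∀ n ∈ N, ∀ t ∈ M.map (mbC T0 g).subtype, n * t * n⁻¹ ∈ M.map (mbC T0 g).subtype := by
        intro n hn
        rw [hsup] at hn
        refine Subgroup.iSup_induction (fun g => mbC T0 g)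
          (C := fun n => ∀ t ∈ M.map (mbC T0 g).subtype, n * t * n⁻¹ ∈ M.map (mbC T0 g).subtype) hn ?_ ?_ ?_
        · intro h x hx t ht
          by_cases hhg : mbC T0 h = mbC T0 g
          · rw [hhg] at hx
            obtain ⟨s, hs, rfl⟩ := Subgroup.mem_map.1 ht
            exact Subgroup.mem_map.2 ⟨⟨x, hx⟩ * s * ⟨x, hx⟩⁻¹, hM.conj_mem s hs ⟨x, hx⟩, rfl⟩
          · rw [hcomm h g hhg x hx t (hM'le ht), mul_assoc, mul_inv_cancel, mul_one]
            exact ht
        · intro t ht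
          rw [one_mul, inv_one, mul_one]
          exact ht
        · intro x y hx hy t ht
          have h2 : x * y * t * (x * y)⁻¹ = x * (y * t * y⁻¹) * x⁻¹ := by group
          rw [h2]
          exact hx _ (hy t ht)
      have h1 := hminT g _ hM'le hM'ne hM'n
      rw [Subgroup.eq_top_iff']
      intro x
      have h2 : (x : G) ∈ M.map (mbC T0 g).subtype := by
        rw [h1]
        exact x.2
      obtain ⟨s, hs, hsx⟩ := Subgroup.mem_map.1 h2
      have h3 : s = x := Subtype.ext hsx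
      rw [← h3]
      exact hs
  refine ⟨Set.range fun g : G => mbC T0 g, ?_, ?_, ?_⟩
  · rintro T ⟨g, rfl⟩
    refine ⟨hle g, ?_, hnorm g⟩
    have h1 : SS S (mbC T0 g) := hS.of_injective (mbC T0 g).subtype (mbC T0 g).subtype_injective
    exact Finset.le_sup (f := id) (h1.simple (hsimple g) (hnc g))
  · rintro T ⟨g, rfl⟩ T' ⟨h, rfl⟩ hne t ht t' ht'
    exact hcomm g h hne t ht t' ht'
  · rw [sSup_range]
    exact hsup

end Pool.Agent.Lib.MP_c6e9f4_al.Bnd
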