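import Pool.Agent.Lib.MP_c6e9f4_al.Bnd.IN
import Pool.Agent.Lib.MP_c6e9f4_al.Bnd.FB

/-!
ROW OU (100 lines). Induction on `n = S.card`.
`n = 0`: `S = ∅`, exponent `1 - 1 = 0`; `QQ ∅ 0` holds with `C = 0`, `k = 0` since `card ι ≥ 1` and there is no `b ∈ ∅`; `inner`.
Step: `b := S.max'`, `S' := S.erase b` (card `n`), `a' := 1 - (1/2)^n`, `0 ≤ a' < 1`, `(1 + a')/2 = 1 - (1/2)^(n+1) =: a ≥ a'`. By induction `Pw S' b a'`. `QQ S a`: given a family with (`∃ b' ∈ S, Simp b' (G i)`), `SS S (G i)`, split `ι` in `I1 := {i | Nat.card (G i) = b}` and `I2` the rest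
(`Nat.card (G i) < b` as `b` is the maximum of `S`), `DU_two` for the restrictions. `I1` (if nonempty): `family_b S' b a'`; a proper subgroup `K` of `G i` has `Nat.card K < b`, so `SS S' K` by SS.of_injective and SS.erase. `I2` (if nonempty): `Pw S' b a'` (SS.erase), exponent `a' ≤ a`. Monotonicity in the
number of coordinates, sum of the two exponents, `log (r+2) ≥ 1`. Then `inner`.
-/

set_option autoImplicit false

namespace Pool.Agent.Lib.MP_c6e9f4_al.Bnd

open Pool.Agent.Lib.MP_c6e9f4_al.Exp (Bad DB LenFun)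
open Pool.Agent.Lib.MP_c6e9f4_al.Nil (DU)

private theorem OU_mono {C : ℝ} (hC : 0 ≤ C) {r' r : ℕ} (h1 : 1 ≤ r') (h : r' ≤ r) {e a : ℝ}
    (hea : e ≤ a) (ha : 0 ≤ a) {k' k : ℕ} (hk : k' ≤ k) :
    C * (r' : ℝ) ^ e * Real.log ((r' : ℝ) + 2) ^ k' ≤ C * (r : ℝ) ^ a * Real.log ((r : ℝ) + 2) ^ k := by
  have hr' : (1 : ℝ) ≤ r' := by exact_mod_cast h1
  have hrr : (r' : ℝ) ≤ r := by exact_mod_cast h
  have e1 : (r' : ℝ) ^ e ≤ (r : ℝ) ^ a :=
    (Real.rpow_le_rpow_of_exponent_le hr' hea).trans (Real.rpow_le_rpow (by linarith) hrr ha)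
  have l1 : 1 ≤ Real.log ((r' : ℝ) + 2) := by
    rw [Real.le_log_iff_exp_le (by linarith)]
    have := Real.exp_one_lt_d9
    linarith
  have l2 : Real.log ((r' : ℝ) + 2) ≤ Real.log ((r : ℝ) + 2) :=
    Real.log_le_log (by linarith) (by linarith)
  have e2 : Real.log ((r' : ℝ) + 2) ^ k' ≤ Real.log ((r : ℝ) + 2) ^ k :=
    (pow_le_pow_left₀ (by linarith) l2 k').trans (pow_le_pow_right₀ (by linarith) hk)
  refine mul_le_mul (mul_le_mul_of_nonneg_left e1 hC) e2 (pow_nonneg (by linarith) _) ?_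
  exact mul_nonneg hC (Real.rpow_nonneg (by linarith) _)

private theorem OU_sub {ι : Type} [Fintype ι] (G : ι → Type) [∀ i, Group (G i)] (A : Set ι)
    [Fintype A] {C : ℝ} (hC : 0 ≤ C) {e a : ℝ} (hea : e ≤ a) (ha : 0 ≤ a) {k' k : ℕ} (hk : k' ≤ k)
    (h : 1 ≤ Fintype.card A → DU (∀ i : A, G i) (Real.exp (C * (Fintype.card A : ℝ) ^ e *
      Real.log ((Fintype.card A : ℝ) + 2) ^ k'))) :
    DU (∀ i : A, G i) (Real.exp (C * (Fintype.card ι : ℝ) ^ a *
      Real.log ((Fintype.card ι : ℝ) + 2) ^ k)) := by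
  rcases Nat.eq_zero_or_pos (Fintype.card A) with h0 | h0
  · haveI : IsEmpty A := Fintype.card_eq_zero_iff.1 h0
    refine (DU.of_subsingleton (∀ i : A, G i)).mono (Real.one_le_exp ?_)
    have : 0 ≤ Real.log ((Fintype.card ι : ℝ) + 2) :=
      Real.log_nonneg (by have := Nat.cast_nonneg (α := ℝ) (Fintype.card ι); linarith)
    exact mul_nonneg (mul_nonneg hC (Real.rpow_nonneg (Nat.cast_nonneg _) _)) (pow_nonneg this _)
  · refine (h h0).mono (Real.exp_le_exp.2 ?_)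
    exact OU_mono hC h0 (Fintype.card_le_of_injective _ Subtype.val_injective) hea ha hk

theorem outer (n : ℕ) : ∀ S : Finset ℕ, S.card = n → ∀ β : ℕ, Pw S β (1 - (1 / 2 : ℝ) ^ n) := by
  induction n with
  | zero =>
    intro S hS β
    rw [Finset.card_eq_zero] at hS
    subst hS
    rw [pow_zero, sub_self]
    refine inner ∅ 0 le_rfl ⟨0, 0, le_rfl, fun ι _ G _ h1 h2 => ?_⟩ β
    haveI : Nonempty ι := Fintype.card_pos_iff.1 h1
    obtain ⟨⟨b, hb, -⟩, -⟩ := h2 (Classical.arbitrary ι)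
    simp at hb
  | succ n ih =>
    intro S hS β
    have hne : S.Nonempty := Finset.card_pos.1 (by omega)
    have hpow : (0 : ℝ) < (1 / 2 : ℝ) ^ n := by positivity
    have hpow1 : (1 / 2 : ℝ) ^ n ≤ 1 := pow_le_one₀ (by norm_num) (by norm_num)
    have hbS : S.max' hne ∈ S := Finset.max'_mem S hne
    have hmax : ∀ b' ∈ S, b' ≤ S.max' hne := fun b' hb' => Finset.le_max' S b' hb'
    obtain ⟨b, hb⟩ : ∃ b, b = S.max' hne := ⟨_, rfl⟩
    rw [← hb] at hbS hmax
    have hcard : (S.erase b).card = n := by rw [Finset.card_erase_of_mem hbS, hS]; rfl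
    have hP := ih (S.erase b) hcard b
    have ha0 : (0 : ℝ) ≤ 1 - (1 / 2 : ℝ) ^ n := by linarith
    obtain ⟨C1, k1, hC1, H1⟩ := family_b (S.erase b) b _ ha0 (by linarith) hP
    obtain ⟨C2, k2, hC2, H2⟩ := hP
    have ha : (1 + (1 - (1 / 2 : ℝ) ^ n)) / 2 = 1 - (1 / 2 : ℝ) ^ (n + 1) := by
      rw [pow_succ]; ring
    have ha1 : (0 : ℝ) ≤ 1 - (1 / 2 : ℝ) ^ (n + 1) := by rw [← ha]; linarith
    have ha2 : 1 - (1 / 2 : ℝ) ^ n ≤ 1 - (1 / 2 : ℝ) ^ (n + 1) := by rw [← ha]; linarith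
    refine inner S _ ha1 ⟨C1 + C2, max k1 k2, by linarith, fun ι _ G _ h1 h2 => ?_⟩ β
    classical
    have hdu1 := OU_sub G {i | Nat.card (G i) = b} hC1 (le_of_eq ha) ha1 (le_max_left k1 k2)
      (fun hc => H1 _ _ hc (fun i => by
        obtain ⟨⟨b', hb', hs⟩, -⟩ := h2 i
        have : b' = b := by rw [← hs.card]; exact i.2
        rwa [this] at hs) (fun i K hK => by
        obtain ⟨⟨b', hb', hs⟩, hSS⟩ := h2 i
        haveI := hs.fin
        refine (hSS.of_injective K.subtype K.subtype_injective).erase ?_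
        have hi : Nat.card (G i) = b := i.2
        have hle : Nat.card K ≤ Nat.card (G i) :=
          Nat.card_le_card_of_injective K.subtype K.subtype_injective
        refine lt_of_lt_of_eq (lt_of_le_of_ne hle fun heq => hK ?_) hi
        exact Subgroup.eq_top_of_card_eq K heq))
    have hdu2 := OU_sub G {i | Nat.card (G i) = b}ᶜ hC2 ha2 ha1 (le_max_right k1 k2)
      (fun hc => H2 _ _ hc (fun i => by
        obtain ⟨⟨b', hb', hs⟩, hSS⟩ := h2 i
        haveI := hs.fin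
        have hlt : Nat.card (G i) < b := by
          refine lt_of_le_of_ne ?_ i.2
          rw [hs.card]
          exact hmax b' hb'
        exact ⟨hs.fin, hlt.le, hSS.erase hlt⟩))
    have := DU_two (res (T := G) {i | Nat.card (G i) = b}) (res (T := G) {i | Nat.card (G i) = b}ᶜ)
      (fun x hx1 hx2 => by
        funext i
        by_cases hi : Nat.card (G i) = b
        · exact congrFun hx1 ⟨i, hi⟩
        · exact congrFun hx2 ⟨i, hi⟩) hdu1 hdu2
    rw [← Real.exp_add] at this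
    refine this.mono (Real.exp_le_exp.2 (le_of_eq ?_))
    ring

end Pool.Agent.Lib.MP_c6e9f4_al.Bnd
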