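import Pool.Agent.Lib.MP_c6e9f4_al.Bnd.GO

/-!
ROW PT (80 lines). The potential. `phi1 H i = if Full H i then Nat.log 2 (cl H i).card else Nat.log 2 r + 1`, `phi H = ∑ i, phi1 H i`, `Light V H i := Full H i ∧ (¬ Full V i ∨ 2 |cl H i| ≤ |cl V i|)`.
* phi_le: each `phi1 ≤ Nat.log 2 r + 1` (`Nat.log_mono_right`, `Finset.card_le_univ`).
* phi_light: for `V ≤ H` coordinatewise `phi1 H i + (if Light V H i then 1 else 0) ≤ phi1 V i`: if `Full V i` then `Full H i` and `cl H i ⊆ cl V i` (cl_subset), `cl H i` nonempty (self_mem_cl); if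
  moreover light then `2 |cl H i| ≤ |cl V i|` and `Nat.log 2 (2 * a) = Nat.log 2 a + 1` for `a ≥ 1`. If not `Full V i`: `phi1 V i = Nat.log 2 r + 1`. Sum over `i`.
* light_congr: `Lnk H i j`: `Full H j`; `Full V i ↔ Full V j` (full_of_lnk, lnk_symm); `cl H i = cl H j` and if `Full V i`, `cl V i = cl V j` (lnk_mono, cl_congr).
-/

set_option autoImplicit false

namespace Pool.Agent.Lib.MP_c6e9f4_al.Bnd

open Pool.Agent.Lib.MP_c6e9f4_al.Exp (Bad DB LenFun)
open Pool.Agent.Lib.MP_c6e9f4_al.Nil (DU)

section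

variable {ι : Type} [Fintype ι] {T : ι → Type} [∀ i, Group (T i)] {b : ℕ}

theorem phi_le (H : Subgroup (∀ i, T i)) :
    phi H ≤ Fintype.card ι * (Nat.log 2 (Fintype.card ι) + 1) := by
  unfold phi
  have h : ∀ i ∈ (Finset.univ : Finset ι), phi1 H i ≤ Nat.log 2 (Fintype.card ι) + 1 := by
    intro i _
    unfold phi1
    split_ifs
    · exact (Nat.log_mono_right (Finset.card_le_univ _)).trans (Nat.le_succ _)
    · exact le_rfl
  calc ∑ i, phi1 H i ≤ ∑ _i : ι, (Nat.log 2 (Fintype.card ι) + 1) := Finset.sum_le_sum h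
    _ = Fintype.card ι * (Nat.log 2 (Fintype.card ι) + 1) := by
        rw [Finset.sum_const, smul_eq_mul, Finset.card_univ]

open Classical in
private theorem phi1_light (hT : ∀ i, Simp b (T i)) {V H : Subgroup (∀ i, T i)} (h : V ≤ H) (i : ι) :
    phi1 H i + (if Light V H i then 1 else 0) ≤ phi1 V i := by
  have hlogr : ∀ K : Subgroup (∀ i, T i), Nat.log 2 (cl K i).card ≤ Nat.log 2 (Fintype.card ι) :=
    fun K => Nat.log_mono_right (Finset.card_le_univ _)
  by_cases hV : Full V i
  · have hH : Full H i := full_mono h hV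
    have e1 : phi1 H i = Nat.log 2 (cl H i).card := by
      unfold phi1
      rw [if_pos hH]
    have e2 : phi1 V i = Nat.log 2 (cl V i).card := by
      unfold phi1
      rw [if_pos hV]
    rw [e1, e2]
    have hpos : 0 < (cl H i).card := Finset.card_pos.2 ⟨i, self_mem_cl hT hH⟩
    split_ifs with hL
    · have h2 : 2 * (cl H i).card ≤ (cl V i).card := by
        rcases hL.2 with h3 | h3
        · exact absurd hV h3
        · exact h3
      have h4 : Nat.log 2 (cl H i).card + 1 = Nat.log 2 ((cl H i).card * 2) :=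
        (Nat.log_mul_base (by norm_num) hpos.ne').symm
      rw [h4, mul_comm]
      exact Nat.log_mono_right h2
    · rw [add_zero]
      exact Nat.log_mono_right (Finset.card_le_card (cl_subset hT h hV))
  · have e2 : phi1 V i = Nat.log 2 (Fintype.card ι) + 1 := by
      unfold phi1
      rw [if_neg hV]
    rw [e2]
    by_cases hH : Full H i
    · have e1 : phi1 H i = Nat.log 2 (cl H i).card := by
        unfold phi1
        rw [if_pos hH]
      rw [e1]
      have := hlogr H
      split_ifs <;> omega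
    · have e1 : phi1 H i = Nat.log 2 (Fintype.card ι) + 1 := by
        unfold phi1
        rw [if_neg hH]
      rw [e1, if_neg (fun hL => hH hL.1)]

theorem phi_light (hT : ∀ i, Simp b (T i)) {V H : Subgroup (∀ i, T i)} (h : V ≤ H) :
    phi H + nl V H ≤ phi V := by
  classical
  have e : nl V H = ∑ i : ι, (if Light V H i then 1 else 0) := by
    unfold nl
    rw [Finset.card_filter]
  unfold phi
  rw [e, ← Finset.sum_add_distrib]
  refine Finset.sum_le_sum fun i _ => ?_
  have := phi1_light hT h i
  convert this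

theorem light_congr (hT : ∀ i, Simp b (T i)) {V H : Subgroup (∀ i, T i)} (h : V ≤ H) {i j : ι}
    (hij : Lnk H i j) (hi : Light V H i) : Light V H j := by
  refine ⟨hij.2.1, ?_⟩
  rcases hi.2 with h1 | h1
  · exact Or.inl fun h2 => h1 (full_of_lnk hT h (lnk_symm hij) h2)
  · by_cases hV : Full V j
    · right
      have hVi : Full V i := full_of_lnk hT h (lnk_symm hij) hV
      rwa [← cl_congr hT hij, ← cl_congr hT (lnk_mono hT h hVi hij)]
    · exact Or.inl hV

end

end Pool.Agent.Lib.MP_c6e9f4_al.Bnd
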