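import Pool.Agent.Lib.MP_c6e9f4_al.Bnd.GO

/-!
ROW RS (90 lines). Restriction to a set `A` of coordinates (`res A : (∀ i, T i) →* (∀ i : A, T i)`, `H.map (res A)`).
* gen_map: `MonoidHom.map_closure`, the image of `{g | g ∈ l}` is `{g | g ∈ l.map φ}`. full_res, lnk_res: unfold (elements of `H.map (res A)` are `res A h`, and `(res A h) i = h i`).
* light_res: `Light` for the restricted groups at `i : A`, where the class `cl H i` is contained in `A`: `cl` of the restricted `H` has the same number of elements as `cl H i` (bijection `Subtype.val`), `cl` of the restricted `V` has at most as many elements as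
  `cl V i` (injection `Subtype.val`), so `2 |cl H i| ≤ |cl V i|`.
* mm_mono: every factor is monotone in `r` (`Lam` via `Nat.log_mono_right`, `Nat.pow_le_pow_right`, for `b ≥ 1`; the case `b = 0`: `Lam 0 r = 0`).
-/

set_option autoImplicit false

namespace Pool.Agent.Lib.MP_c6e9f4_al.Bnd

open Pool.Agent.Lib.MP_c6e9f4_al.Exp (Bad DB LenFun)
open Pool.Agent.Lib.MP_c6e9f4_al.Nil (DU)

theorem gen_map {G K : Type} [Group G] [Group K] (φ : G →* K) (l : List G) :
    gen (l.map φ) = (gen l).map φ := by
  unfold gen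
  rw [MonoidHom.map_closure]
  congr 1
  ext g
  simp only [List.mem_map, Set.mem_image]
  exact Iff.rfl

private theorem rs_lam (b r r' : ℕ) (h : r ≤ r') : Lam b r ≤ Lam b r' := by
  unfold Lam
  rcases Nat.eq_zero_or_pos b with rfl | hb
  · simp
  · refine Nat.mul_le_mul_left _ (Nat.pow_le_pow_right (by omega) ?_)
    have h1 := Nat.log_mono_right (b := 2) h
    omega

theorem mm_mono (b r r' d : ℕ) (h : r ≤ r') : mm b r d ≤ mm b r' d := by
  unfold mm
  have h1 := rs_lam b r r' h
  have h2 : r * b ≤ r' * b := Nat.mul_le_mul_right _ h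
  refine Nat.mul_le_mul (Nat.mul_le_mul (Nat.mul_le_mul_left _ (Nat.pow_le_pow_left h1 2))
    (Nat.pow_le_pow_left (by omega) 2)) (by omega)

section

variable {ι : Type} {T : ι → Type} [∀ i, Group (T i)]

theorem full_res (A : Set ι) (H : Subgroup (∀ i, T i)) (i : A) :
    Full (T := fun i : A => T i) (H.map (res A)) i ↔ Full H (i : ι) := by
  constructor
  · intro h t
    obtain ⟨_, ⟨h0, h0H, rfl⟩, e⟩ := h t
    exact ⟨h0, h0H, e⟩
  · intro h t
    obtain ⟨h0, h0H, e⟩ := h t
    exact ⟨res A h0, ⟨h0, h0H, rfl⟩, e⟩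

theorem lnk_res (A : Set ι) (H : Subgroup (∀ i, T i)) (i j : A) :
    Lnk (T := fun i : A => T i) (H.map (res A)) i j ↔ Lnk H (i : ι) (j : ι) := by
  unfold Lnk
  rw [full_res, full_res]
  refine and_congr_right fun _ => and_congr_right fun _ => not_congr ?_
  constructor
  · intro h s t
    obtain ⟨_, ⟨h0, h0H, rfl⟩, e1, e2⟩ := h s t
    exact ⟨h0, h0H, e1, e2⟩
  · intro h s t
    obtain ⟨h0, h0H, e1, e2⟩ := h s t
    exact ⟨res A h0, ⟨h0, h0H, rfl⟩, e1, e2⟩

theorem light_res [Fintype ι] (A : Set ι) [Fintype A] (V H : Subgroup (∀ i, T i)) (i : A)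
    (hA : ∀ j ∈ cl H (i : ι), j ∈ A)
    (h : Light (T := fun i : A => T i) (V.map (res A)) (H.map (res A)) i) :
    Light V H (i : ι) := by
  classical
  obtain ⟨h1, h2⟩ := h
  refine ⟨(full_res A H i).1 h1, ?_⟩
  rcases h2 with h2 | h2
  · exact Or.inl fun h3 => h2 ((full_res A V i).2 h3)
  · right
    have h3 : (cl H (i : ι)).card ≤ (cl (T := fun i : A => T i) (H.map (res A)) i).card := by
      have h4 : cl H (i : ι) ⊆ (cl (T := fun i : A => T i) (H.map (res A)) i).image Subtype.val := by
        intro j hj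
        refine Finset.mem_image.2 ⟨⟨j, hA j hj⟩, ?_, rfl⟩
        unfold cl at hj ⊢
        simp only [Finset.mem_filter, Finset.mem_univ, true_and] at hj ⊢
        exact (lnk_res A H i ⟨j, _⟩).2 hj
      exact (Finset.card_le_card h4).trans Finset.card_image_le
    have h5 : (cl (T := fun i : A => T i) (V.map (res A)) i).card ≤ (cl V (i : ι)).card := by
      have h6 : (cl (T := fun i : A => T i) (V.map (res A)) i).image Subtype.val ⊆ cl V (i : ι) := by
        intro j hj
        obtain ⟨j', hj', rfl⟩ := Finset.mem_image.1 hj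
        unfold cl at hj' ⊢
        simp only [Finset.mem_filter, Finset.mem_univ, true_and] at hj' ⊢
        exact (lnk_res A V i j').1 hj'
      rw [← Finset.card_image_of_injective _ Subtype.val_injective]
      exact Finset.card_le_card h6
    omega

end

end Pool.Agent.Lib.MP_c6e9f4_al.Bnd
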