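import Pool.Agent.Lib.MP_c6e9f4_al.Bnd.BDefs

/-!
ROW TR (80 lines). In a list of length `m ^ D` there is a block (infix) `W`, divided in `m` nonempty consecutive blocks `V k`, with `∑ f (V k) ≤ m (f W + K / D)`.
Proof. Suppose not. Claim: for every `j ≤ D` there is an infix `w` of `l` with `w.length = m ^ (D - j)` and `f w ≥ f l + j * (K / D)`, strictly for `j ≥ 1` (state e.g. `j = 0 ∨ strict`). Step
`j → j + 1 ≤ D`: cut `w` in `m` consecutive blocks of length `m ^ (D - j - 1) ≥ 1` (`V k := (w.drop (k * q)).take q`, `q := m ^ (D - j - 1)`; `(List.ofFn V).flatten = w` by induction on `m`); by assumption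
`∑ f (V k) > m (f w + K / D)`, so some `f (V k) > f w + K / D`. For `j = D`: `f w > f l + K ≥ K`, contradiction.
-/

set_option autoImplicit false

namespace Pool.Agent.Lib.MP_c6e9f4_al.Bnd

open Pool.Agent.Lib.MP_c6e9f4_al.Exp (Bad DB LenFun)
open Pool.Agent.Lib.MP_c6e9f4_al.Nil (DU)

private theorem tr_cut {α : Type} (q : ℕ) : ∀ (m : ℕ) (w : List α), w.length = m * q →
    (List.ofFn (fun k : Fin m => (w.drop ((k : ℕ) * q)).take q)).flatten = w := by
  intro m
  induction m with
  | zero =>
    intro w hw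
    have : w = [] := List.eq_nil_of_length_eq_zero (by simpa using hw)
    subst this
    simp
  | succ m ih =>
    intro w hw
    rw [List.ofFn_succ, List.flatten_cons]
    have h1 : (fun i : Fin m => (w.drop (((i.succ : Fin (m + 1)) : ℕ) * q)).take q)
        = fun i : Fin m => ((w.drop q).drop ((i : ℕ) * q)).take q := by
      funext i
      rw [List.drop_drop, Fin.val_succ]
      congr 2
      ring
    rw [h1, ih (w.drop q) (by rw [List.length_drop, hw]; rw [Nat.add_mul]; omega)]
    simp [List.take_append_drop]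

theorem tree {α : Type} (f : List α → ℝ) (K : ℝ) (hf : ∀ l, 0 ≤ f l ∧ f l ≤ K) (m D : ℕ)
    (hm : 1 ≤ m) (hD : 1 ≤ D) (l : List α) (hl : l.length = m ^ D) :
    ∃ V : Fin m → List α, (∀ k, V k ≠ []) ∧ (List.ofFn V).flatten <:+: l ∧
      ∑ k, f (V k) ≤ m * (f (List.ofFn V).flatten + K / D) := by
  by_contra hcon
  push Not at hcon
  have key : ∀ j : ℕ, j ≤ D → ∃ w : List α, w <:+: l ∧ w.length = m ^ (D - j) ∧
      f l + (j : ℝ) * (K / D) ≤ f w ∧ (j = 0 ∨ f l + (j : ℝ) * (K / D) < f w) := by
    intro j
    induction j with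
    | zero => intro _; exact ⟨l, List.infix_refl l, by simpa using hl, by simp, Or.inl rfl⟩
    | succ j ih =>
      intro hj
      obtain ⟨w, hw, hlen, hle, -⟩ := ih (by omega)
      have hq : w.length = m * m ^ (D - (j + 1)) := by
        rw [hlen, ← pow_succ']
        congr 1
        omega
      have hfl := tr_cut (m ^ (D - (j + 1))) m w hq
      have hq1 : 1 ≤ m ^ (D - (j + 1)) := Nat.one_le_pow _ _ hm
      have hlenk : ∀ k : Fin m, ((w.drop ((k : ℕ) * m ^ (D - (j + 1)))).take
          (m ^ (D - (j + 1)))).length = m ^ (D - (j + 1)) := by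
        intro k
        rw [List.length_take, List.length_drop, hq]
        have hk : (k : ℕ) + 1 ≤ m := k.2
        have h2 : ((k : ℕ) + 1) * m ^ (D - (j + 1)) ≤ m * m ^ (D - (j + 1)) :=
          Nat.mul_le_mul_right _ hk
        rw [Nat.add_mul] at h2
        omega
      have h := hcon (fun k : Fin m => (w.drop ((k : ℕ) * m ^ (D - (j + 1)))).take
          (m ^ (D - (j + 1)))) (fun k hk => by
            have := hlenk k
            rw [hk] at this
            simp at this
            omega) (by rw [hfl]; exact hw)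
      rw [hfl] at h
      obtain ⟨k, hk⟩ : ∃ k : Fin m, f w + K / D < f ((w.drop ((k : ℕ) * m ^ (D - (j + 1)))).take
          (m ^ (D - (j + 1)))) := by
        by_contra hno
        push Not at hno
        have h3 : ∑ k : Fin m, f ((w.drop ((k : ℕ) * m ^ (D - (j + 1)))).take
          (m ^ (D - (j + 1)))) ≤ ∑ _k : Fin m, (f w + K / D) := Finset.sum_le_sum fun k _ => hno k
        rw [Finset.sum_const, Finset.card_univ, Fintype.card_fin, nsmul_eq_mul] at h3
        linarith
      have h4 : f l + ((j + 1 : ℕ) : ℝ) * (K / D) < f ((w.drop ((k : ℕ) * m ^ (D - (j + 1)))).take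
          (m ^ (D - (j + 1)))) := by
        push_cast
        linarith
      exact ⟨_, ((List.take_prefix _ _).isInfix.trans (List.drop_suffix _ _).isInfix).trans hw,
        hlenk k, h4.le, Or.inr h4⟩
  obtain ⟨w, -, -, -, h⟩ := key D le_rfl
  have hD0 : (D : ℝ) ≠ 0 := by
    have : (0 : ℝ) < D := by exact_mod_cast hD
    exact this.ne'
  rcases h with h | h
  · omega
  · rw [mul_div_cancel₀ _ hD0] at h
    linarith [(hf l).1, (hf w).2]

end Pool.Agent.Lib.MP_c6e9f4_al.Bnd
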