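import Pool.Agent.Lib.MP_c6e9f4_al.Bnd.RS
import Pool.Agent.Lib.MP_c6e9f4_al.Bnd.TR
import Pool.Agent.Lib.MP_c6e9f4_al.Bnd.PT
import Pool.Agent.Lib.MP_c6e9f4_al.Bnd.KY

/-!
ROW SP (150 lines). In a list of length `m ^ D` some nonempty sublist has a product of small support. `r := card ι`, `K := r * (Nat.log 2 r + 1)`.
Proof. `tree` with `f l := (phi (gen l) : ℝ)`, bounds `0` and `K` (phi_le): blocks `V k`, `W := (List.ofFn V).flatten`, `H := gen W`, `∑ phi (gen (V k)) ≤ m (phi H + K / D)` (`m ≥ mm b r d ≥ 1`). As `gen (V k) ≤ H`, phi_light: `∑_k nl (gen (V k)) H ≤ m K / D`, i.e. (exchange)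
`∑_i nlight i ≤ m K / D`. `Z := {i | Full H i ∧ m < 8 * nlight i}`: `|Z| * m ≤ 8 ∑_i nlight i`, so `D * |Z| ≤ 8 K`. Let `A := Zᶜ`. `Z` is closed under linking (light_congr gives `nlight i = nlight j` for `Lnk H i j`), so `cl H i ⊆ A` for `i ∈ A`.
Apply `key` to `T' := fun i : A => T i`, `V' k := (V k).map (res A)` (`(List.ofFn V').flatten = W.map (res A)`, gen_map): hlight by light_res and full_res (`nlight' i ≤ nlight i`, a filter inclusion), hd by the hypothesis with `κ := {i : A | ¬ Full (gen W') i}`, `e i := (i : A)`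
(composition of the two coercions), hm by mm_mono (`card A ≤ card ι`). So `W.map (res A)` is not bad: there is a nonempty sublist `s.map (res A)`, `s` a sublist of `W` (`List.sublist_map_iff`), with product 1: `s.prod i = 1` for `i ∈ A`, so `{i | s.prod i ≠ 1} ⊆ Z`. `W` is an
infix, so a sublist, of `l`.
-/

set_option autoImplicit false

namespace Pool.Agent.Lib.MP_c6e9f4_al.Bnd

open Pool.Agent.Lib.MP_c6e9f4_al.Exp (Bad DB LenFun)
open Pool.Agent.Lib.MP_c6e9f4_al.Nil (DU)

theorem small_support {ι : Type} [Fintype ι] {T : ι → Type} [∀ i, Group (T i)] {b : ℕ}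
    (hb : 1 ≤ b) (hT : ∀ i, Simp b (T i)) (d : ℕ)
    (hd : ∀ (κ : Type) [Fintype κ] (e : κ → ι), Function.Injective e →
      ∀ K : Subgroup (∀ i, T (e i)), (∀ i, ¬ Full (T := fun i => T (e i)) K i) →
        DB (K : Set (∀ i, T (e i))) d)
    (m D : ℕ) (hD : 1 ≤ D) (hm : mm b (Fintype.card ι) d ≤ m) (l : List (∀ i, T i))
    (hl : l.length = m ^ D) :
    ∃ s : List (∀ i, T i), s.Sublist l ∧ s ≠ [] ∧
      D * {i | s.prod i ≠ 1}.ncard ≤
        8 * Fintype.card ι * (Nat.log 2 (Fintype.card ι) + 1) := by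
  classical
  have hm1 : 1 ≤ m := by
    refine le_trans ?_ hm
    unfold mm Lam
    have : 0 < b := hb
    exact Nat.one_le_iff_ne_zero.2 (by positivity)
  obtain ⟨V, hV, hinf, hsum⟩ := tree (fun l : List (∀ i, T i) => (phi (gen l) : ℝ))
    ((Fintype.card ι * (Nat.log 2 (Fintype.card ι) + 1) : ℕ) : ℝ)
    (fun l => ⟨by positivity, by exact_mod_cast phi_le (gen l)⟩) m D hm1 hD l hl
  set W := (List.ofFn V).flatten with hW
  set H := gen W with hH
  have hVH : ∀ k, gen (V k) ≤ H := by
    intro k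
    refine Subgroup.closure_mono fun g hg => ?_
    exact List.mem_flatten.2 ⟨V k, List.mem_ofFn.2 ⟨k, rfl⟩, hg⟩
  -- the light coordinates
  have hex : ∑ k, nl (gen (V k)) H = ∑ i, nlight (fun k => gen (V k)) H i := by
    unfold nl nlight
    simp only [Finset.card_filter]
    rw [Finset.sum_comm]
  have hD0 : (0 : ℝ) < D := by exact_mod_cast hD
  have hs1 : (D : ℝ) * ((∑ i, nlight (fun k => gen (V k)) H i : ℕ) : ℝ) ≤
      m * ((Fintype.card ι * (Nat.log 2 (Fintype.card ι) + 1) : ℕ) : ℝ) := by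
    have h1 : ∀ k, (phi H : ℝ) + (nl (gen (V k)) H : ℝ) ≤ (phi (gen (V k)) : ℝ) := fun k => by
      exact_mod_cast phi_light hT (hVH k)
    have h2 := Finset.sum_le_sum fun (k : Fin m) (_ : k ∈ Finset.univ) => h1 k
    rw [Finset.sum_add_distrib, Finset.sum_const, Finset.card_univ, Fintype.card_fin, nsmul_eq_mul] at h2
    have h3 := h2.trans hsum
    rw [mul_add] at h3
    have h4 : ∑ k, (nl (gen (V k)) H : ℝ) ≤
        m * (((Fintype.card ι * (Nat.log 2 (Fintype.card ι) + 1) : ℕ) : ℝ) / D) := by linarith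
    rw [← hex, Nat.cast_sum]
    calc (D : ℝ) * ∑ k, (nl (gen (V k)) H : ℝ)
        ≤ D * (m * (((Fintype.card ι * (Nat.log 2 (Fintype.card ι) + 1) : ℕ) : ℝ) / D)) :=
          mul_le_mul_of_nonneg_left h4 hD0.le
      _ = _ := by field_simp
  have hs2 : D * ∑ i, nlight (fun k => gen (V k)) H i ≤
      m * (Fintype.card ι * (Nat.log 2 (Fintype.card ι) + 1)) := by exact_mod_cast hs1
  set Z : Set ι := {i | Full H i ∧ m < 8 * nlight (fun k => gen (V k)) H i} with hZ
  have hZc : D * Z.ncard ≤ 8 * (Fintype.card ι * (Nat.log 2 (Fintype.card ι) + 1)) := by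
    have h1 : Z.ncard * m ≤ 8 * ∑ i, nlight (fun k => gen (V k)) H i := by
      rw [Set.ncard_eq_toFinset_card' Z, Finset.mul_sum, ← smul_eq_mul, ← Finset.sum_const]
      refine (Finset.sum_le_sum fun i hi => ?_).trans (Finset.sum_le_sum_of_subset (Finset.subset_univ _))
      rw [Set.mem_toFinset] at hi
      exact hi.2.le
    have h2 : m * (D * Z.ncard) ≤ m * (8 * (Fintype.card ι * (Nat.log 2 (Fintype.card ι) + 1))) := by
      calc m * (D * Z.ncard) = D * (Z.ncard * m) := by ring
        _ ≤ D * (8 * ∑ i, nlight (fun k => gen (V k)) H i) := Nat.mul_le_mul_left _ h1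
        _ = 8 * (D * ∑ i, nlight (fun k => gen (V k)) H i) := by ring
        _ ≤ 8 * (m * (Fintype.card ι * (Nat.log 2 (Fintype.card ι) + 1))) := Nat.mul_le_mul_left _ hs2
        _ = _ := by ring
    exact Nat.le_of_mul_le_mul_left h2 hm1
  set A : Set ι := Zᶜ with hA
  have hcl : ∀ i ∈ A, ∀ j ∈ cl H i, j ∈ A := by
    intro i hi j hj hjZ
    have h1 : Lnk H i j := mem_cl.1 hj
    have h2 : nlight (fun k => gen (V k)) H j ≤ nlight (fun k => gen (V k)) H i := by
      unfold nlight
      refine Finset.card_le_card fun k hk => ?_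
      rw [Finset.mem_filter] at hk ⊢
      exact ⟨hk.1, light_congr hT (hVH k) (lnk_symm h1) hk.2⟩
    exact hi ⟨h1.1, lt_of_lt_of_le hjZ.2 (Nat.mul_le_mul_left _ h2)⟩
  -- restriction to `A`
  have hW' : (List.ofFn fun k => (V k).map (res A)).flatten = W.map (res A) := by
    rw [hW, List.map_flatten, List.map_ofFn]
    rfl
  have hgV : ∀ k, gen ((V k).map (res A)) = (gen (V k)).map (res A) := fun k => gen_map _ _
  have hgW : gen (W.map (res A)) = H.map (res A) := gen_map _ _
  have hkey := key (T := fun i : A => T i) hb (fun i => hT i) (fun k => (V k).map (res A))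
    (fun k => by simpa using hV k) d
  rw [hW', hgW] at hkey
  have hnb := hkey ?_ ?_ ?_
  · unfold Bad at hnb
    push Not at hnb
    obtain ⟨s', hs', hne, hprod⟩ := hnb
    obtain ⟨s, hs, rfl⟩ := List.sublist_map_iff.1 hs'
    refine ⟨s, hs.trans hinf.sublist, fun h => hne (by rw [h]; rfl), ?_⟩
    have h1 : {i | s.prod i ≠ 1} ⊆ Z := by
      intro i hi
      by_contra hiZ
      apply hi
      have h2 : res A s.prod = 1 := by rw [map_list_prod]; exact hprod
      exact congrFun h2 ⟨i, hiZ⟩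
    calc D * {i | s.prod i ≠ 1}.ncard ≤ D * Z.ncard := Nat.mul_le_mul_left _ (Set.ncard_le_ncard h1 (Set.toFinite _))
      _ ≤ _ := hZc
      _ = _ := by ring
  · intro i hi
    have h1 : Full H (i : ι) := (full_res A H i).1 hi
    have h2 : nlight (T := fun i : A => T i) (fun k => gen ((V k).map (res A))) (H.map (res A)) i ≤
        nlight (fun k => gen (V k)) H (i : ι) := by
      unfold nlight
      refine Finset.card_le_card fun k hk => ?_
      rw [Finset.mem_filter] at hk ⊢
      refine ⟨hk.1, light_res A (gen (V k)) H i (hcl i i.2) ?_⟩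
      have h3 : Light (T := fun i : A => T i) (gen ((V k).map (res A))) (H.map (res A)) i := hk.2
      rw [hgV] at h3
      exact h3
    have h4 : ¬ m < 8 * nlight (fun k => gen (V k)) H (i : ι) := fun h5 => i.2 ⟨h1, h5⟩
    exact (Nat.mul_le_mul_left _ h2).trans (not_lt.1 h4)
  · exact hd {i : A | ¬ Full (T := fun i : A => T i) (H.map (res A)) i} (fun i => ((i : A) : ι))
      (Subtype.val_injective.comp Subtype.val_injective) _ fun i => by
        intro h1
        exact i.2 ((full_res (T := fun i : A => T i) _ (H.map (res A)) i).1 h1)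
  · exact (mm_mono b _ _ d (Fintype.card_subtype_le _)).trans hm

end Pool.Agent.Lib.MP_c6e9f4_al.Bnd
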