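import Pool.Agent.Lib.MP_c6e9f4_al.Bnd.AV

/-!
ROW TG (90 lines). Greedy toggles: a bound for all averages along SHORT lists `z` generating `gen V` (and all translates of `f`) gives the same bound for the average
along `V`. (`gen l` = subgroup generated by the entries, `lt c f x = f (c⁻¹ x)`.)
Proof. `List.reverseRecOn`: `V = V' ++ [v]`, the claim for `V'` and ALL functions. `Avg V f = Avg V' (F)`, `F := fun x => (f x + lt v f x)/2` (avg_append).
Case 1: `v ∈ gen V'`. Then `gen V = gen V'`. `Avg V f = (Avg V' f + Avg V' (lt v f))/2` (avg_add, avg_smul), so by nsq_mid it suffices that both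
`nsq (Avg V' f) ≤ B0` (induction hypothesis, the hypothesis for `V` is the one for `V'`) and `nsq (Avg V' (lt v f)) ≤ B0` (induction hypothesis for the function
`lt v f`: `lt c (lt v f) = lt (c * v) f`, `c * v ∈ gen V`).
Case 2: `v ∉ gen V'`. Then `2 * Nat.card (gen V') ≤ Nat.card (gen V)` (proper subgroup, `Subgroup.card_dvd_of_le`). Apply the induction hypothesis to `V'` and `F`: for `z'`, `c'` with
`gen z' = gen V'`, `2 ^ z'.length ≤ Nat.card (gen V')`, `c' ∈ gen V'` we have `lt c' F = fun x => (lt c' f x + lt (c' v c'⁻¹) (lt c' f) x)/2 = Avg [c' v c'⁻¹] (lt c' f)`, so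
`Avg z' (lt c' F) = Avg (z' ++ [c' v c'⁻¹]) (lt c' f)`; the list `z := z' ++ [c' v c'⁻¹]` has `gen z = gen V` (as `c' ∈ gen z' = gen V'`), `z.length = z'.length + 1`,
`2 ^ z.length ≤ 2 * Nat.card (gen V') ≤ Nat.card (gen V)`, `c' ∈ gen V`: apply the hypothesis for `V`.
Base: `V = []`: take `z = []`, `c = 1`.
-/

set_option autoImplicit false

namespace Pool.Agent.Lib.MP_c6e9f4_al.Bnd

open Pool.Agent.Lib.MP_c6e9f4_al.Exp (Bad DB LenFun)
open Pool.Agent.Lib.MP_c6e9f4_al.Nil (DU)

private theorem TG_avg_half {G : Type} [Group G] (l : List G) (f g : G → ℝ) :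
    Avg l (fun x => (f x + g x) / 2) = fun x => (Avg l f x + Avg l g x) / 2 := by
  induction l with
  | nil => rfl
  | cons v l ih =>
    funext x
    show (Avg l (fun x => (f x + g x) / 2) x + lt v (Avg l (fun x => (f x + g x) / 2)) x) / 2 =
      ((Avg l f x + lt v (Avg l f) x) / 2 + (Avg l g x + lt v (Avg l g) x) / 2) / 2
    rw [ih]
    show ((Avg l f x + Avg l g x) / 2 + (Avg l f (v⁻¹ * x) + Avg l g (v⁻¹ * x)) / 2) / 2 =
      ((Avg l f x + Avg l f (v⁻¹ * x)) / 2 + (Avg l g x + Avg l g (v⁻¹ * x)) / 2) / 2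
    ring

private theorem TG_mem {G : Type} [Group G] {l : List G} {g : G} (h : g ∈ l) : g ∈ gen l :=
  Subgroup.subset_closure h

private theorem TG_le {G : Type} [Group G] {l : List G} {K : Subgroup G} (h : ∀ g ∈ l, g ∈ K) : gen l ≤ K :=
  (Subgroup.closure_le K).2 fun g hg => h g hg

private theorem TG_card {G : Type} [Group G] [Finite G] {H K : Subgroup G} (hle : H ≤ K) (hne : H ≠ K) :
    2 * Nat.card H ≤ Nat.card K := by
  obtain ⟨m, hm⟩ := Subgroup.card_dvd_of_le hle
  have h0 : 0 < Nat.card K := Nat.card_pos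
  have h1 : m ≠ 0 := by
    rintro rfl
    omega
  have h2 : m ≠ 1 := by
    rintro rfl
    exact hne (Subgroup.eq_of_le_of_card_ge hle (by rw [hm, mul_one]))
  rw [hm, mul_comm 2]
  exact Nat.mul_le_mul_left _ (by omega)

theorem toggles {G : Type} [Group G] [Fintype G] (V : List G) : ∀ (f : G → ℝ) (B0 : ℝ),
    (∀ (z : List G) (c : G), gen z = gen V → 2 ^ z.length ≤ Nat.card (gen V) → c ∈ gen V →
      nsq (Avg z (lt c f)) ≤ B0) → nsq (Avg V f) ≤ B0 := by
  induction V using List.reverseRecOn with
  | nil =>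
    intro f B0 h
    have h0 : 0 < Nat.card (gen ([] : List G)) := Nat.card_pos
    have h1 := h [] 1 rfl h0 (one_mem _)
    rwa [lt_one] at h1
  | append_singleton V v ih =>
    intro f B0 h
    have hV : gen V ≤ gen (V ++ [v]) := TG_le fun g hg => TG_mem (List.mem_append_left _ hg)
    have hv : v ∈ gen (V ++ [v]) := TG_mem (List.mem_append_right _ (List.mem_singleton_self v))
    rw [avg_append]
    show nsq (Avg V (fun x => (f x + lt v f x) / 2)) ≤ B0
    by_cases hmem : v ∈ gen V
    · have hgen : gen (V ++ [v]) = gen V := by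
        refine le_antisymm (TG_le fun g hg => ?_) hV
        rcases List.mem_append.1 hg with hg | hg
        · exact TG_mem hg
        · rw [List.mem_singleton.1 hg]
          exact hmem
      rw [hgen] at h
      have h1 := ih f B0 h
      have h2 := ih (lt v f) B0 fun z c hz hc hcm => by
        rw [← lt_mul]
        exact h z (c * v) hz hc (mul_mem hcm hmem)
      rw [TG_avg_half]
      have h3 := nsq_mid (Avg V f) (Avg V (lt v f))
      linarith
    · have hne : gen V ≠ gen (V ++ [v]) := fun e => hmem (e ▸ hv)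
      have hcard := TG_card hV hne
      refine ih _ B0 fun z c hz hc hcm => ?_
      have hF : lt c (fun x => (f x + lt v f x) / 2) = Avg [c * v * c⁻¹] (lt c f) := by
        have e1 : lt (c * v * c⁻¹) (lt c f) = lt c (lt v f) := by
          rw [← lt_mul, ← lt_mul, inv_mul_cancel_right]
        show (fun x => (f (c⁻¹ * x) + lt v f (c⁻¹ * x)) / 2) = fun x => (lt c f x + lt (c * v * c⁻¹) (lt c f) x) / 2
        rw [e1]
        rfl
      rw [hF, ← avg_append]
      have hcz : c ∈ gen (z ++ [c * v * c⁻¹]) := by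
        have h1 : gen z ≤ gen (z ++ [c * v * c⁻¹]) := TG_le fun g hg => TG_mem (List.mem_append_left _ hg)
        exact h1 (hz ▸ hcm)
      refine h _ c (le_antisymm (TG_le fun g hg => ?_) (TG_le fun g hg => ?_)) ?_ (hV hcm)
      · rcases List.mem_append.1 hg with hg | hg
        · exact hV (hz ▸ TG_mem hg)
        · rw [List.mem_singleton.1 hg]
          exact mul_mem (mul_mem (hV hcm) hv) (inv_mem (hV hcm))
      · have h1 : gen z ≤ gen (z ++ [c * v * c⁻¹]) := TG_le fun g hg => TG_mem (List.mem_append_left _ hg)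
        rcases List.mem_append.1 hg with hg | hg
        · exact h1 (hz.symm ▸ TG_mem hg)
        · rw [List.mem_singleton.1 hg]
          have h2 : c * v * c⁻¹ ∈ gen (z ++ [c * v * c⁻¹]) :=
            TG_mem (List.mem_append_right _ (List.mem_singleton_self _))
          have h3 := mul_mem (mul_mem (inv_mem hcz) h2) hcz
          have e : c⁻¹ * (c * v * c⁻¹) * c = v := by group
          rwa [e] at h3
      · rw [List.length_append, List.length_singleton, pow_succ]
        omega

end Pool.Agent.Lib.MP_c6e9f4_al.Bnd
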