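import Pool.Agent.Lib.MP_c6e9f4_al.Bnd.BDefs

/-!
ROW WB (100 lines). Short words.
* short_word: a word in `S ∪ S⁻¹` is a list `w : List G` with `∀ g ∈ w, g ∈ S ∨ g⁻¹ ∈ S`; every element of `closure S` is a product of such a list (`Subgroup.exists_list_of_mem_closure`),
  so `k = φ w.prod` for some word. Take such a word of minimal length. If its length is `≥ Nat.card K` then two of the `length + 1` images `φ (w.take i).prod` coincide, and removing the
  block between them gives a shorter word with the same `φ`-image: contradiction. So the length is `≤ Nat.card K`; `ρ w.prod ≤ ∑ ρ ≤ length * η` (`ρ g⁻¹ = ρ g`).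
* comm_word: the commutator subgroup of the simple nonabelian group `T` is normal and not `⊥`, so `⊤`; it is the closure of the commutators `⁅x, y⁆`, whose set is closed under
  inverses (`⁅x, y⁆⁻¹ = ⁅y, x⁆`); so `t` is a product of commutators, and a shortest such product has length `≤ Nat.card T = b` by the same argument.
-/

set_option autoImplicit false

namespace Pool.Agent.Lib.MP_c6e9f4_al.Bnd

open Pool.Agent.Lib.MP_c6e9f4_al.Exp (Bad DB LenFun)
open Pool.Agent.Lib.MP_c6e9f4_al.Nil (DU)

open scoped commutatorElement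

private theorem wb_list {G : Type} [Group G] (S : Set G) {g : G} (hg : g ∈ Subgroup.closure S) :
    ∃ l : List G, (∀ y ∈ l, y ∈ S ∨ y⁻¹ ∈ S) ∧ l.prod = g := by
  rw [← Subgroup.mem_toSubmonoid, Subgroup.closure_toSubmonoid] at hg
  obtain ⟨l, h1, h2⟩ := Submonoid.exists_list_of_mem_closure hg
  exact ⟨l, fun y hy => (h1 y hy).imp id (fun h => Set.mem_inv.mp h), h2⟩

private theorem wb_shorten {α K : Type} [Group K] [Finite K] (f : α → K) : ∀ (n : ℕ) (w : List α),
    w.length = n → ∃ w' : List α, (∀ x ∈ w', x ∈ w) ∧ (w'.map f).prod = (w.map f).prod ∧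
      w'.length ≤ Nat.card K := by
  classical
  have := Fintype.ofFinite K
  intro n
  induction n using Nat.strong_induction_on with
  | _ n ih =>
    intro w hw
    by_cases hle : w.length ≤ Nat.card K
    · exact ⟨w, fun x hx => hx, rfl, hle⟩
    · have hcard : Fintype.card K < Fintype.card (Fin (w.length + 1)) := by
        rw [Fintype.card_fin, ← Nat.card_eq_fintype_card]
        omega
      obtain ⟨a, b, hab, heq⟩ := Fintype.exists_ne_map_eq_of_card_lt
        (fun i : Fin (w.length + 1) => ((w.take i).map f).prod) hcard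
      have main : ∀ i j : ℕ, i < j → j ≤ w.length →
          ((w.take i).map f).prod = ((w.take j).map f).prod →
          ∃ w' : List α, (∀ x ∈ w', x ∈ w) ∧ (w'.map f).prod = (w.map f).prod ∧
            w'.length ≤ Nat.card K := by
        intro i j hij hj h
        have hlen : (w.take i ++ w.drop j).length < n := by
          rw [List.length_append, List.length_take, List.length_drop]
          omega
        obtain ⟨w', h1, h2, h3⟩ := ih _ hlen (w.take i ++ w.drop j) rfl
        refine ⟨w', fun x hx => ?_, ?_, h3⟩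
        · rcases List.mem_append.mp (h1 x hx) with h4 | h4
          · exact List.mem_of_mem_take h4
          · exact List.mem_of_mem_drop h4
        · rw [h2, List.map_append, List.prod_append, h, ← List.prod_append, ← List.map_append,
            List.take_append_drop]
      rcases lt_or_gt_of_ne (fun h => hab (Fin.ext h) : (a : ℕ) ≠ b) with h | h
      · exact main a b h (by omega) heq
      · exact main b a h (by omega) heq.symm

theorem short_word {G K : Type} [Group G] [Group K] [Finite K] (φ : G →* K) (S : Set G) (ρ : G → ℝ)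
    (hρ : LenFun ρ) (η : ℝ) (hη0 : 0 ≤ η) (hη : ∀ g ∈ S, ρ g ≤ η) (k : K)
    (hk : k ∈ (Subgroup.closure S).map φ) :
    ∃ u ∈ Subgroup.closure S, φ u = k ∧ ρ u ≤ Nat.card K * η := by
  obtain ⟨g, hg, rfl⟩ := hk
  obtain ⟨l, hl, rfl⟩ := wb_list S hg
  obtain ⟨w, h1, h2, h3⟩ := wb_shorten (fun x => φ x) _ l rfl
  have hw : ∀ x ∈ w, x ∈ S ∨ x⁻¹ ∈ S := fun x hx => hl x (h1 x hx)
  refine ⟨w.prod, ?_, ?_, ?_⟩
  · refine Subgroup.list_prod_mem _ fun x hx => ?_
    rcases hw x hx with h | h
    · exact Subgroup.subset_closure h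
    · exact (Subgroup.inv_mem_iff _).mp (Subgroup.subset_closure h)
  · rw [map_list_prod, map_list_prod]
    exact h2
  · have key : ∀ v : List G, (∀ x ∈ v, x ∈ S ∨ x⁻¹ ∈ S) → ρ v.prod ≤ v.length * η := by
      intro v
      induction v with
      | nil => intro _; simp [hρ.one]
      | cons x v ih =>
        intro hv
        have h4 := ih fun y hy => hv y (List.mem_cons_of_mem _ hy)
        have h5 : ρ x ≤ η := by
          rcases hv x List.mem_cons_self with h | h
          · exact hη x h
          · rw [← hρ.inv]; exact hη _ h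
        have h6 := hρ.mul_le x v.prod
        rw [List.prod_cons, List.length_cons]
        push_cast
        linarith
    refine (key w hw).trans (mul_le_mul_of_nonneg_right ?_ hη0)
    exact_mod_cast h3

theorem comm_word {b : ℕ} {T : Type} [Group T] (hT : Simp b T) (t : T) :
    ∃ l : List (T × T), l.length ≤ b ∧ (l.map (fun p => p.1 * p.2 * p.1⁻¹ * p.2⁻¹)).prod = t := by
  have := hT.fin
  have hs := hT.simple
  have htop : commutator T = ⊤ := by
    rcases hs.eq_bot_or_eq_top_of_normal (commutator T) inferInstance with h | h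
    · exfalso
      obtain ⟨x, y, hxy⟩ := hT.nonab
      apply hxy
      have h1 : ⁅x, y⁆ ∈ commutator T := Subgroup.commutator_mem_commutator (Subgroup.mem_top x)
        (Subgroup.mem_top y)
      rw [h, Subgroup.mem_bot, commutatorElement_eq_one_iff_mul_comm] at h1
      exact h1
    · exact h
  have ht : t ∈ Subgroup.closure (commutatorSet T) := by
    rw [← commutator_eq_closure, htop]; exact Subgroup.mem_top t
  obtain ⟨l, hl, rfl⟩ := wb_list _ ht
  have hpair : ∀ y ∈ l, ∃ p : T × T, p.1 * p.2 * p.1⁻¹ * p.2⁻¹ = y := by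
    intro y hy
    rcases hl y hy with h | h
    · obtain ⟨a, c, hac⟩ := h
      exact ⟨(a, c), hac⟩
    · obtain ⟨a, c, hac⟩ := h
      refine ⟨(c, a), ?_⟩
      have h2 : y = ⁅a, c⁆⁻¹ := by rw [hac, inv_inv]
      rw [h2, commutatorElement_inv]
      rfl
  have hlist : ∀ v : List T, (∀ y ∈ v, ∃ p : T × T, p.1 * p.2 * p.1⁻¹ * p.2⁻¹ = y) →
      ∃ L : List (T × T), (L.map (fun p => p.1 * p.2 * p.1⁻¹ * p.2⁻¹)).prod = v.prod := by
    intro v
    induction v with
    | nil => intro _; exact ⟨[], rfl⟩
    | cons y v ih =>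
      intro hv
      obtain ⟨L, hL⟩ := ih fun z hz => hv z (List.mem_cons_of_mem _ hz)
      obtain ⟨p, hp⟩ := hv y List.mem_cons_self
      exact ⟨p :: L, by rw [List.map_cons, List.prod_cons, List.prod_cons, hL, hp]⟩
  obtain ⟨L, hL⟩ := hlist l hpair
  obtain ⟨w, -, h2, h3⟩ := wb_shorten (fun p : T × T => p.1 * p.2 * p.1⁻¹ * p.2⁻¹) _ L rfl
  exact ⟨w, by rw [hT.card] at h3; exact h3, by rw [h2, hL]⟩

end Pool.Agent.Lib.MP_c6e9f4_al.Bnd
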