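import Pool.Agent.Lib.MP_c6e9f4_al.Bnd.GO
import Pool.Agent.Lib.MP_c6e9f4_al.Bnd.WB

/-!
ROW WD (130 lines). The word lemma: if `H := closure S` is full at `i`, every `t : T i` is `u i` for an element `u ∈ H` trivial at all coordinates not linked with `i`, of `ρ`-length at most
`Lam b r * η`, `r := card ι`, `Lam b r = b ^ 2 * (4 * b) ^ (Nat.log 2 r + 1)`.
Proof. Claim(s): for every finset `D` of coordinates not linked with `i`, `D.card ≤ 2 ^ s`: for all `t : T i` there is `u ∈ H` with `u i = t`, `u j = 1` for `j ∈ D`, `ρ u ≤ b ^ 2 * (4 * b) ^ s * η`.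
Induction on `s`. `s = 0`: `D = {j}` (or empty: then use `D = {}`, any full element; same argument with `φ := evaluation at i`): by `pair_one` there is `g ∈ H` with `g i = t`, `g j = 1`, so
`(t, 1)` lies in the image of `H` under `φ : (∀ i, T i) →* T i × T j`, `Nat.card (T i × T j) = b ^ 2`: `short_word`. Step: split `D = D1 ∪ D2`, both of size `≤ 2 ^ s`
(`Finset.exists_subset_card_eq` or similar); by `comm_word` `t = ∏ ⁅x_k, y_k⁆` with at most `b` factors; choose `g_k ∈ H` for `x_k`, `D1` and `h_k ∈ H` for `y_k`, `D2`;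
`u := ∏ ⁅g_k, h_k⁆` (list product, induction on the list): `u i = t`, `u j = 1` on `D1 ∪ D2` (a commutator with a trivial entry is trivial), `ρ ⁅g, h⁆ ≤ 2 ρ g + 2 ρ h ≤ 4 * (..)`.
Finally `D := {j | ¬ Lnk H i j}` has at most `r < 2 ^ (Nat.log 2 r + 1)` elements (`Nat.lt_pow_succ_log_self`).
-/

set_option autoImplicit false

namespace Pool.Agent.Lib.MP_c6e9f4_al.Bnd

open Pool.Agent.Lib.MP_c6e9f4_al.Exp (Bad DB LenFun)
open Pool.Agent.Lib.MP_c6e9f4_al.Nil (DU)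

private theorem wd_list {ι : Type} {T : ι → Type} [∀ i, Group (T i)] (H : Subgroup (∀ i, T i))
    (ρ : (∀ i, T i) → ℝ) (hρ : LenFun ρ) (A : ℝ) (i : ι) (D E : Set ι)
    (hD : ∀ t : T i, ∃ u ∈ H, u i = t ∧ (∀ j ∈ D, u j = 1) ∧ ρ u ≤ A)
    (hE : ∀ t : T i, ∃ u ∈ H, u i = t ∧ (∀ j ∈ E, u j = 1) ∧ ρ u ≤ A) (l : List (T i × T i)) :
    ∃ u ∈ H, u i = (l.map (fun p => p.1 * p.2 * p.1⁻¹ * p.2⁻¹)).prod ∧ (∀ j, j ∈ D ∨ j ∈ E → u j = 1) ∧
      ρ u ≤ (l.length : ℝ) * (4 * A) := by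
  induction l with
  | nil =>
    refine ⟨1, H.one_mem, by simp, fun j _ => rfl, ?_⟩
    rw [hρ.one]
    simp
  | cons p l ih =>
    obtain ⟨u, huH, hui, hu1, huρ⟩ := ih
    obtain ⟨g, hgH, hgi, hg1, hgρ⟩ := hD p.1
    obtain ⟨h, hhH, hhi, hh1, hhρ⟩ := hE p.2
    refine ⟨g * h * g⁻¹ * h⁻¹ * u, ?_, ?_, ?_, ?_⟩
    · exact H.mul_mem (H.mul_mem (H.mul_mem (H.mul_mem hgH hhH) (H.inv_mem hgH)) (H.inv_mem hhH)) huH
    · rw [List.map_cons, List.prod_cons]
      simp only [Pi.mul_apply, Pi.inv_apply]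
      rw [hgi, hhi, hui]
    · rintro j (hj | hj)
      · simp only [Pi.mul_apply, Pi.inv_apply]
        rw [hg1 j hj, hu1 j (Or.inl hj)]
        group
      · simp only [Pi.mul_apply, Pi.inv_apply]
        rw [hh1 j hj, hu1 j (Or.inr hj)]
        group
    · have h1 := hρ.mul_le (g * h * g⁻¹ * h⁻¹) u
      have h2 := hρ.mul_le (g * h * g⁻¹) h⁻¹
      have h3 := hρ.mul_le (g * h) g⁻¹
      have h4 := hρ.mul_le g h
      rw [hρ.inv] at h2 h3
      rw [List.length_cons]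
      push_cast
      linarith

private theorem wd_claim {ι : Type} {T : ι → Type} [∀ i, Group (T i)] {b : ℕ}
    (hT : ∀ i, Simp b (T i)) (S : Set (∀ i, T i)) (ρ : (∀ i, T i) → ℝ) (hρ : LenFun ρ) (η : ℝ)
    (hη0 : 0 ≤ η) (hη : ∀ g ∈ S, ρ g ≤ η) (i : ι) (hi : Full (Subgroup.closure S) i) (s : ℕ) :
    ∀ D : Finset ι, (∀ j ∈ D, ¬ Lnk (Subgroup.closure S) i j) → D.card ≤ 2 ^ s → ∀ t : T i,
      ∃ u ∈ Subgroup.closure S, u i = t ∧ (∀ j ∈ D, u j = 1) ∧
        ρ u ≤ ((b : ℝ) ^ 2 * (4 * b) ^ s) * η := by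
  classical
  have : ∀ j, Finite (T j) := fun j => (hT j).fin
  have hb : 1 ≤ b := by
    rw [← (hT i).card]
    exact Nat.card_pos
  induction s with
  | zero =>
    intro D hD hcard t
    rw [pow_zero] at hcard
    rcases D.eq_empty_or_nonempty with hE | ⟨j, hj⟩
    · obtain ⟨g, hg, hgt⟩ := hi t
      obtain ⟨u, hu, hut, huρ⟩ := short_word (Pi.evalMonoidHom T i) S ρ hρ η hη0 hη t ⟨g, hg, hgt⟩
      refine ⟨u, hu, hut, ?_, huρ.trans ?_⟩
      · intro j hj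
        rw [hE] at hj
        exact absurd hj (Finset.notMem_empty j)
      · rw [(hT i).card, pow_zero, mul_one]
        refine mul_le_mul_of_nonneg_right ?_ hη0
        have h1 : (1 : ℝ) ≤ b := by exact_mod_cast hb
        nlinarith
    · obtain ⟨g, hg, hgi, hgj⟩ := pair_one hT hi (hD j hj) t
      obtain ⟨u, hu, hut, huρ⟩ := short_word ((Pi.evalMonoidHom T i).prod (Pi.evalMonoidHom T j)) S ρ hρ η hη0 hη
        (t, 1) ⟨g, hg, Prod.ext hgi hgj⟩
      have h1 : u i = t := congrArg Prod.fst hut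
      have h2 : u j = 1 := congrArg Prod.snd hut
      refine ⟨u, hu, h1, ?_, huρ.trans ?_⟩
      · intro k hk
        rw [Finset.card_le_one.1 hcard k hk j hj]
        exact h2
      · rw [Nat.card_prod, (hT i).card, (hT j).card, pow_zero, mul_one, Nat.cast_mul, pow_two]
  | succ s ih =>
    intro D hD hcard t
    obtain ⟨D1, hD1, hc1⟩ := Finset.exists_subset_card_eq (min_le_left D.card (2 ^ s))
    have hc2 : (D \ D1).card ≤ 2 ^ s := by
      rw [Finset.card_sdiff_of_subset hD1, hc1]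
      rw [pow_succ] at hcard
      omega
    have h1 := ih D1 (fun j hj => hD j (hD1 hj)) (hc1.le.trans (min_le_right _ _))
    have h2 := ih (D \ D1) (fun j hj => hD j (Finset.mem_sdiff.1 hj).1) hc2
    obtain ⟨l, hl, hlt⟩ := comm_word (hT i) t
    obtain ⟨u, hu, hui, huj, huρ⟩ := wd_list (Subgroup.closure S) ρ hρ _ i D1 (D \ D1 : Finset ι) h1 h2 l
    refine ⟨u, hu, hui.trans hlt, ?_, huρ.trans ?_⟩
    · intro j hj
      apply huj j
      by_cases hj1 : j ∈ D1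
      · exact Or.inl hj1
      · exact Or.inr (Finset.mem_coe.2 (Finset.mem_sdiff.2 ⟨hj, hj1⟩))
    · have h3 : (l.length : ℝ) ≤ b := by exact_mod_cast hl
      have h4 : 0 ≤ 4 * ((b : ℝ) ^ 2 * (4 * b) ^ s * η) := by positivity
      calc (l.length : ℝ) * (4 * ((b : ℝ) ^ 2 * (4 * b) ^ s * η))
          ≤ b * (4 * ((b : ℝ) ^ 2 * (4 * b) ^ s * η)) := mul_le_mul_of_nonneg_right h3 h4
        _ = (b : ℝ) ^ 2 * (4 * b) ^ (s + 1) * η := by ring

theorem step_word {ι : Type} [Fintype ι] {T : ι → Type} [∀ i, Group (T i)] {b : ℕ}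
    (hT : ∀ i, Simp b (T i)) (S : Set (∀ i, T i)) (ρ : (∀ i, T i) → ℝ) (hρ : LenFun ρ) (η : ℝ)
    (hη0 : 0 ≤ η) (hη : ∀ g ∈ S, ρ g ≤ η) (i : ι) (hi : Full (Subgroup.closure S) i) (t : T i) :
    ∃ u ∈ Subgroup.closure S, u i = t ∧ (∀ j, ¬ Lnk (Subgroup.closure S) i j → u j = 1) ∧
      ρ u ≤ (Lam b (Fintype.card ι) : ℝ) * η := by
  classical
  obtain ⟨u, hu, hui, huj, huρ⟩ := wd_claim hT S ρ hρ η hη0 hη i hi (Nat.log 2 (Fintype.card ι) + 1)
    (Finset.univ.filter fun j => ¬ Lnk (Subgroup.closure S) i j) (fun j hj => (Finset.mem_filter.1 hj).2)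
    ((Finset.card_le_univ _).trans (Nat.lt_pow_succ_log_self (by norm_num) _).le) t
  refine ⟨u, hu, hui, fun j hj => huj j (Finset.mem_filter.2 ⟨Finset.mem_univ j, hj⟩), huρ.trans (le_of_eq ?_)⟩
  unfold Lam
  push_cast
  ring

end Pool.Agent.Lib.MP_c6e9f4_al.Bnd
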